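import Pool.Agent.Work.MP_11a08a_al.Fr.Ex

/-!
The exponential sum bound from its module form.
-/

set_option autoImplicit false

open Finset Filter

namespace Pool.Agent.Work.MP_11a08a_al.Fr

/-- The largest ideal inside the kernel of a character. -/
def bgk_ideal {R : Type} [CommRing R] (s : AddChar R ℂ) : Ideal R where
  carrier := {x | ∀ y, s (y * x) = 1}
  add_mem' := fun {a b} ha hb y => by
    rw [mul_add, s.map_add_eq_mul, ha y, hb y, one_mul]
  zero_mem' := fun y => by rw [mul_zero, s.map_zero_eq_one]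
  smul_mem' := fun c x hx y => by
    rw [smul_eq_mul, ← mul_assoc]
    exact hx _

/-- The character of the quotient. -/
def bgk_lift {R : Type} [CommRing R] (s : AddChar R ℂ) : AddChar (R ⧸ bgk_ideal s) ℂ where
  toFun := fun t => Quotient.liftOn' t s fun a b hab => by
    have h1 : a - b ∈ bgk_ideal s := (Submodule.quotientRel_def _).1 hab
    have h2 : s (a - b) = 1 := by simpa using h1 1
    rw [← sub_add_cancel a b, s.map_add_eq_mul, h2, one_mul]
  map_zero_eq_one' := s.map_zero_eq_one
  map_add_eq_mul' := fun a b => by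
    obtain ⟨a, rfl⟩ := Ideal.Quotient.mk_surjective a
    obtain ⟨b, rfl⟩ := Ideal.Quotient.mk_surjective b
    exact s.map_add_eq_mul a b

theorem bgk_lift_smul {R : Type} [CommRing R] (s : AddChar R ℂ) (y x : R) :
    bgk_lift s (y • Ideal.Quotient.mk (bgk_ideal s) x) = s (y * x) := rfl

theorem bgk (h : StmtBGK1) : StmtBGK := by
  intro η hη
  obtain ⟨δ, hδ, N₀, H⟩ := h η hη
  refine ⟨δ, hδ, N₀, fun R _ _ _ U hN hU hc hS s ⟨x, hx⟩ => ?_⟩
  classical
  have : Finite (R ⧸ bgk_ideal s) := Finite.of_surjective _ Ideal.Quotient.mk_surjective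
  let _ : Fintype (R ⧸ bgk_ideal s) := Fintype.ofFinite _
  have hcard : Fintype.card (R ⧸ bgk_ideal s) ≤ Fintype.card R :=
    Fintype.card_le_of_surjective _ Ideal.Quotient.mk_surjective
  have hF : Faith R (bgk_lift s) := by
    intro t ht
    obtain ⟨a, rfl⟩ := Ideal.Quotient.mk_surjective t
    by_contra hcon
    refine ht (Ideal.Quotient.eq_zero_iff_mem.2 fun y => ?_)
    by_contra hy
    exact hcon ⟨y, by rwa [bgk_lift_smul]⟩
  have h1 : Ideal.Quotient.mk (bgk_ideal s) 1 ≠ 0 := fun e =>
    hx (by simpa using Ideal.Quotient.eq_zero_iff_mem.1 e x)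
  have h2 := H R (R ⧸ bgk_ideal s) (bgk_lift s) U hN hcard hU hF hc hS _ h1
  simpa only [phi, bgk_lift_smul, mul_one] using h2

end Pool.Agent.Work.MP_11a08a_al.Fr
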