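import Pool.Agent.Work.MP_11a08a_al.Fr.Ex

/-!
The exponential sum bound from its one scale form, by pigeonholing over the scales.
-/

set_option autoImplicit false

open Finset Filter
open scoped Pointwise

namespace Pool.Agent.Work.MP_11a08a_al.Fr

/-- The scales. -/
noncomputable def bgk1_a (μ : ℝ) : ℕ → ℝ
  | 0 => μ⁻¹
  | j + 1 => bgk1_a μ j ^ 2 / 2

theorem bgk1_a_pos {μ : ℝ} (hμ : 2 ≤ μ) (j : ℕ) : 0 < bgk1_a μ j := by
  induction j with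
  | zero => simp only [bgk1_a]; positivity
  | succ j ih => simp only [bgk1_a]; positivity

theorem bgk1_a_le {μ : ℝ} (hμ : 2 ≤ μ) (j : ℕ) : bgk1_a μ j ≤ μ⁻¹ := by
  have h1 : μ⁻¹ ≤ 1 := inv_le_one_of_one_le₀ (by linarith)
  induction j with
  | zero => simp only [bgk1_a]; exact le_rfl
  | succ j ih =>
    simp only [bgk1_a]
    have hp := bgk1_a_pos hμ j
    nlinarith

theorem bgk1_a_ge {μ : ℝ} (hμ : 2 ≤ μ) (j : ℕ) : μ ≤ μ ^ 2 ^ (j + 1) * bgk1_a μ j := by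
  induction j with
  | zero =>
    simp only [bgk1_a]
    have : μ ≠ 0 := by positivity
    field_simp
    norm_num
  | succ j ih =>
    simp only [bgk1_a]
    have e : μ ^ 2 ^ (j + 1 + 1) * (bgk1_a μ j ^ 2 / 2) = (μ ^ 2 ^ (j + 1) * bgk1_a μ j) ^ 2 / 2 := by
      rw [pow_succ 2 (j + 1), pow_mul]; ring
    rw [e]
    nlinarith

theorem bgk1_mem {R M : Type} [CommRing R] [AddCommGroup M] [Module R M] [Fintype M]
    (θ : AddChar M ℂ) (U : Finset R) {α β : ℝ} (hab : α ≤ β)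
    {t : M} (ht : β * #U ≤ ‖phi θ U t‖) : t ∈ spec θ U α := by
  unfold spec
  simp only [mem_filter, mem_univ, true_and]
  exact le_trans (mul_le_mul_of_nonneg_right hab (Nat.cast_nonneg _)) ht

/-- Some scale has slow growth. -/
theorem bgk1_pigeon (f : ℕ → ℝ) (lam : ℝ) (J : ℕ) (hJ : 1 ≤ J) (hl : 0 < lam) (h0 : 1 ≤ f 0)
    (hJ' : f J ≤ lam ^ J) : ∃ j < J, f (j + 1) ≤ lam * f j := by
  by_contra hcon
  push Not at hcon
  have key : ∀ j, j + 1 ≤ J → lam ^ (j + 1) < f (j + 1) := by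
    intro j
    induction j with
    | zero =>
      intro hj
      have h1 := hcon 0 (by omega)
      have h2 := mul_le_mul_of_nonneg_left h0 hl.le
      have h3 : lam ^ (0 + 1) = lam := by ring
      linarith
    | succ j ih =>
      intro hj
      have h1 := ih (by omega)
      have h2 := hcon (j + 1) (by omega)
      have h3 : lam ^ (j + 1 + 1) = lam * lam ^ (j + 1) := by ring
      have h4 := mul_lt_mul_of_pos_left h1 hl
      linarith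
  obtain ⟨j, rfl⟩ : ∃ j, J = j + 1 := ⟨J - 1, by omega⟩
  exact absurd (key j le_rfl) (not_lt.mpr hJ')

theorem bgk1 (h : StmtBGK0) : StmtBGK1 := by
  intro η hη
  obtain ⟨n, hn⟩ := exists_nat_ge (1 / η)
  have hn1 : 1 ≤ η * n := by
    rw [div_le_iff₀ hη] at hn; linarith
  have hn0 : n ≠ 0 := by
    rintro rfl
    norm_num at hn1
  obtain ⟨c, hc⟩ := h (2 * n)
  obtain ⟨J, hJ⟩ : ∃ J, J = (c + 3) * (2 * n) := ⟨_, rfl⟩
  have hJ1 : 1 ≤ J := by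
    rw [hJ]; exact Nat.one_le_iff_ne_zero.mpr (Nat.mul_ne_zero (by omega) (by omega))
  obtain ⟨N, hN⟩ : ∃ N, N = 2 ^ (J + 1) * J := ⟨_, rfl⟩
  have hN0 : N ≠ 0 := by
    rw [hN]; exact Nat.mul_ne_zero (by positivity) (by omega)
  have hNpos : (0 : ℝ) < N := by exact_mod_cast Nat.pos_of_ne_zero hN0
  refine ⟨(N : ℝ)⁻¹, by positivity, (2 ^ 13) ^ N, ?_⟩
  intro R M _ _ _ _ _ _ _ θ U hr hM hU hF hcard hsp t ht
  obtain ⟨r, hrr⟩ : ∃ r, r = Fintype.card R := ⟨_, rfl⟩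
  rw [← hrr] at hr hM hcard hsp ⊢
  have hr5 : 5 ≤ r := le_trans (le_trans (by norm_num) (Nat.le_self_pow hN0 (2 ^ 13))) hr
  have hr1 : (1 : ℝ) ≤ r := by exact_mod_cast (by omega : 1 ≤ r)
  have hr0 : (0 : ℝ) ≤ r := by linarith
  obtain ⟨μ, hμ⟩ : ∃ μ : ℝ, μ = (r : ℝ) ^ (N : ℝ)⁻¹ := ⟨_, rfl⟩
  have hμ0 : 0 ≤ μ := by rw [hμ]; exact Real.rpow_nonneg hr0 _
  have hμN : μ ^ N = r := by rw [hμ]; exact Real.rpow_inv_natCast_pow hr0 hN0
  have hμ13 : (2 : ℝ) ^ 13 ≤ μ := by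
    refine le_of_pow_le_pow_left₀ hN0 hμ0 ?_
    rw [hμN]; exact_mod_cast hr
  have hμ2 : 2 ≤ μ := le_trans (by norm_num) hμ13
  have hμ1 : 1 ≤ μ := by linarith
  rw [Real.rpow_neg hr0, ← hμ]
  by_contra hcon
  have hbig : μ⁻¹ * #U ≤ ‖phi θ U t‖ := (not_le.mp hcon).le
  obtain ⟨lam, hlam⟩ : ∃ lam : ℝ, lam = μ ^ 2 ^ (J + 1) := ⟨_, rfl⟩
  have hlamJ : lam ^ J = r := by rw [hlam, ← pow_mul, ← hN, hμN]
  have hlam13 : (2 : ℝ) ^ 13 ≤ lam := by
    rw [hlam]; exact le_trans hμ13 (le_self_pow₀ hμ1 (by positivity))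
  have hlam2 : 2 ≤ lam := le_trans (by norm_num) hlam13
  have hlam1 : 1 < lam := by linarith
  have hlam0 : 0 < lam := by linarith
  have hmem : ∀ j, t ∈ spec θ U (bgk1_a μ j) := fun j => bgk1_mem θ U (bgk1_a_le hμ2 j) hbig
  obtain ⟨j, hj, hgrow⟩ := bgk1_pigeon (fun j => (#(spec θ U (bgk1_a μ j)) : ℝ)) lam J hJ1 hlam0
    (by exact_mod_cast card_pos.mpr ⟨t, hmem 0⟩)
    (by rw [hlamJ]; exact_mod_cast (card_le_univ _).trans hM)
  have hUn : (r : ℝ) ≤ ((r : ℝ) ^ η) ^ n := by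
    calc (r : ℝ) = (r : ℝ) ^ (1 : ℝ) := (Real.rpow_one _).symm
      _ ≤ (r : ℝ) ^ (η * n) := Real.rpow_le_rpow_of_exponent_le hr1 hn1
      _ = ((r : ℝ) ^ η) ^ n := Real.rpow_mul_natCast hr0 η n
  have hE : lam ^ (2 * c + 6) ≤ (r : ℝ) ^ η := by
    refine le_of_pow_le_pow_left₀ hn0 (Real.rpow_nonneg hr0 _) ?_
    have e : (2 * c + 6) * n = J := by rw [hJ]; ring
    rw [← pow_mul, e, hlamJ]; exact hUn
  have hU4 : lam ^ (2 * c + 6) ≤ #U := hE.trans hcard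
  have hα : 1 / lam ≤ bgk1_a μ j ^ 2 / 2 := by
    have h1 := bgk1_a_ge hμ2 (j + 1)
    have h2 : μ ^ 2 ^ (j + 1 + 1) ≤ lam := by
      rw [hlam]
      exact pow_le_pow_right₀ hμ1 (Nat.pow_le_pow_right (by norm_num) (by omega))
    have h3 := bgk1_a_pos hμ2 (j + 1)
    have h4 := mul_le_mul_of_nonneg_right h2 h3.le
    rw [div_le_iff₀ hlam0]
    simp only [bgk1_a] at h1 h4
    linarith
  have hT : (Fintype.card R : ℝ) ≤ (lam ^ (c + 3)) ^ (2 * n) := by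
    rw [← pow_mul, ← hJ, hlamJ, hrr]
  have hS : 2 * lam ^ (c + 3) * lam ^ 2 ≤ #U := by
    calc 2 * lam ^ (c + 3) * lam ^ 2 ≤ lam * lam ^ (c + 3) * lam ^ 2 := by gcongr
      _ = lam ^ (c + 6) := by ring
      _ ≤ lam ^ (2 * c + 6) := pow_le_pow_right₀ hlam1.le (by omega)
      _ ≤ #U := hU4
  have hsp' : Spread U (1 / lam ^ 2) := by
    intro Q hQ
    refine (hsp Q hQ).trans (mul_le_mul_of_nonneg_right ?_ (Nat.cast_nonneg _))
    rw [Real.rpow_neg hr0, one_div]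
    exact inv_anti₀ (by positivity) ((pow_le_pow_right₀ hlam1.le (by omega)).trans hE)
  have hfin := hc R M θ U lam (bgk1_a μ j) (lam ^ (c + 3)) hU hF hlam13 (bgk1_a_pos hμ2 j) hα
    ⟨t, hmem j, ht⟩ hgrow (one_le_pow₀ hlam1.le) hT hS hsp'
  rw [← pow_add] at hfin
  have hlt : lam ^ (c + 3 + c) < lam ^ (2 * c + 6) := pow_lt_pow_right₀ hlam1 (by omega)
  linarith

end Pool.Agent.Work.MP_11a08a_al.Fr
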