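import Pool.Agent.Work.MP_11a08a_al.Fr.Ex

/-!
A dense part of an invariant set has a small sum set with many of its dilates.
-/

set_option autoImplicit false

open Finset
open scoped Pointwise

namespace Pool.Agent.Work.MP_11a08a_al.Fr

section

variable {R M : Type} [CommRing R] [DecidableEq R] [AddCommGroup M] [Module R M] [DecidableEq M]

omit [DecidableEq R] [DecidableEq M] in
lemma inv_inj {u u' : R} (hu : u * u' = 1) : Function.Injective fun a : M => u • a :=
  fun a b h => by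
    have h1 : u' • u • a = u' • u • b := congrArg (fun x => u' • x) h
    rwa [smul_smul, smul_smul, mul_comm, hu, one_smul, one_smul] at h1

omit [DecidableEq R] in
lemma inv_card_smul {u u' : R} (hu : u * u' = 1) (S : Finset M) : #(u • S) = #S :=
  Finset.card_image_of_injective _ (inv_inj hu)

omit [DecidableEq R] in
lemma inv_inter {u u' : R} (hu : u * u' = 1) (v : R) (S : Finset M) :
    #(u • S ∩ v • S) = #(S ∩ (u' * v) • S) := by
  rw [← inv_card_smul hu (S ∩ (u' * v) • S)]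
  have h1 : u • (S ∩ (u' * v) • S) = u • S ∩ u • ((u' * v) • S) :=
    Finset.image_inter _ _ (inv_inj hu)
  rw [h1, smul_smul, ← mul_assoc, hu, one_mul]

omit [DecidableEq R] in
lemma inv_reindex {U : Finset R} (hU : Frob U) {u u' : R} (hu : u ∈ U) (hu' : u' ∈ U)
    (e : u * u' = 1) (g : R → ℝ) : ∑ v ∈ U, g (u' * v) = ∑ w ∈ U, g w := by
  refine Finset.sum_nbij' (fun v => u' * v) (fun w => u * w) ?_ ?_ ?_ ?_ ?_
  · intro v hv
    exact hU.mul _ hu' _ hv
  · intro w hw
    exact hU.mul _ hu _ hw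
  · intro v _
    show u * (u' * v) = v
    rw [← mul_assoc, e, one_mul]
  · intro w _
    show u' * (u * w) = w
    rw [← mul_assoc, mul_comm u', e, one_mul]
  · intro v _
    rfl

omit [DecidableEq R] in
lemma inv_cs {U : Finset R} {A A' : Finset M} (hU : Frob U) (hA : ∀ u ∈ U, ∀ a ∈ A, u • a ∈ A)
    (hsub : A' ⊆ A) :
    ((#U : ℝ) * #A') ^ 2 ≤ #A * (#U * ∑ w ∈ U, (#(A' ∩ w • A') : ℝ)) := by
  have hin : ∀ u ∈ U, u • A' ⊆ A := by
    intro u hu x hx
    obtain ⟨y, hy, rfl⟩ := Finset.mem_smul_finset.1 hx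
    exact hA u hu y (hsub hy)
  set f : M → ℝ := fun x => ∑ u ∈ U, if x ∈ u • A' then (1 : ℝ) else 0 with hf
  have h1 : ∑ x ∈ A, f x = (#U : ℝ) * #A' := by
    rw [hf, Finset.sum_comm]
    have : ∀ u ∈ U, ∑ x ∈ A, (if x ∈ u • A' then (1 : ℝ) else 0) = #A' := by
      intro u hu
      obtain ⟨u', -, e⟩ := hU.inv u hu
      rw [Finset.sum_boole, Finset.filter_mem_eq_inter, Finset.inter_eq_right.2 (hin u hu),
        inv_card_smul e]
    rw [Finset.sum_congr rfl this, Finset.sum_const, nsmul_eq_mul]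
  have h2 : ∑ x ∈ A, f x ^ 2 = #U * ∑ w ∈ U, (#(A' ∩ w • A') : ℝ) := by
    have e1 : ∀ x ∈ A, f x ^ 2 =
        ∑ u ∈ U, ∑ v ∈ U, if x ∈ u • A' ∩ v • A' then (1 : ℝ) else 0 := by
      intro x _
      rw [sq, hf, Finset.sum_mul_sum]
      refine Finset.sum_congr rfl fun u _ => Finset.sum_congr rfl fun v _ => ?_
      by_cases h1 : x ∈ u • A' <;> by_cases h2 : x ∈ v • A' <;> simp [h1, h2]
    rw [Finset.sum_congr rfl e1, Finset.sum_comm]
    have e2 : ∀ u ∈ U, ∑ x ∈ A, ∑ v ∈ U, (if x ∈ u • A' ∩ v • A' then (1 : ℝ) else 0) =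
        ∑ w ∈ U, (#(A' ∩ w • A') : ℝ) := by
      intro u hu
      obtain ⟨u', hu', e⟩ := hU.inv u hu
      rw [Finset.sum_comm, ← inv_reindex hU hu hu' e (fun w => (#(A' ∩ w • A') : ℝ))]
      refine Finset.sum_congr rfl fun v _ => ?_
      rw [Finset.sum_boole, Finset.filter_mem_eq_inter,
        Finset.inter_eq_right.2 (Finset.inter_subset_left.trans (hin u hu)),
        inv_inter e v]
    rw [Finset.sum_congr rfl e2, Finset.sum_const, nsmul_eq_mul]
  rw [← h1, ← h2]
  exact sq_sum_le_card_mul_sum_sq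

lemma inv_double {A' : Finset M} (hne : A'.Nonempty) {D : ℝ}
    (hD : (#(A' - A') : ℝ) ≤ D * #A') : (#(A' + A') : ℝ) ≤ D ^ 2 * #A' := by
  have h := Finset.pluennecke_ruzsa_inequality_nsmul_sub hne A' 2
  rw [two_nsmul] at h
  have hpos : (0 : ℝ) < #A' := by exact_mod_cast hne.card_pos
  have h' : (#(A' + A') : ℝ) ≤ ((#(A' - A') : ℝ) / #A') ^ 2 * #A' := by
    have := (NNRat.cast_le (K := ℝ)).2 h
    push_cast at this
    exact this
  refine h'.trans ?_
  have : (#(A' - A') : ℝ) / #A' ≤ D := by rwa [div_le_iff₀ hpos]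
  gcongr

omit [DecidableEq R] in
lemma inv_tri {u u' : R} (hu : u * u' = 1) (S : Finset M) :
    #(S + u • S) * #(S ∩ u • S) ≤ #(S + S) * #(S + S) := by
  refine (Finset.ruzsa_triangle_inequality_add_add_add S (S ∩ u • S) (u • S)).trans ?_
  refine Nat.mul_le_mul (Finset.card_le_card ?_) ?_
  · exact Finset.add_subset_add_left Finset.inter_subset_left
  · rw [← inv_card_smul hu (S + S), smul_add]
    exact Finset.card_le_card (Finset.add_subset_add_right Finset.inter_subset_right)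

end

theorem inv_facts : StmtInv := by
  intro R M _ _ _ _ _ U A A' ρ D hU hA hsub hne hρ hρA hD hdiff
  have hpos : (0 : ℝ) < #A' := by exact_mod_cast hne.card_pos
  have hUpos : (0 : ℝ) < #U := by exact_mod_cast Finset.card_pos.2 ⟨1, hU.one⟩
  set S : ℝ := ∑ w ∈ U, (#(A' ∩ w • A') : ℝ) with hS
  have hS0 : 0 ≤ S := Finset.sum_nonneg fun _ _ => Nat.cast_nonneg _
  have hcs := inv_cs hU hA hsub
  rw [← hS] at hcs
  have hlow : ρ * #U * #A' ≤ S := by
    have h1 : ρ * ((#U : ℝ) * #A') ^ 2 ≤ #A' * (#U * S) := by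
      calc ρ * ((#U : ℝ) * #A') ^ 2 ≤ ρ * (#A * (#U * S)) := by gcongr
        _ = (ρ * #A) * (#U * S) := by ring
        _ ≤ #A' * (#U * S) := by gcongr
    have h2 : ((#U : ℝ) * #A') * (ρ * #U * #A') ≤ ((#U : ℝ) * #A') * S := by
      calc ((#U : ℝ) * #A') * (ρ * #U * #A') = ρ * ((#U : ℝ) * #A') ^ 2 := by ring
        _ ≤ #A' * (#U * S) := h1
        _ = ((#U : ℝ) * #A') * S := by ring
    exact le_of_mul_le_mul_left h2 (mul_pos hUpos hpos)
  refine ⟨U.filter fun u => ρ * #A' / 2 ≤ (#(A' ∩ u • A') : ℝ), Finset.filter_subset _ _, ?_, ?_⟩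
  · set B := U.filter fun u => ρ * #A' / 2 ≤ (#(A' ∩ u • A') : ℝ) with hB
    have hup : S ≤ #B * #A' + #U * (ρ * #A' / 2) := by
      have : ∀ w ∈ U, (#(A' ∩ w • A') : ℝ) ≤
          (if ρ * #A' / 2 ≤ (#(A' ∩ w • A') : ℝ) then (1 : ℝ) else 0) * #A' + ρ * #A' / 2 := by
        intro w _
        have hle : (#(A' ∩ w • A') : ℝ) ≤ #A' := by
          exact_mod_cast Finset.card_le_card Finset.inter_subset_left
        have h0 : 0 ≤ ρ * #A' / 2 := by positivity
        split_ifs with h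
        · linarith
        · have := not_le.1 h
          linarith
      refine (Finset.sum_le_sum this).trans (le_of_eq ?_)
      rw [Finset.sum_add_distrib, ← Finset.sum_mul, Finset.sum_boole, Finset.sum_const,
        nsmul_eq_mul]
    have h3 : (ρ / 2 * #U) * #A' ≤ #B * #A' := by nlinarith
    exact le_of_mul_le_mul_right h3 hpos
  · intro u hu
    obtain ⟨huU, hbig⟩ := Finset.mem_filter.1 hu
    obtain ⟨u', -, e⟩ := hU.inv u huU
    have ht : (#(A' + u • A') : ℝ) * #(A' ∩ u • A') ≤ #(A' + A') * #(A' + A') := by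
      exact_mod_cast inv_tri e A'
    have hd := inv_double hne hdiff
    have h4 : (#(A' + u • A') : ℝ) * (ρ * #A' / 2) ≤ (D ^ 2 * #A') * (D ^ 2 * #A') := by
      calc (#(A' + u • A') : ℝ) * (ρ * #A' / 2) ≤ #(A' + u • A') * #(A' ∩ u • A') := by gcongr
        _ ≤ #(A' + A') * #(A' + A') := ht
        _ ≤ (D ^ 2 * #A') * (D ^ 2 * #A') := by gcongr
    have h5 : (#(A' + u • A') : ℝ) * (ρ * #A' / 2) ≤ (2 * D ^ 4 / ρ * #A') * (ρ * #A' / 2) := by
      refine h4.trans (le_of_eq ?_)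
      field_simp
    exact le_of_mul_le_mul_right h5 (by positivity)

end Pool.Agent.Work.MP_11a08a_al.Fr
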