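import Pool.Agent.Work.MP_11a08a_al.Fr.Ex
import Pool.Agent.Work.MP_11a08a_al.Cp.Ultra

/-!
The core, module form.
-/

set_option autoImplicit false

open Finset Filter

namespace Pool.Agent.Work.MP_11a08a_al.Fr

theorem nt0_dec {R : Type} [CommRing R] {U : Finset R} {τ ε : ℝ} (h : Dec U τ) (hτ : τ ≤ ε) :
    Dec U ε := fun s hs => (h s hs).trans (mul_le_mul_of_nonneg_right hτ (Nat.cast_nonneg _))

theorem nt0 (h2 : StmtCnt2) (h1 : StmtCnt1) (hB : StmtBase) (hS : StmtStep) (hN : StmtNum)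
    (hM : Cp.StmtMost) : StmtNT0 := by
  classical
  intro δ hδ q
  obtain ⟨k, hk⟩ := exists_nat_ge (1 / δ)
  have hk0 : 1 ≤ k := by
    have : (0 : ℝ) < k := lt_of_lt_of_le (by positivity) hk
    exact_mod_cast this
  by_contra hc
  push Not at hc
  choose R M K iR fR dR iM mM fM iK χ U hr hU hχ hη hdec a β hz hc using
    fun n : ℕ => hc (1 / ((n : ℝ) + 1)) (by positivity) n
  choose z hz using hz
  let 𝒰 : Ultrafilter ℕ := Ultrafilter.of atTop
  have hle : (𝒰 : Filter ℕ) ≤ atTop := Ultrafilter.of_le _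
  have hr' : Tendsto (fun n => Fintype.card (R n)) 𝒰 atTop :=
    (tendsto_atTop_mono hr tendsto_id).mono_left hle
  obtain ⟨L, _, π, hs, h0⟩ := Cp.ult_exists 𝒰 K
  have hr1 : ∀ n, (1 : ℝ) ≤ Fintype.card (R n) := fun n => by
    exact_mod_cast Fintype.card_pos (α := R n)
  have hr0 : ∀ n, (0 : ℝ) < Fintype.card (R n) := fun n => one_pos.trans_le (hr1 n)
  have hθ : ∀ n, (Fintype.card (R n) : ℝ) * ((Fintype.card (R n) : ℝ) ^ (-δ)) ^ k ≤ 1 := by
    intro n
    rw [← Real.rpow_natCast, ← Real.rpow_mul (hr0 n).le, mul_comm,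
      ← Real.rpow_add_one (hr0 n).ne']
    refine Real.rpow_le_one_of_one_le_of_nonpos (hr1 n) ?_
    rw [div_le_iff₀ hδ] at hk
    linarith
  have k2 := fun n => h2 (R n) (U n) k _ (by positivity) (hθ n) (hdec n)
  have k1 := fun n => h1 (R n) (M n) (U n) k _ (hU n) (by positivity) (hθ n) (hdec n)
  have hn : ∀ n, (0 : ℝ) < #(U n) := fun n => by exact_mod_cast card_pos.2 ⟨1, (hU n).one⟩
  have t0 : Tendsto (fun n => (Fintype.card (R n) : ℝ)) 𝒰 atTop :=
    tendsto_natCast_atTop_atTop.comp hr'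
  have tU : Tendsto (fun n => (#(U n) : ℝ)) 𝒰 atTop :=
    tendsto_atTop_mono hη ((tendsto_rpow_atTop hδ).comp t0)
  have tτ : Tendsto (fun n => (Fintype.card (R n) : ℝ) ^ (-δ)) 𝒰 (nhds 0) :=
    (tendsto_rpow_neg_atTop hδ).comp t0
  have H : Dat 𝒰 χ U π k := by
    refine ⟨hle, hχ, hU, hs, h0, hk0, fun n => ?_, fun n => (k2 n).2, fun ε hε => ?_,
      tendsto_natCast_atTop_iff.1 tU, fun ε hε => ?_⟩
    · rw [← card_pos]
      have h3 : (0 : ℝ) < Fintype.card (R n) * #(sol (U n) k) :=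
        lt_of_lt_of_le (pow_pos (hn n) _) (k2 n).1
      exact_mod_cast (mul_pos_iff_of_pos_left (hr0 n)).1 h3
    · have t1 : Tendsto (fun n => 1 / (#(U n) : ℝ) + 2 * k * (Fintype.card (R n) : ℝ) ^ (-δ) +
          1 / (Fintype.card (R n) : ℝ)) 𝒰 (nhds (0 + 2 * k * 0 + 0)) :=
        ((tendsto_const_nhds.div_atTop tU).add (tτ.const_mul _)).add
          (tendsto_const_nhds.div_atTop t0)
      rw [mul_zero, add_zero, add_zero] at t1
      filter_upwards [t1.eventually_le_const hε] with n hn' c i₀ c0 c1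
      have h3 := (k1 n c i₀ c0 c1).trans (mul_le_mul_of_nonneg_left (k2 n).1 (by positivity))
      refine le_trans ?_ (mul_le_mul_of_nonneg_right hn' (Nat.cast_nonneg _))
      refine le_of_mul_le_mul_right (h3.trans_eq ?_) (pow_pos (hr0 n) 2)
      have := (hr0 n).ne'
      have := (hn n).ne'
      field_simp
    · filter_upwards [tτ.eventually_le_const hε] with n hn' using nt0_dec (hdec n) hn'
  obtain ⟨K₀, hK₀, σ, hσ0, hσ1, hbase⟩ := hB 𝒰 R M K χ U L π k H q (fun l n => a n l)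
    (fun l n => β n l) z hz fun ε hε => by
      filter_upwards [(tendsto_one_div_add_atTop_nhds_zero_nat.mono_left hle).eventually_le_const
        hε] with n hn'
      exact (hc n).le.trans (mul_le_mul_of_nonneg_right hn' (Nat.cast_nonneg _))
  obtain ⟨s, D, hD, hD1⟩ := hN q k σ hk0 hσ0 hσ1
  have hσ : (0 : ℝ) < 1 - σ := by linarith
  have hall : ∀ j : ℕ, Claim 𝒰 χ U π K₀ (q * s * (2 * k - 1) ^ j) ((2 * k) ^ j)
      ((2 * k + 1) ^ j * (3 * (1 - σ) ^ s)) := by
    intro j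
    induction j with
    | zero =>
      simp only [pow_zero, mul_one, one_mul]
      exact hbase s
    | succ j ih =>
      have := hS 𝒰 R M K χ U L π k H K₀ hK₀ _ _ _ (by positivity) ih
      convert this using 1 <;> ring
  obtain ⟨I, _, v, -, hI, hm⟩ := hall D
  obtain ⟨u, -, hu⟩ := (hM 𝒰 _ U hle).2.2.2.2.1 _ _ (fun n => ⟨1, (hU n).one⟩) hD1 hm
  have h3 : (((2 * k) ^ D : ℕ) : ℕ∞) ≤ Fintype.card I := le_add_self.trans hu
  have h4 : (2 * k) ^ D ≤ Fintype.card I := by exact_mod_cast h3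
  omega

end Pool.Agent.Work.MP_11a08a_al.Fr
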