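import Pool.Agent.Work.MP_11a08a_al.Fr.Ex

/-!
Integer bases modulo torsion.
-/

set_option autoImplicit false

open Finset Filter

namespace Pool.Agent.Work.MP_11a08a_al.Fr

/-- Sequences killed by one positive integer almost everywhere. -/
def basis_tor (𝒰 : Ultrafilter ℕ) (M : ℕ → Type) [∀ n, AddCommGroup (M n)] :
    Submodule ℤ (∀ n, M n) where
  carrier := {x | ∃ m : ℕ, 0 < m ∧ ∀ᶠ n in (𝒰 : Filter ℕ), m • x n = 0}
  add_mem' := by
    rintro x y ⟨m, hm, hx⟩ ⟨m', hm', hy⟩
    refine ⟨m * m', Nat.mul_pos hm hm', ?_⟩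
    filter_upwards [hx, hy] with n h1 h2
    rw [Pi.add_apply, smul_add, mul_smul m m' (y n), h2, mul_comm, mul_smul, h1]
    simp
  zero_mem' := ⟨1, one_pos, Eventually.of_forall fun n => by simp⟩
  smul_mem' := by
    rintro c x ⟨m, hm, hx⟩
    refine ⟨m, hm, ?_⟩
    filter_upwards [hx] with n h1
    rw [Pi.smul_apply, smul_comm, h1, smul_zero]

theorem basis_free (𝒰 : Ultrafilter ℕ) (M : ℕ → Type) [∀ n, AddCommGroup (M n)] :
    Module.IsTorsionFree ℤ ((∀ n, M n) ⧸ basis_tor 𝒰 M) := by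
  refine Module.IsTorsionFree.of_smul_eq_zero fun r x h => ?_
  by_cases hr : r = 0
  · exact Or.inl hr
  right
  obtain ⟨x, rfl⟩ := Submodule.Quotient.mk_surjective _ x
  rw [← Submodule.Quotient.mk_smul, Submodule.Quotient.mk_eq_zero] at h
  rw [Submodule.Quotient.mk_eq_zero]
  obtain ⟨m, hm, hx⟩ := h
  refine ⟨m * r.natAbs, Nat.mul_pos hm (Int.natAbs_pos.2 hr), ?_⟩
  filter_upwards [hx] with n h1
  rw [Pi.smul_apply] at h1
  rw [mul_smul]
  rcases Int.natAbs_eq r with e | e
  · rw [e, natCast_zsmul] at h1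
    exact h1
  · rw [e, neg_smul, natCast_zsmul, smul_neg, neg_eq_zero] at h1
    exact h1

theorem basis : StmtBasis := by
  intro 𝒰 M _ q a
  have := basis_free 𝒰 M
  let π := (basis_tor 𝒰 M).mkQ
  let W : Submodule ℤ ((∀ n, M n) ⧸ basis_tor 𝒰 M) :=
    Submodule.span ℤ (Set.range fun l => π (a l))
  have hf : Module.Finite ℤ W := Module.Finite.span_of_finite ℤ (Set.finite_range _)
  let B := Module.finBasis ℤ W
  have hg : Module.finrank ℤ W ≤ q := by
    have := finrank_range_le_card (R := ℤ) fun l => π (a l)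
    simpa [Set.finrank] using this
  choose b hb using fun j => (basis_tor 𝒰 M).mkQ_surjective (B j : W)
  have key : ∀ l : Fin (Module.finrank ℤ W) → ℤ,
      π (∑ j, l j • b j) = ((∑ j, l j • B j : W) : (∀ n, M n) ⧸ basis_tor 𝒰 M) := by
    intro l
    rw [map_sum, Submodule.coe_sum]
    exact sum_congr rfl fun j _ => by rw [map_zsmul, hb, Submodule.coe_smul]
  let d : Fin q → Fin (Module.finrank ℤ W) → ℤ :=
    fun l j => B.repr ⟨π (a l), Submodule.subset_span ⟨l, rfl⟩⟩ j
  have ht : ∀ l, a l - ∑ j, d l j • b j ∈ basis_tor 𝒰 M := by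
    intro l
    have h1 := key (d l)
    rw [B.sum_repr] at h1
    rw [← Submodule.Quotient.mk_eq_zero]
    exact (map_sub π _ _).trans (sub_eq_zero.2 h1.symm)
  choose m hm hm' using ht
  refine ⟨_, b, d, ∏ l, m l, fun l => a l - ∑ j, d l j • b j, hg, prod_pos fun l _ => hm l,
    fun l hl => ?_, fun l => ?_⟩
  · refine Ultrafilter.eventually_not.2 fun h => hl ?_
    have h0 : π (∑ j, l j • b j) = 0 := by
      refine (Submodule.Quotient.mk_eq_zero _).2 ⟨1, one_pos, ?_⟩
      filter_upwards [h] with n hn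
      rw [one_smul, Finset.sum_apply]
      exact hn
    rw [key, Submodule.coe_eq_zero] at h0
    exact funext (Fintype.linearIndependent_iff.1 B.linearIndependent l h0)
  · filter_upwards [hm' l] with n hn
    refine ⟨?_, ?_⟩
    · simp [Finset.sum_apply]
    · rw [← Finset.prod_erase_mul _ _ (mem_univ l), mul_smul, hn, smul_zero]

end Pool.Agent.Work.MP_11a08a_al.Fr
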