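import Pool.Agent.Work.MP_11a08a_al.Fr.Ex

set_option autoImplicit false

open Finset

namespace Pool.Agent.Work.MP_11a08a_al.Fr

variable {R : Type} [CommRing R] [DecidableEq R]

/-- Tuples from `U` with sum `z`. -/
def cnt2_fib (U : Finset R) (k : ℕ) (z : R) : Finset (Fin k → R) :=
  (Fintype.piFinset fun _ => U).filter fun v => ∑ i, v i = z

theorem cnt2_card (U : Finset R) (k : ℕ) (Z : Finset R) :
    #((sol U k).filter fun w => half w ∈ Z) = ∑ z ∈ Z, #(cnt2_fib U k z) ^ 2 := by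
  rw [card_eq_sum_card_fiberwise (s := (sol U k).filter fun w => half w ∈ Z) (f := half) (t := Z)
    (fun w hw => (mem_filter.1 (mem_coe.1 hw)).2)]
  refine sum_congr rfl fun z hz => ?_
  rw [sq, ← card_product]
  refine card_nbij' (fun w => (fun i => w (Sum.inl i), fun i => w (Sum.inr i)))
    (fun p => Sum.elim p.1 p.2) ?_ ?_ ?_ ?_
  · intro w hw
    simp only [sol, half, coe_filter, mem_filter, Fintype.mem_piFinset, Set.mem_ofPred_eq] at hw
    obtain ⟨⟨⟨h1, h2⟩, -⟩, h3⟩ := hw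
    simp only [cnt2_fib, coe_product, Set.mem_prod, mem_coe, mem_filter, Fintype.mem_piFinset]
    exact ⟨⟨fun i => h1 _, h3⟩, fun i => h1 _, h2 ▸ h3⟩
  · intro p hp
    simp only [cnt2_fib, coe_product, Set.mem_prod, mem_coe, mem_filter,
      Fintype.mem_piFinset] at hp
    obtain ⟨⟨h1, h2⟩, h3, h4⟩ := hp
    simp only [sol, half, coe_filter, mem_filter, Fintype.mem_piFinset, Set.mem_ofPred_eq,
      Sum.elim_inl, Sum.elim_inr]
    refine ⟨⟨⟨fun i => ?_, h2.trans h4.symm⟩, h2 ▸ hz⟩, h2⟩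
    rcases i with i | i
    · exact h1 i
    · exact h3 i
  · intro w _
    funext i
    rcases i with i | i <;> rfl
  · intro p _
    rfl

variable [Fintype R]

theorem cnt2_sum (U : Finset R) (k : ℕ) : ∑ z, #(cnt2_fib U k z) = #U ^ k := by
  have := card_eq_sum_card_fiberwise (s := Fintype.piFinset fun _ : Fin k => U)
    (f := fun v : Fin k → R => ∑ i, v i) (t := univ) (fun _ _ => mem_univ _)
  rw [Fintype.card_piFinset_const] at this
  exact this.symm

theorem cnt2_fourier (U : Finset R) (k : ℕ) (z : R) :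
    (Fintype.card R : ℂ) * #(cnt2_fib U k z) =
      ∑ s : AddChar R ℂ, (∑ u ∈ U, s u) ^ k * s (-z) := by
  have h1 : ∀ s : AddChar R ℂ, (∑ u ∈ U, s u) ^ k * s (-z) =
      ∑ v ∈ Fintype.piFinset fun _ : Fin k => U, s (∑ i, v i - z) := by
    intro s
    have h2 : (∑ u ∈ U, s u) ^ k = ∏ _i : Fin k, ∑ u ∈ U, s u := by
      rw [prod_const, card_univ, Fintype.card_fin]
    rw [h2, prod_univ_sum, sum_mul]
    refine sum_congr rfl fun v _ => ?_
    rw [sub_eq_add_neg, AddChar.map_add_eq_mul]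
    congr 1
    exact (map_prod s.toMonoidHom (fun i => Multiplicative.ofAdd (v i)) univ).symm
  simp only [h1]
  rw [sum_comm]
  simp only [AddChar.sum_apply_eq_ite, sub_eq_zero]
  rw [cnt2_fib, card_filter]
  push_cast
  rw [mul_sum]
  refine sum_congr rfl fun v _ => ?_
  split_ifs <;> simp

theorem cnt2_le (U : Finset R) (k : ℕ) (τ : ℝ) (h0 : 0 ≤ τ)
    (h1 : (Fintype.card R : ℝ) * τ ^ k ≤ 1) (h2 : Dec U τ) (z : R) :
    (Fintype.card R : ℝ) * #(cnt2_fib U k z) ≤ 2 * (#U : ℝ) ^ k := by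
  classical
  have e : (Fintype.card R : ℝ) * #(cnt2_fib U k z) =
      ‖(Fintype.card R : ℂ) * #(cnt2_fib U k z)‖ := by simp
  have hb : ∀ s : AddChar R ℂ, ‖(∑ u ∈ U, s u) ^ k * s (-z)‖ ≤
      (if s = 0 then (#U : ℝ) ^ k else 0) + τ ^ k * (#U : ℝ) ^ k := by
    intro s
    rw [norm_mul, norm_pow, AddChar.norm_apply, mul_one]
    have hp : 0 ≤ τ ^ k * (#U : ℝ) ^ k := by positivity
    split_ifs with ht
    · have : ‖∑ u ∈ U, s u‖ ≤ #U := by
        refine (norm_sum_le _ _).trans (le_of_eq ?_)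
        simp
      have := pow_le_pow_left₀ (norm_nonneg _) this k
      linarith
    · rw [zero_add, ← mul_pow]
      exact pow_le_pow_left₀ (norm_nonneg _) (h2 s (AddChar.ne_zero_iff.1 ht)) k
  rw [e, cnt2_fourier]
  refine (norm_sum_le _ _).trans ((sum_le_sum fun t _ => hb t).trans ?_)
  rw [sum_add_distrib, sum_ite_eq' univ (0 : AddChar R ℂ), if_pos (mem_univ _), sum_const,
    card_univ, AddChar.card_eq, nsmul_eq_mul, ← mul_assoc]
  have hp : 0 ≤ (#U : ℝ) ^ k := by positivity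
  nlinarith

theorem cnt2 : StmtCnt2 := by
  intro R _ _ _ U k τ h0 h1 h2
  have hr : (0 : ℝ) < Fintype.card R := by exact_mod_cast Fintype.card_pos
  have hs : (#(sol U k) : ℝ) = ∑ z, (#(cnt2_fib U k z) : ℝ) ^ 2 := by
    have := cnt2_card U k univ
    simp only [mem_univ, filter_true] at this
    exact_mod_cast this
  have p1 : (#U : ℝ) ^ (2 * k) ≤ Fintype.card R * #(sol U k) := by
    have h3 := sq_sum_le_card_mul_sum_sq (s := (univ : Finset R))
      (f := fun z => (#(cnt2_fib U k z) : ℝ))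
    have h4 : ∑ z, (#(cnt2_fib U k z) : ℝ) = (#U : ℝ) ^ k := by exact_mod_cast cnt2_sum U k
    rw [h4, card_univ, ← hs, ← pow_mul, mul_comm k 2] at h3
    exact h3
  refine ⟨p1, fun Z => ?_⟩
  have h5 : ∀ z, (#(cnt2_fib U k z) : ℝ) ^ 2 * Fintype.card R ≤ 4 * #(sol U k) := by
    intro z
    have h6 := cnt2_le U k τ h0 h1 h2 z
    have h7 := pow_le_pow_left₀ (by positivity) h6 2
    rw [mul_pow, mul_pow, ← pow_mul, mul_comm k 2] at h7
    refine le_of_mul_le_mul_left ?_ hr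
    nlinarith
  rw [cnt2_card]
  push_cast
  rw [sum_mul]
  refine (sum_le_sum fun z _ => h5 z).trans (le_of_eq ?_)
  rw [sum_const, nsmul_eq_mul]
  ring

end Pool.Agent.Work.MP_11a08a_al.Fr
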