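import Pool.Agent.Work.MP_11a08a_al.Fr.Ex

/-!
Averaging the additive energy over dilates.
-/

set_option autoImplicit false

open Finset
open scoped Pointwise

namespace Pool.Agent.Work.MP_11a08a_al.Fr

theorem en_cs {P Z : Type} [DecidableEq Z] (S : Finset P) (f : P → Z) :
    #S ^ 2 ≤ #(S.image f) * #((S ×ˢ S).filter fun q => f q.1 = f q.2) := by
  have h1 : #S = ∑ z ∈ S.image f, #(S.filter fun p => f p = z) :=
    card_eq_sum_card_image f S
  have h2 : #((S ×ˢ S).filter fun q => f q.1 = f q.2) =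
      ∑ z ∈ S.image f, #(S.filter fun p => f p = z) ^ 2 := by
    rw [card_eq_sum_card_fiberwise (f := fun q : P × P => f q.1) (t := S.image f)]
    · refine sum_congr rfl fun z _ => ?_
      rw [sq, ← card_product]
      refine congrArg card ?_
      ext q
      simp only [mem_filter, mem_product]
      constructor
      · rintro ⟨⟨⟨a, b⟩, c⟩, d⟩
        exact ⟨⟨a, d⟩, b, c ▸ d⟩
      · rintro ⟨⟨a, d⟩, b, c⟩
        exact ⟨⟨⟨a, b⟩, d.trans c.symm⟩, d⟩
    · intro q hq
      have hq' := mem_filter.1 (mem_coe.1 hq)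
      exact mem_coe.2 (mem_image_of_mem f (mem_product.1 hq'.1).1)
  rw [h2]
  conv_lhs => rw [h1]
  exact sq_sum_le_card_mul_sum_sq

theorem en_one {R M : Type} [CommRing R] [AddCommGroup M] [Module R M] [DecidableEq M]
    (A : Finset M) (x : R) : #(((A ×ˢ A) ×ˢ (A ×ˢ A)).filter
      fun q => q.1.1 + x • q.1.2 = q.2.1 + x • q.2.2) ≤ #(A ×ˢ A) +
        #(((A ×ˢ A) ×ˢ A).filter fun t => t.1.2 - t.2 ≠ 0 ∧ t.1.1 + x • (t.1.2 - t.2) ∈ A) := by
  refine le_trans (card_le_card (t := ((A ×ˢ A).image fun p => (p, p)) ∪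
    ((((A ×ˢ A) ×ˢ A).filter fun t => t.1.2 - t.2 ≠ 0 ∧ t.1.1 + x • (t.1.2 - t.2) ∈ A).image
      fun t => (t.1, (t.1.1 + x • (t.1.2 - t.2), t.2)))) fun q hq => ?_)
    ((card_union_le _ _).trans (Nat.add_le_add card_image_le card_image_le))
  obtain ⟨hq1, hq2⟩ := mem_filter.1 hq
  obtain ⟨h1, h2⟩ := mem_product.1 hq1
  obtain ⟨h3, h4⟩ := mem_product.1 h2
  have e : q.1.1 + x • (q.1.2 - q.2.2) = q.2.1 := by
    rw [smul_sub, ← add_sub_assoc, hq2, add_sub_cancel_right]
  by_cases h : q.1.2 - q.2.2 = 0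
  · refine mem_union_left _ (mem_image.2 ⟨q.1, h1, Prod.ext rfl (Prod.ext ?_ (sub_eq_zero.1 h))⟩)
    rwa [h, smul_zero, add_zero] at e
  · exact mem_union_right _ (mem_image.2 ⟨(q.1, q.2.2), mem_filter.2
      ⟨mem_product.2 ⟨h1, h4⟩, h, e ▸ h3⟩, Prod.ext rfl (Prod.ext e rfl)⟩)

theorem en : StmtEn := by
  intro R M _ _ _ _ _ _ A S ρ hA hS r0 h
  set E : R → ℝ := fun x => #(((A ×ˢ A) ×ˢ (A ×ˢ A)).filter
    fun q => q.1.1 + x • q.1.2 = q.2.1 + x • q.2.2) with hE
  have h1 : ∑ x : R, (#(((A ×ˢ A) ×ˢ A).filter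
      fun t => t.1.2 - t.2 ≠ 0 ∧ t.1.1 + x • (t.1.2 - t.2) ∈ A) : ℝ)
      ≤ #A ^ 3 * (ρ * Fintype.card R) := by
    simp only [card_filter, Nat.cast_sum]
    rw [sum_comm]
    refine (sum_le_card_nsmul _ _ (ρ * Fintype.card R) fun t _ => ?_).trans_eq ?_
    · by_cases ht : t.1.2 - t.2 = 0
      · simp only [ht, ne_eq, not_true, false_and, if_false, Nat.cast_zero, sum_const_zero]
        positivity
      · have := h t.1.1 _ ht
        simpa only [card_filter, Nat.cast_sum, ne_eq, ht, not_false_iff, true_and] using this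
    · rw [card_product, card_product, nsmul_eq_mul]
      push_cast
      ring
  have h2 : ∑ x ∈ S, E x ≤ #A ^ 2 * (Fintype.card R * (1 + ρ * #A)) := by
    refine (sum_le_sum_of_subset_of_nonneg (subset_univ S) fun _ _ _ => Nat.cast_nonneg _).trans
      ((sum_le_sum fun x _ => (Nat.cast_le (α := ℝ)).2 (en_one A x)).trans ?_)
    simp only [Nat.cast_add]
    rw [sum_add_distrib, sum_const, card_univ, card_product, nsmul_eq_mul]
    push_cast
    linarith
  obtain ⟨x, hx, h3⟩ := exists_le_of_sum_le (s := S) (f := fun x => #S * E x)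
    (g := fun _ => #A ^ 2 * (Fintype.card R * (1 + ρ * #A))) hS (by
      rw [← mul_sum, sum_const, nsmul_eq_mul]
      exact mul_le_mul_of_nonneg_left h2 (Nat.cast_nonneg _))
  refine ⟨x, hx, ?_⟩
  have h4 := en_cs (A ×ˢ A) (fun p : M × M => p.1 + x • p.2)
  have h5 : #((A ×ˢ A).image fun p : M × M => p.1 + x • p.2) ≤ #(A + x • A) :=
    card_le_card fun z hz => by
      obtain ⟨p, hp, rfl⟩ := mem_image.1 hz
      obtain ⟨h6, h7⟩ := mem_product.1 hp
      exact add_mem_add h6 (smul_mem_smul_finset h7)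
  have h6 : ((#A : ℝ) * #A) ^ 2 ≤ #(A + x • A) * E x := by
    have := h4.trans (Nat.mul_le_mul_right _ h5)
    rw [card_product] at this
    simp only [hE]
    exact_mod_cast this
  have a0 : (0 : ℝ) < #A ^ 2 := by
    have := card_pos.2 hA
    positivity
  refine le_of_mul_le_mul_left ?_ a0
  have h7 := mul_le_mul_of_nonneg_right h6 (Nat.cast_nonneg (α := ℝ) #S)
  have h8 := mul_le_mul_of_nonneg_left h3 (Nat.cast_nonneg (α := ℝ) #(A + x • A))
  linarith

end Pool.Agent.Work.MP_11a08a_al.Fr
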