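import Pool.Agent.Work.MP_11a08a_al.Fr.Ex

/-!
Indices of proper ideals and subrings; units of subrings.
-/

set_option autoImplicit false

open Finset Filter

namespace Pool.Agent.Work.MP_11a08a_al.Fr

theorem idx_card {R : Type} [CommRing R] [Fintype R] (B : Finset R) (H : AddSubgroup R) (m : R)
    (h : ∀ b ∈ B, ∀ b' ∈ B, b ≠ b' → (b - b') * m ∉ H) : #B * Nat.card H ≤ Fintype.card R := by
  have h1 : Function.Injective fun p : B × H => (p.1 : R) * m + (p.2 : R) := by
    rintro ⟨⟨b, hb⟩, x, hx⟩ ⟨⟨b', hb'⟩, x', hx'⟩ e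
    have e' : b * m + x = b' * m + x' := e
    have h2 : b = b' := by
      by_contra hne
      refine h b hb b' hb' hne ?_
      have : (b - b') * m = x' - x := by linear_combination e'
      rw [this]
      exact H.sub_mem hx' hx
    subst h2
    have h3 : x = x' := add_left_cancel e'
    subst h3
    rfl
  have h4 := Nat.card_le_card_of_injective _ h1
  rwa [Nat.card_prod, Nat.card_eq_fintype_card (α := B), Fintype.card_coe,
    Nat.card_eq_fintype_card (α := R)] at h4

theorem idx_unit {R : Type} [CommRing R] [Finite R] (Q : Subring R) (x : Q)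
    (hx : IsUnit (x : R)) : IsUnit x := by
  have h1 : Function.Injective fun y : Q => x * y := fun y z e =>
    Subtype.ext (hx.mul_left_cancel (congrArg Subtype.val e))
  obtain ⟨y, hy⟩ := Finite.injective_iff_surjective.1 h1 1
  exact IsUnit.of_mul_eq_one y hy

theorem idx : StmtIdx := by
  intro R _ _
  refine ⟨fun B I hB hI => ?_, fun B Q hB hQ hBQ => ?_, fun Q x hx => idx_unit Q x hx⟩
  · refine idx_card B I.toAddSubgroup 1 fun b hb b' hb' hne h => hI ?_
    rw [mul_one] at h
    exact I.eq_top_of_isUnit_mem h (hB b hb b' hb' hne)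
  · obtain ⟨m, hm⟩ : ∃ m, m ∉ Q := by
      by_contra hn
      push Not at hn
      exact hQ (eq_top_iff.2 fun x _ => hn x)
    refine idx_card B Q.toAddSubgroup m fun b hb b' hb' hne h => hm ?_
    obtain ⟨y, hy⟩ := (idx_unit Q ⟨b - b', Q.sub_mem (hBQ b hb) (hBQ b' hb')⟩
      (hB b hb b' hb' hne)).exists_left_inv
    have h1 : (y : R) * (b - b') = 1 := congrArg Subtype.val hy
    have h2 : m = y * ((b - b') * m) := by rw [← mul_assoc, h1, one_mul]
    rw [h2]
    exact Q.mul_mem y.2 h

end Pool.Agent.Work.MP_11a08a_al.Fr
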