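import Pool.Agent.Work.MP_11a08a_al.Fr.Ex

/-!
The numerical end of the recursion.
-/

set_option autoImplicit false

open Finset Filter

namespace Pool.Agent.Work.MP_11a08a_al.Fr

theorem num : StmtNum := by
  intro q k σ hk h0 h1
  have k1 : (1 : ℝ) ≤ k := by exact_mod_cast hk
  obtain ⟨a, ha⟩ := exists_pow_lt_of_lt_one (x := 1 / (2 * (2 * (k : ℝ) + 1))) (y := 1 - σ)
    (by positivity) (by linarith)
  have x0 : (0 : ℝ) ≤ (2 * k - 1) / (2 * k) := div_nonneg (by linarith) (by positivity)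
  have x1 : ((2 : ℝ) * k - 1) / (2 * k) < 1 := (div_lt_one (by positivity)).2 (by linarith)
  have t := (tendsto_self_mul_const_pow_of_lt_one x0 x1).const_mul ((q : ℝ) * a)
  rw [mul_zero] at t
  obtain ⟨D, d1, d2⟩ := ((t.eventually (gt_mem_nhds zero_lt_one)).and (eventually_ge_atTop 2)).exists
  refine ⟨a * D, D, ?_, ?_⟩
  · have e : ((2 * k - 1 : ℕ) : ℝ) = 2 * k - 1 := by
      rw [Nat.cast_sub (by omega)]
      push_cast
      ring
    rw [div_pow, ← mul_div_assoc, ← mul_div_assoc, div_lt_one (by positivity)] at d1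
    have : ((q * (a * D) * (2 * k - 1) ^ D : ℕ) : ℝ) < ((2 * k) ^ D : ℕ) := by
      rw [Nat.cast_mul, Nat.cast_pow, e]
      push_cast
      linarith
    exact_mod_cast this
  · have b : (2 * (k : ℝ) + 1) * (1 - σ) ^ a ≤ 1 / 2 := by
      rw [lt_div_iff₀ (by positivity)] at ha
      linarith
    have b0 : 0 ≤ (2 * (k : ℝ) + 1) * (1 - σ) ^ a :=
      mul_nonneg (by positivity) (pow_nonneg (by linarith) _)
    have c := (pow_le_pow_left₀ b0 b D).trans
      (pow_le_pow_of_le_one (by norm_num) (by norm_num) d2)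
    rw [mul_pow, ← pow_mul] at c
    linarith

end Pool.Agent.Work.MP_11a08a_al.Fr
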