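import Pool.Agent.Work.MP_11a08a_al.Fr.Ex

/-!
Every pattern of values at torsion elements has positive density.
-/

set_option autoImplicit false

open Finset

namespace Pool.Agent.Work.MP_11a08a_al.Fr

theorem pat_quot {R Q : Type} [CommRing R] [AddCommGroup Q] [Fintype Q] [DecidableEq Q]
    (f : R →+ Q) (hf : Function.Surjective f) (U : Finset R) (τ : ℝ) (h0 : 0 ≤ τ) (hd : Dec U τ)
    (z : R) : (#U : ℝ) ≤ Fintype.card Q * (#(U.filter fun u => f z = f u) + τ * #U) := by
  classical
  have key : ∑ ψ : AddChar Q ℂ, ψ (-f z) * ∑ u ∈ U, ψ (f u) =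
      (Fintype.card Q : ℂ) * #(U.filter fun u => f z = f u) := by
    simp_rw [mul_sum, ← AddChar.map_add_eq_mul]
    rw [sum_comm]
    simp_rw [AddChar.sum_apply_eq_ite, neg_add_eq_zero]
    rw [← sum_filter, sum_const, nsmul_eq_mul, mul_comm]
  rw [← add_sum_erase _ _ (mem_univ (0 : AddChar Q ℂ))] at key
  simp only [AddChar.zero_apply, one_mul, sum_const, nsmul_eq_mul, mul_one] at key
  have h1 : ‖∑ ψ ∈ univ.erase (0 : AddChar Q ℂ), ψ (-f z) * ∑ u ∈ U, ψ (f u)‖ ≤
      Fintype.card Q * (τ * #U) := by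
    refine (norm_sum_le _ _).trans ((sum_le_card_nsmul _ _ (τ * #U) fun ψ hψ => ?_).trans ?_)
    · obtain ⟨y, hy⟩ := AddChar.ne_zero_iff.1 (ne_of_mem_erase hψ)
      obtain ⟨x, rfl⟩ := hf y
      rw [norm_mul, AddChar.norm_apply, one_mul]
      exact hd (ψ.compAddMonoidHom f) ⟨x, hy⟩
    · rw [nsmul_eq_mul]
      refine mul_le_mul_of_nonneg_right ?_ (by positivity)
      have : #(univ.erase (0 : AddChar Q ℂ)) ≤ Fintype.card Q :=
        (card_le_univ _).trans AddChar.card_eq.le
      exact_mod_cast this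
  have h2 : ‖((#U : ℕ) : ℂ)‖ ≤ ‖(Fintype.card Q : ℂ) * #(U.filter fun u => f z = f u)‖ +
      ‖∑ ψ ∈ univ.erase (0 : AddChar Q ℂ), ψ (-f z) * ∑ u ∈ U, ψ (f u)‖ := by
    rw [eq_sub_of_add_eq key]
    exact norm_sub_le _ _
  rw [norm_mul, Complex.norm_natCast, Complex.norm_natCast, Complex.norm_natCast] at h2
  linarith

theorem pat : StmtPat := by
  intro R M K _ _ _ _ _ _ χ U τ q m t z hm h0 hd ht
  classical
  let H : AddSubgroup R :=
    { carrier := {x | ∀ l, χ (x • t l) = 1}
      zero_mem' := fun l => by rw [zero_smul, χ.map_zero_eq_one]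
      add_mem' := fun ha hb l => by rw [add_smul, χ.map_add_eq_mul, ha l, hb l, one_mul]
      neg_mem' := fun {x} hx l => by
        have := χ.map_add_eq_mul (x • t l) ((-x) • t l)
        rw [← add_smul, add_neg_cancel, zero_smul, χ.map_zero_eq_one, hx l, one_mul] at this
        exact this.symm }
  have hH : ∀ x y : R, -x + y ∈ H ↔ ∀ l, χ (y • t l) = χ (x • t l) := fun x y =>
    forall_congr' fun l => by
      have e : χ (y • t l) = χ ((-x + y) • t l) * χ (x • t l) := by
        rw [← χ.map_add_eq_mul, ← add_smul, neg_add_cancel_comm]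
      rw [e]
      exact ⟨fun h => by rw [h, one_mul], fun h => mul_right_cancel₀ (addChar_ne χ _)
        (h.trans (one_mul _).symm)⟩
  let _ : Fintype (R ⧸ H) := Fintype.ofFinite _
  have hc : Fintype.card (R ⧸ H) ≤ m ^ q := by
    have h1 : #(univ : Finset (R ⧸ H)) ≤
        #(Fintype.piFinset fun _ : Fin q => Polynomial.nthRootsFinset m (1 : K)) := by
      refine card_le_card_of_injOn (fun a l => χ (a.out • t l)) (fun a _ => ?_) fun a _ b _ h => ?_
      · refine mem_coe.2 (Fintype.mem_piFinset.2 fun l => ?_)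
        rw [Polynomial.mem_nthRootsFinset hm, ← χ.map_nsmul_eq_pow, smul_comm, ht l, smul_zero,
          χ.map_zero_eq_one]
      · rw [← QuotientAddGroup.out_eq' a, ← QuotientAddGroup.out_eq' b, QuotientAddGroup.eq]
        exact (hH _ _).2 fun l => (congrFun h l).symm
    rw [Fintype.card_piFinset, prod_const, card_univ, card_univ, Fintype.card_fin] at h1
    refine h1.trans (Nat.pow_le_pow_left ?_ _)
    exact (Multiset.toFinset_card_le _).trans (Polynomial.card_nthRoots m 1)
  have h1 := pat_quot (QuotientAddGroup.mk' H) (QuotientAddGroup.mk'_surjective H) U τ h0 hd z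
  have h2 : (U.filter fun u => QuotientAddGroup.mk' H z = QuotientAddGroup.mk' H u) =
      U.filter fun u => ∀ l, χ (u • t l) = χ (z • t l) :=
    filter_congr fun u _ => QuotientAddGroup.eq.trans (hH z u)
  rw [h2] at h1
  have h3 : (Fintype.card (R ⧸ H) : ℝ) ≤ (m : ℝ) ^ q := by exact_mod_cast hc
  have h4 : (0 : ℝ) < (m : ℝ) ^ q := by positivity
  have h5 := h1.trans (mul_le_mul_of_nonneg_right h3 (by positivity))
  rw [← div_le_iff₀' h4] at h5
  rw [sub_mul, one_div_mul_eq_div]
  convert sub_le_iff_le_add.2 h5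

end Pool.Agent.Work.MP_11a08a_al.Fr
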