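import Pool.Agent.Work.MP_11a08a_al.Fr.Ex

/-! The dilates with a small sum set are closed under products and differences (modules). -/

set_option autoImplicit false

open Finset
open scoped Pointwise

namespace Pool.Agent.Work.MP_11a08a_al.Fr

section
variable {M : Type} [AddCommGroup M] [DecidableEq M]

theorem sp3_tri {A B C : Finset M} {P Q : ℝ} (hB : B.Nonempty) (hP : 0 ≤ P)
    (h1 : (#(A + B) : ℝ) ≤ P * #B) (h2 : (#(B + C) : ℝ) ≤ Q * #B) :
    (#(A + C) : ℝ) ≤ P * Q * #B := by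
  have ha : (0 : ℝ) < #B := by exact_mod_cast hB.card_pos
  have h : (#(A + C) : ℝ) * #B ≤ #(A + B) * #(B + C) := by
    exact_mod_cast Finset.ruzsa_triangle_inequality_add_add_add A B C
  have h3 : (#(A + B) : ℝ) * #(B + C) ≤ (P * #B) * (Q * #B) :=
    mul_le_mul h1 h2 (Nat.cast_nonneg _) (mul_nonneg hP ha.le)
  refine le_of_mul_le_mul_right (h.trans (h3.trans (le_of_eq ?_))) ha
  ring

theorem sp3_pl {A : Finset M} {D : ℝ} (hA : A.Nonempty) (hD : (#(A - A) : ℝ) ≤ D * #A) (n : ℕ) :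
    (#(n • A) : ℝ) ≤ D ^ n * #A := by
  have ha : (0 : ℝ) < #A := by exact_mod_cast hA.card_pos
  have h := Finset.pluennecke_ruzsa_inequality_nsmul_sub hA A n
  have h' : (#(n • A) : ℝ) ≤ ((#(A - A) : ℝ) / #A) ^ n * #A := by
    have := (NNRat.cast_le (K := ℝ)).2 h
    push_cast at this
    exact this
  refine h'.trans (mul_le_mul_of_nonneg_right ?_ ha.le)
  exact pow_le_pow_left₀ (by positivity) ((div_le_iff₀ ha).2 hD) n

theorem sp3_neg {A P : Finset M} {D X : ℝ} (hA : A.Nonempty) (hD1 : 1 ≤ D)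
    (hD : (#(A - A) : ℝ) ≤ D * #A) (hx : (#(A + P) : ℝ) ≤ X * #A) :
    (#(A + -P) : ℝ) ≤ D ^ 2 * X * #A := by
  have ha : (0 : ℝ) < #A := by exact_mod_cast hA.card_pos
  have h : (#(A - P) : ℝ) * #A ≤ #(A + A) * #(P + A) := by
    exact_mod_cast Finset.ruzsa_triangle_inequality_sub_add_add A A P
  have h2 := sp3_pl hA hD 2
  rw [two_nsmul] at h2
  rw [add_comm A P] at hx
  have h3 : (#(A + A) : ℝ) * #(P + A) ≤ (D ^ 2 * #A) * (X * #A) :=
    mul_le_mul h2 hx (Nat.cast_nonneg _) (by positivity)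
  rw [← sub_eq_add_neg]
  refine le_of_mul_le_mul_right (h.trans (h3.trans (le_of_eq ?_))) ha
  ring

theorem sp3_three {A P Q : Finset M} {D X Y : ℝ} (hA : A.Nonempty) (hD1 : 1 ≤ D) (hX : 1 ≤ X)
    (hD : (#(A - A) : ℝ) ≤ D * #A) (hx : (#(A + P) : ℝ) ≤ X * #A)
    (hy : (#(A + Q) : ℝ) ≤ Y * #A) : (#(A + P + -Q) : ℝ) ≤ D ^ 5 * X * Y * #A := by
  have h0 := sp3_pl hA hD 3
  rw [succ_nsmul, two_nsmul] at h0
  have h1 : (#(A + A + P) : ℝ) ≤ D ^ 3 * X * #A := sp3_tri hA (by positivity) h0 hx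
  rw [add_right_comm] at h1
  refine (sp3_tri hA (by positivity) h1 (sp3_neg hA hD1 hD hy)).trans (le_of_eq ?_)
  ring

end

theorem sp3 : StmtSP3 := by
  intro R M _ _ _ _ A D X Y x y hA hD1 hX hY hD hx hy
  have ha : (0 : ℝ) ≤ #A := Nat.cast_nonneg _
  have p1 : D ^ 5 ≤ D ^ 8 := pow_le_pow_right₀ hD1 (by norm_num)
  have p2 : X ≤ X ^ 2 := by nlinarith only [hX]
  have p3 : Y ≤ Y ^ 2 := by nlinarith only [hY]
  have q1 : (0 : ℝ) ≤ D := by linarith
  have q2 : (0 : ℝ) ≤ X := by linarith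
  have q3 : (0 : ℝ) ≤ Y := by linarith
  constructor
  · obtain ⟨F, -, hF, hc⟩ := Finset.ruzsa_covering_add (A := y • A) (K := Y) hA
      (by rw [add_comm]; exact hy)
    have h1 := sp3_three hA hD1 hX hD hx hx
    have h2 : A + (x * y) • A ⊆ x • F + (A + x • A + -(x • A)) := by
      intro z hz
      obtain ⟨a, ha, w, hw, rfl⟩ := Finset.mem_add.1 hz
      obtain ⟨b, hb, rfl⟩ := Finset.mem_smul_finset.1 hw
      obtain ⟨f, hf, e, he, h⟩ := Finset.mem_add.1 (hc (Finset.smul_mem_smul_finset hb))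
      obtain ⟨c, hc', d, hd, rfl⟩ := Finset.mem_sub.1 he
      have e : a + (x * y) • b = x • f + (a + x • c + -(x • d)) := by
        rw [mul_smul, ← h, smul_add, smul_sub]
        abel
      rw [e]
      exact Finset.add_mem_add (Finset.smul_mem_smul_finset hf) (Finset.add_mem_add
        (Finset.add_mem_add ha (Finset.smul_mem_smul_finset hc'))
        (Finset.neg_mem_neg (Finset.smul_mem_smul_finset hd)))
    have h3 : (#(A + (x * y) • A) : ℝ) ≤ #F * #(A + x • A + -(x • A)) := by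
      exact_mod_cast (card_le_card h2).trans (card_add_le.trans
        (Nat.mul_le_mul_right _ card_smul_finset_le))
    calc _ ≤ Y * (D ^ 5 * X * X * #A) := h3.trans (mul_le_mul hF h1 (Nat.cast_nonneg _) q3)
      _ = D ^ 5 * X ^ 2 * Y * #A := by ring
      _ ≤ _ := by gcongr
  · have h1 := sp3_three hA hD1 hX hD hx hy
    have h2 : A + (x - y) • A ⊆ A + x • A + -(y • A) := by
      intro z hz
      obtain ⟨a, ha, w, hw, rfl⟩ := Finset.mem_add.1 hz
      obtain ⟨b, hb, rfl⟩ := Finset.mem_smul_finset.1 hw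
      rw [sub_smul, sub_eq_add_neg, ← add_assoc]
      exact Finset.add_mem_add (Finset.add_mem_add ha (Finset.smul_mem_smul_finset hb))
        (Finset.neg_mem_neg (Finset.smul_mem_smul_finset hb))
    calc _ ≤ D ^ 5 * X * Y * #A := (Nat.cast_le.2 (card_le_card h2)).trans h1
      _ ≤ _ := by gcongr

end Pool.Agent.Work.MP_11a08a_al.Fr
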