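import Pool.Agent.Work.MP_11a08a_al.Fr.Ex

/-!
A sparse sum of characters with ratios of large order has few zeros.
-/

set_option autoImplicit false

open Finset

namespace Pool.Agent.Work.MP_11a08a_al.Fr

open Classical in
theorem sr_sub {R K : Type} [AddCommGroup R] [Fintype R] [Field K] (a b : AddChar R K) (L : ℕ)
    (h : ∀ m : ℕ, 1 ≤ m → m ≤ L → ∃ z, a z ^ m ≠ b z ^ m) :
    #(univ.filter fun d : R => a d = b d) * L ≤ Fintype.card R := by
  let H : AddSubgroup R :=
    { carrier := {d | a d = b d}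
      zero_mem' := by simp
      add_mem' := fun {x y} hx hy => by
        have hx' : a x = b x := hx
        have hy' : a y = b y := hy
        show a (x + y) = b (x + y)
        rw [AddChar.map_add_eq_mul, AddChar.map_add_eq_mul, hx', hy']
      neg_mem' := fun {x} hx => by
        have hx' : a x = b x := hx
        show a (-x) = b (-x)
        rw [AddChar.map_neg_eq_inv, AddChar.map_neg_eq_inv, hx'] }
  have h1 : L ≤ H.index := by
    by_contra hc
    obtain ⟨z, hz⟩ := h H.index (Nat.pos_of_ne_zero AddSubgroup.index_ne_zero_of_finite)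
      (not_le.1 hc).le
    have : a (H.index • z) = b (H.index • z) := H.nsmul_index_mem z
    rw [AddChar.map_nsmul_eq_pow, AddChar.map_nsmul_eq_pow] at this
    exact hz this
  have h2 : Nat.card H = #(univ.filter fun d : R => a d = b d) :=
    Nat.subtype_card _ fun d => by
      rw [mem_filter]
      exact ⟨fun t => t.2, fun t => ⟨mem_univ _, t⟩⟩
  rw [← h2, ← Nat.card_eq_fintype_card, ← H.card_mul_index]
  exact Nat.mul_le_mul_left _ h1

theorem sr_count {R : Type} [AddCommGroup R] [Fintype R] [DecidableEq R] (Z : Finset R) :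
    ∑ d : R, #(Z.filter fun z => z + d ∈ Z) = #Z * #Z := by
  have h : ∀ z : R, #(univ.filter fun d : R => z + d ∈ Z) = #Z := fun z =>
    card_equiv (Equiv.addLeft z) fun d => by simp
  calc ∑ d : R, #(Z.filter fun z => z + d ∈ Z)
      = ∑ z ∈ Z, #(univ.filter fun d : R => z + d ∈ Z) := by
        simp only [card_filter]
        exact sum_comm
    _ = _ := by simp only [h, sum_const, smul_eq_mul]

theorem sr : StmtSR := by
  classical
  intro N
  induction N with
  | zero =>
    refine fun ε _ => ⟨0, fun R _ _ K _ ι T e c hT _ ⟨i, hi, _⟩ => ?_⟩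
    rw [card_eq_zero.1 (Nat.le_zero.1 hT)] at hi
    exact absurd hi (notMem_empty i)
  | succ N ih =>
    intro ε hε
    obtain ⟨L1, h1⟩ := ih (ε ^ 2 / 2) (by positivity)
    obtain ⟨L2, h2⟩ := exists_nat_ge (2 / ε ^ 2)
    refine ⟨L1 + L2, fun R _ _ K _ ι T e c hT he ⟨i0, hi0, hc0⟩ => ?_⟩
    obtain ⟨Z, hZ⟩ : ∃ Z, Z = univ.filter fun z : R => ∑ i ∈ T, c i * e i z = 0 := ⟨_, rfl⟩
    rw [← hZ]
    have mZ : ∀ z, z ∈ Z ↔ ∑ i ∈ T, c i * e i z = 0 := fun z => by simp [hZ]
    by_cases hj : ∃ j ∈ T, j ≠ i0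
    swap
    · have : Z = ∅ := by
        refine eq_empty_of_forall_notMem fun z hz => ?_
        rw [mZ, sum_eq_single_of_mem i0 hi0 fun j a b => absurd ⟨j, a, b⟩ hj] at hz
        exact mul_ne_zero hc0 (addChar_ne _ _) hz
      rw [this, card_empty, Nat.cast_zero]
      positivity
    obtain ⟨j, hj, hne⟩ := hj
    obtain ⟨n, hn⟩ : ∃ n : ℝ, n = Fintype.card R := ⟨_, rfl⟩
    have n0 : 0 ≤ n := hn ▸ Nat.cast_nonneg _
    have a1 : ∀ d : R, (#(Z.filter fun z => z + d ∈ Z) : ℝ) ≤
        (if e i0 d = e j d then n else 0) + ε ^ 2 / 2 * n := by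
      intro d
      split_ifs with hd
      · have : (#(Z.filter fun z => z + d ∈ Z) : ℝ) ≤ n := hn ▸ Nat.cast_le.2 (card_le_univ _)
        have : 0 ≤ ε ^ 2 / 2 * n := by positivity
        linarith
      · rw [zero_add, hn]
        refine le_trans (Nat.cast_le.2 (card_le_card fun z hz => ?_)) (h1 R K ι (T.erase j) e
          (fun i => c i * (e i d - e j d)) (by rw [card_erase_of_mem hj]; omega)
          (fun a ha b hb hab m m1 m2 =>
            he a (mem_of_mem_erase ha) b (mem_of_mem_erase hb) hab m m1 (by omega))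
          ⟨i0, mem_erase.2 ⟨hne.symm, hi0⟩, mul_ne_zero hc0 (sub_ne_zero.2 hd)⟩)
        rw [mem_filter, mZ, mZ] at hz
        refine mem_filter.2 ⟨mem_univ _, ?_⟩
        rw [sum_erase _ (by simp)]
        have : ∀ i, c i * (e i d - e j d) * e i z = c i * e i (z + d) - e j d * (c i * e i z) :=
          fun i => by rw [AddChar.map_add_eq_mul]; ring
        simp only [this]
        rw [sum_sub_distrib, ← mul_sum, hz.1, hz.2, mul_zero, sub_zero]
    have a2 := sum_le_sum fun d (_ : d ∈ univ) => a1 d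
    rw [← Nat.cast_sum, sr_count, sum_add_distrib, ← sum_filter, sum_const, sum_const, card_univ,
      nsmul_eq_mul, nsmul_eq_mul, ← hn, Nat.cast_mul] at a2
    have a3 : (#(univ.filter fun d : R => e i0 d = e j d) : ℝ) * L2 ≤ n := by
      rw [hn]
      exact_mod_cast sr_sub (e i0) (e j) L2 fun m m1 m2 =>
        he i0 hi0 j hj hne.symm m m1 (by omega)
    have a0 : (0 : ℝ) ≤ #(univ.filter fun d : R => e i0 d = e j d) := Nat.cast_nonneg _
    generalize (#(univ.filter fun d : R => e i0 d = e j d) : ℝ) = x at a0 a2 a3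
    rw [div_le_iff₀ (by positivity)] at h2
    have a4 : x * 2 ≤ n * ε ^ 2 :=
      (mul_le_mul_of_nonneg_left h2 a0).trans (by
        rw [← mul_assoc]
        exact mul_le_mul_of_nonneg_right a3 (by positivity))
    have a5 := mul_le_mul_of_nonneg_right a4 n0
    rw [← hn]
    refine (sq_le_sq₀ (Nat.cast_nonneg _) (by positivity)).1 ?_
    nlinarith

end Pool.Agent.Work.MP_11a08a_al.Fr
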