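import Pool.Agent.Work.MP_11a08a_al.Fr.Ex

/-!
The core for a group that is spread out.
-/

set_option autoImplicit false

open Finset Filter

namespace Pool.Agent.Work.MP_11a08a_al.Fr

section

variable {R K : Type} [CommRing R] [Field K] {q : ℕ}

/-- The product character on the free module. -/
noncomputable def nt1_chr (ψ : Fin q → AddChar R K) : AddChar (Fin q → R) K where
  toFun m := ∏ l, ψ l (m l)
  map_zero_eq_one' := by simp
  map_add_eq_mul' a b := by
    rw [← prod_mul_distrib]
    exact prod_congr rfl fun l _ => by rw [Pi.add_apply, AddChar.map_add_eq_mul]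

theorem nt1_chr_apply (ψ : Fin q → AddChar R K) (m : Fin q → R) :
    nt1_chr ψ m = ∏ l, ψ l (m l) := rfl

/-- The largest submodule in the kernel. -/
def nt1_ker (θ : AddChar (Fin q → R) K) : Submodule R (Fin q → R) where
  carrier := {m | ∀ x : R, θ (x • m) = 1}
  zero_mem' := fun x => by rw [smul_zero, AddChar.map_zero_eq_one]
  add_mem' := fun {a b} ha hb x => by
    rw [smul_add, AddChar.map_add_eq_mul, ha x, hb x, mul_one]
  smul_mem' := fun c m hm x => by
    rw [smul_smul]
    exact hm _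

/-- The character on the quotient. -/
noncomputable def nt1_quo (θ : AddChar (Fin q → R) K) :
    AddChar ((Fin q → R) ⧸ nt1_ker θ) K where
  toFun := Quotient.lift (fun m => θ m) fun a b h => by
    have h1 : a - b ∈ nt1_ker θ := (Submodule.quotientRel_def _).1 h
    have h2 := h1 1
    rw [one_smul] at h2
    calc θ a = θ (a - b + b) := by rw [sub_add_cancel]
      _ = θ b := by rw [AddChar.map_add_eq_mul, h2, one_mul]
  map_zero_eq_one' := θ.map_zero_eq_one
  map_add_eq_mul' a b := by
    obtain ⟨a, rfl⟩ := Submodule.Quotient.mk_surjective _ a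
    obtain ⟨b, rfl⟩ := Submodule.Quotient.mk_surjective _ b
    exact θ.map_add_eq_mul a b

theorem nt1_quo_mk (θ : AddChar (Fin q → R) K) (m : Fin q → R) :
    nt1_quo θ (Submodule.Quotient.mk m) = θ m := rfl

theorem nt1_faith (θ : AddChar (Fin q → R) K) : Faith R (nt1_quo θ) := by
  intro t ht
  obtain ⟨m, rfl⟩ := Submodule.Quotient.mk_surjective _ t
  by_contra h
  refine ht ((Submodule.Quotient.mk_eq_zero _).2 fun x => ?_)
  by_contra hx
  exact h ⟨x, by rw [← Submodule.Quotient.mk_smul, nt1_quo_mk]; exact hx⟩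

theorem nt1_val (ψ : Fin q → AddChar R K) (l : Fin q) (z : R) :
    nt1_quo (nt1_chr ψ) (z • Submodule.Quotient.mk (Pi.single l (1 : R))) = ψ l z := by
  rw [← Submodule.Quotient.mk_smul, nt1_quo_mk, nt1_chr_apply, prod_eq_single l]
  · simp
  · intro j _ hj
    simp [Pi.single_eq_of_ne hj]
  · simp

end

theorem nt1_mono {R : Type} [CommRing R] {U : Finset R} {τ τ' : ℝ} (h : τ ≤ τ') (H : Dec U τ) :
    Dec U τ' := fun s hs =>
  (H s hs).trans (mul_le_mul_of_nonneg_right h (Nat.cast_nonneg _))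

theorem nt1 (hB : StmtBGK) (h0 : StmtNT0) : StmtNT1 := by
  classical
  intro η hη q
  obtain ⟨δ, hδ, N₀, hb⟩ := hB η hη
  obtain ⟨c, hc, N₁, h1⟩ := h0 (min δ η) (lt_min hδ hη) q
  refine ⟨c, hc, max N₀ N₁, fun R K _ _ _ _ U hN hU hη1 hS ψ β hz => ?_⟩
  have hR : (1 : ℝ) ≤ Fintype.card R := by exact_mod_cast Fintype.card_pos
  have hfin : Finite ((Fin q → R) ⧸ nt1_ker (nt1_chr ψ)) :=
    Finite.of_surjective _ (Submodule.Quotient.mk_surjective _)
  have H := h1 R _ K (nt1_quo (nt1_chr ψ)) U ((le_max_right _ _).trans hN) hU (nt1_faith _)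
    ((Real.rpow_le_rpow_of_exponent_le hR (min_le_right _ _)).trans hη1)
    (nt1_mono (Real.rpow_le_rpow_of_exponent_le hR (neg_le_neg (min_le_left _ _)))
      (hb R U ((le_max_left _ _).trans hN) hU hη1 hS))
    (fun l => Submodule.Quotient.mk (Pi.single l (1 : R))) β (by simpa only [nt1_val] using hz)
  refine H.trans (Nat.cast_le.2 (card_le_card fun u hu => ?_))
  rw [mem_filter] at hu ⊢
  exact ⟨hu.1, by simpa only [nt1_val] using hu.2⟩

end Pool.Agent.Work.MP_11a08a_al.Fr
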