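import Pool.Agent.Work.MP_11a08a_al.Fr.Defs2

/-!
Eigenvalues of a fixed point free operator that is conjugate to its powers.
-/

set_option autoImplicit false

open Finset Polynomial

namespace Pool.Agent.Work.MP_11a08a_al.Fr

theorem ab0_conj {K W : Type} [Field K] [AddCommGroup W] [Module K W] (T T' : Module.End K W)
    (S : W ≃ₗ[K] W) (h : ∀ w, S (T w) = T' (S w)) (Q : K[X]) (w : W) :
    S (aeval T Q w) = aeval T' Q (S w) := by
  have hp : ∀ (n : ℕ) (w : W), S ((T ^ n) w) = (T' ^ n) (S w) := by
    intro n
    induction n with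
    | zero => intro w; simp
    | succ n ih => intro w; rw [pow_succ, pow_succ, Module.End.mul_apply, Module.End.mul_apply, ih, h]
  induction Q using Polynomial.induction_on' with
  | add p q hp hq => simp only [map_add, LinearMap.add_apply, hp, hq]
  | monomial n a =>
    simp only [aeval_monomial, Module.End.mul_apply, Module.algebraMap_end_apply, map_smul, hp]

theorem ab0_root {K W L : Type} [Field K] [AddCommGroup W] [Module K W] [Field L] [Algebra K L]
    (T : Module.End K W) (lam : L) (hl : aeval lam (minpoly K T) = 0) (Q : K[X])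
    (hQ : aeval T Q = 0) : aeval lam Q = 0 := by
  obtain ⟨c, hc⟩ := minpoly.dvd K T hQ
  rw [hc, map_mul, hl, zero_mul]

theorem ab0 : StmtAb0 := by
  intro r _ W _ _ _ _ T J hinj hconj
  classical
  have hfd : Module.Finite (ZMod r) W := Module.Finite.of_finite
  have hfe : Finite (Module.End (ZMod r) W) := DFunLike.finite _
  have hint : IsIntegral (ZMod r) T := Algebra.IsIntegral.isIntegral T
  have hP0 : minpoly (ZMod r) T ≠ 0 := minpoly.ne_zero hint
  have hdeg : (minpoly (ZMod r) T).degree ≠ 0 := (minpoly.degree_pos hint).ne'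
  obtain ⟨lam, hl⟩ := IsAlgClosed.exists_aeval_eq_zero (AlgebraicClosure (ZMod r)) _ hdeg
  have hroot : ∀ j ∈ J, aeval (lam ^ j) (minpoly (ZMod r) T) = 0 := by
    intro j hj
    obtain ⟨S, hS⟩ := hconj j hj
    have h1 : aeval (T ^ j) (minpoly (ZMod r) T) = 0 := by
      ext w
      obtain ⟨w, rfl⟩ := S.surjective w
      rw [← ab0_conj T (T ^ j) S hS, minpoly.aeval]
      simp
    have h2 := ab0_root T lam hl ((minpoly (ZMod r) T).comp (X ^ j))
      (by rw [aeval_comp, map_pow, aeval_X, h1])
    rwa [aeval_comp, map_pow, aeval_X] at h2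
  have hne : ∀ i ∈ J, ∀ j ∈ J, i < j → lam ^ i ≠ lam ^ j := by
    intro i hi j hj hij e
    have hu : IsUnit (T ^ j - T ^ i) :=
      (LinearMap.isUnit_iff_ker_eq_bot _).2 (LinearMap.ker_eq_bot.2 (hinj i hi j hj hij))
    obtain ⟨u, hu⟩ := hu
    have hs : 0 < orderOf u := orderOf_pos u
    have h1 : (T ^ j - T ^ i) ^ orderOf u = 1 := by
      rw [← hu, ← Units.val_pow_eq_pow_val, pow_orderOf_eq_one, Units.val_one]
    have h2 := ab0_root T lam hl ((X ^ j - X ^ i) ^ orderOf u - 1)
      (by simp only [map_sub, map_pow, aeval_X, map_one, h1, sub_self])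
    simp only [map_sub, map_pow, aeval_X, map_one, e, sub_self, zero_pow hs.ne', zero_sub,
      neg_eq_zero, one_ne_zero] at h2
  have hcard : #J ≤ (minpoly (ZMod r) T).natDegree := by
    have h1 : #J ≤ #((minpoly (ZMod r) T).aroots (AlgebraicClosure (ZMod r))).toFinset := by
      refine Finset.card_le_card_of_injOn (fun j => lam ^ j) (fun j hj => ?_) ?_
      · simp only [Finset.mem_coe, Multiset.mem_toFinset, mem_aroots]
        exact ⟨hP0, hroot j hj⟩
      · intro i hi j hj e
        rcases lt_trichotomy i j with h | h | h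
        · exact absurd e (hne i hi j hj h)
        · exact h
        · exact absurd e.symm (hne j hj i hi h)
    refine h1.trans ((Multiset.toFinset_card_le _).trans ?_)
    refine (card_roots' _).trans ?_
    exact natDegree_map_le
  have hle : (minpoly (ZMod r) T).natDegree ≤ Module.finrank (ZMod r) W := by
    rw [← LinearMap.charpoly_natDegree T]
    exact natDegree_le_of_dvd (LinearMap.minpoly_dvd_charpoly T) (LinearMap.charpoly_monic T).ne_zero
  have hc : Nat.card W = r ^ Module.finrank (ZMod r) W := by
    rw [Module.natCard_eq_pow_finrank (K := ZMod r), Nat.card_zmod]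
  rw [hc]
  calc 2 ^ #J ≤ 2 ^ Module.finrank (ZMod r) W := Nat.pow_le_pow_right (by norm_num) (hcard.trans hle)
    _ ≤ r ^ Module.finrank (ZMod r) W := Nat.pow_le_pow_left (Fact.out : r.Prime).two_le _

end Pool.Agent.Work.MP_11a08a_al.Fr
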