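import Pool.Agent.Work.MP_11a08a_al.Fr.Defs2

/-! A maximal abelian subgroup above the derived subgroup, modulo a normal subgroup. -/

set_option autoImplicit false

open scoped commutatorElement

namespace Pool.Agent.Work.MP_11a08a_al.Fr

theorem ab1_sup {Q : Type} [Group Q] (N : Subgroup Q) (h : Q)
    (hN : ∀ x ∈ N, ∀ y ∈ N, x * y = y * x) (hh : ∀ x ∈ N, h * x = x * h) :
    ∀ x ∈ N ⊔ Subgroup.zpowers h, ∀ y ∈ N ⊔ Subgroup.zpowers h, x * y = y * x := by
  have h1 : N ⊔ Subgroup.zpowers h ≤ Subgroup.centralizer ((N : Set Q) ∪ {h}) := by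
    refine sup_le (fun x hx => Subgroup.mem_centralizer_iff.2 ?_)
      (Subgroup.zpowers_le.2 (Subgroup.mem_centralizer_iff.2 ?_))
    · rintro g (hg | rfl)
      · exact hN g hg x hx
      · exact hh x hx
    · rintro g (hg | rfl)
      · exact (hh g hg).symm
      · rfl
  intro x hx y hy
  have h2 : N ⊔ Subgroup.zpowers h ≤ Subgroup.centralizer ({x} : Set Q) := by
    have h3 := Subgroup.mem_centralizer_iff.1 (h1 hx)
    refine sup_le (fun z hz => Subgroup.mem_centralizer_iff.2 ?_)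
      (Subgroup.zpowers_le.2 (Subgroup.mem_centralizer_iff.2 ?_))
    · rintro g rfl
      exact (h3 z (Or.inl hz)).symm
    · rintro g rfl
      exact (h3 h (Or.inr rfl)).symm
  exact Subgroup.mem_centralizer_iff.1 (h2 hy) x rfl

theorem ab1_quot {Q : Type} [Group Q] [Finite Q] (H : Subgroup Q)
    (hH : ∀ x ∈ ⁅H, H⁆, ∀ y ∈ ⁅H, H⁆, x * y = y * x) :
    ∃ N : Subgroup Q, N ≤ H ∧ (∀ h ∈ H, ∀ x ∈ N, h * x * h⁻¹ ∈ N) ∧
      (∀ x ∈ N, ∀ y ∈ N, x * y = y * x) ∧ ∀ h ∈ H, (∀ x ∈ N, h * x = x * h) → h ∈ N := by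
  have hD : ⁅H, H⁆ ≤ H := Subgroup.commutator_le.2 fun a ha b hb => by
    rw [commutatorElement_def]
    exact H.mul_mem (H.mul_mem (H.mul_mem ha hb) (H.inv_mem ha)) (H.inv_mem hb)
  obtain ⟨N, hN⟩ := Set.Finite.exists_maximal
    (Set.toFinite {N : Subgroup Q | ⁅H, H⁆ ≤ N ∧ N ≤ H ∧ ∀ x ∈ N, ∀ y ∈ N, x * y = y * x})
    ⟨⁅H, H⁆, le_rfl, hD, hH⟩
  obtain ⟨⟨h1, h2, h3⟩, h4⟩ := hN
  refine ⟨N, h2, fun h hh x hx => ?_, h3, fun h hh hc => ?_⟩
  · have e : h * x * h⁻¹ = ⁅h, x⁆ * x := by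
      rw [commutatorElement_def]; group
    rw [e]
    exact N.mul_mem (h1 (Subgroup.commutator_mem_commutator hh (h2 hx))) hx
  · have h5 : N ⊔ Subgroup.zpowers h ≤ N :=
      h4 ⟨h1.trans le_sup_left, sup_le h2 (Subgroup.zpowers_le.2 hh), ab1_sup N h h3 hc⟩
        le_sup_left
    exact h5 (Subgroup.mem_sup_right (Subgroup.mem_zpowers h))

theorem ab1 : StmtAb1 := by
  intro G _ _ C H hC hH
  have key : ∀ x y : G, ⁅x, y⁆ ∈ C ↔
      QuotientGroup.mk' C x * QuotientGroup.mk' C y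
        = QuotientGroup.mk' C y * QuotientGroup.mk' C x := by
    intro x y
    rw [← commutatorElement_eq_one_iff_mul_comm, ← map_commutatorElement,
      QuotientGroup.mk'_apply, QuotientGroup.eq_one_iff]
  obtain ⟨N, h1, h2, h3, h4⟩ := ab1_quot (H.map (QuotientGroup.mk' C)) (by
    rw [← Subgroup.map_commutator]
    rintro _ ⟨x, hx, rfl⟩ _ ⟨y, hy, rfl⟩
    exact (key x y).1 (hH x hx y hy))
  refine ⟨(H.map (QuotientGroup.mk' C)).comap (QuotientGroup.mk' C),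
    N.comap (QuotientGroup.mk' C), Subgroup.le_comap_map _ _, fun c hc => ?_,
    Subgroup.comap_mono h1, fun h hh x hx => ?_, fun x hx y hy => ?_, fun h hh hc => ?_⟩
  · rw [Subgroup.mem_comap, QuotientGroup.mk'_apply, (QuotientGroup.eq_one_iff c).2 hc]
    exact N.one_mem
  · rw [Subgroup.mem_comap, map_mul, map_mul, map_inv]
    exact h2 _ hh _ hx
  · exact (key x y).2 (h3 _ hx _ hy)
  · refine h4 _ hh fun x hx => ?_
    obtain ⟨y, rfl⟩ := QuotientGroup.mk'_surjective C x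
    exact (key h y).1 (hc y hx)

end Pool.Agent.Work.MP_11a08a_al.Fr
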