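import Pool.Agent.Work.MP_11a08a_al.Fr.Defs2

/-! A self-centralising abelian normal subgroup has logarithmic index. -/

set_option autoImplicit false

open Finset
open scoped commutatorElement

namespace Pool.Agent.Work.MP_11a08a_al.Fr

theorem ab2_mod {G : Type} [Group G] [Finite G] {A : Subgroup G} (hA : FrobK A) (hb : A ≠ ⊥) :
    ∃ (r : ℕ) (_ : Fact r.Prime) (W : Type) (_ : AddCommGroup W) (_ : Module (ZMod r) W)
      (_ : Finite W) (_ : Nontrivial W) (act : G →* Module.End (ZMod r) W),
      Nat.card W ≤ Nat.card A ∧ (∀ g ∈ cz A, act g = 1) ∧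
        ∀ g, g ∉ cz A → Function.Injective ⇑(act g - 1) := by
  have hc : Nat.card A ≠ 1 := fun h => hb (Subgroup.eq_bot_of_card_eq A h)
  haveI hr : Fact (Nat.card A).minFac.Prime := ⟨Nat.minFac_prime hc⟩
  obtain ⟨a0, ha0⟩ := exists_prime_orderOf_dvd_card' (G := A) _ (Nat.minFac_dvd (Nat.card A))
  generalize (Nat.card A).minFac = r at hr ha0
  let B : Subgroup G :=
    { carrier := {a | a ∈ A ∧ a ^ r = 1}
      mul_mem' := fun {a b} ha hb => ⟨mul_mem ha.1 hb.1, by
        rw [(show Commute a b from hA.comm a ha.1 b hb.1).mul_pow, ha.2, hb.2, one_mul]⟩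
      one_mem' := ⟨one_mem _, one_pow _⟩
      inv_mem' := fun {a} ha => ⟨inv_mem ha.1, by rw [inv_pow, ha.2, inv_one]⟩ }
  have hBA : B ≤ A := fun a ha => ha.1
  haveI hBn : B.Normal := ⟨fun a ha g => ⟨hA.normal.conj_mem a ha.1 g, by
    rw [conj_pow, ha.2, mul_one, mul_inv_cancel]⟩⟩
  letI : CommGroup B := { (inferInstance : Group B) with
    mul_comm := fun a b => Subtype.ext (hA.comm _ a.2.1 _ b.2.1) }
  haveI : NeZero r := ⟨hr.out.ne_zero⟩
  letI : Module (ZMod r) (Additive B) := AddCommGroup.zmodModule (n := r) fun x =>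
    (show (Additive.toMul x) ^ r = 1 from Subtype.ext (Additive.toMul x).2.2)
  let f : G → Module.End (ZMod r) (Additive B) := fun g =>
    AddMonoidHom.toZModLinearMap r (MonoidHom.toAdditive (MulAut.conjNormal (H := B) g).toMonoidHom)
  have hf : ∀ g (w : Additive B), ((Additive.toMul (f g w) : B) : G) =
      g * (Additive.toMul w : B) * g⁻¹ := fun g w => rfl
  have ext : ∀ w w' : Additive B, ((Additive.toMul w : B) : G) = (Additive.toMul w' : B) → w = w' :=
    fun w w' h => Additive.toMul.injective (Subtype.ext h)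
  have ha1 : (a0 : G) ^ r = 1 := by
    have := pow_orderOf_eq_one a0
    rw [ha0] at this
    exact congrArg Subtype.val this
  refine ⟨r, hr, Additive B, inferInstance, inferInstance, inferInstance,
    ⟨Additive.ofMul ⟨a0, a0.2, ha1⟩, 0, fun h => ?_⟩,
    { toFun := f
      map_one' := LinearMap.ext fun w => ext _ _ (by rw [hf]; simp)
      map_mul' := fun g g' => LinearMap.ext fun w => ext _ _ (by
        rw [Module.End.mul_apply, hf, hf, hf]; group) }, ?_, fun g hg => ?_, fun g hg => ?_⟩
  · have h1 : (a0 : G) = 1 := congrArg (fun w : Additive B => ((Additive.toMul w : B) : G)) h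
    have h2 : a0 = 1 := Subtype.ext h1
    rw [h2, orderOf_one] at ha0
    exact hr.out.one_lt.ne ha0
  · exact Subgroup.card_le_of_le hBA
  · refine LinearMap.ext fun w => ext _ _ ?_
    change ((Additive.toMul (f g w) : B) : G) = _
    rw [hf, mem_cz.1 hg _ (Additive.toMul w).2.1]
    simp
  · rw [injective_iff_map_eq_zero]
    intro w hw
    by_contra h0
    have h1 : f g w = w := sub_eq_zero.1 hw
    have h2 := hf g w
    rw [h1] at h2
    refine hg (mem_cz.2 (hA.fpf g _ (Additive.toMul w).2.1 (fun h => h0 (ext _ _ h)) ?_))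
    rw [eq_mul_inv_iff_mul_eq] at h2
    exact h2.symm

theorem ab2 (h0 : StmtAb0) (h1 : StmtCyc) : StmtAb2 := by
  intro G _ _ A H N hA hN hNH hnorm hself
  classical
  have hpos : 1 ≤ Nat.card A := Nat.card_pos
  by_cases hb : A = ⊥
  · have : N = ⊤ := top_le_iff.1 fun g _ => hN.1 (mem_cz.2 fun a ha => by
      rw [hb, Subgroup.mem_bot] at ha; simp [ha])
    rw [this, Subgroup.relIndex_top_left]
    omega
  obtain ⟨r, hr, W, _, _, _, _, act, hW, a1, a2⟩ := ab2_mod hA hb
  haveI := hA.normal
  haveI hcn : (cz A).Normal := Subgroup.normal_centralizer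
  obtain ⟨g0, hg0⟩ := h1 N (A.subgroupOf N) (hA.res hN)
  let π := QuotientGroup.mk' (cz A)
  have hAN : ∀ a ∈ A, a ∈ N := fun a ha => hN.1 (mem_cz.2 (hA.comm a ha))
  have hact : ∀ a b : G, π a = π b → act a = act b := fun a b h => by
    have h2 := a1 _ (QuotientGroup.eq.1 h)
    calc act a = act a * act (a⁻¹ * b) := by rw [h2, mul_one]
      _ = act b := by rw [← map_mul, mul_inv_cancel_left]
  have hn0 : 0 < orderOf (π g0) := orderOf_pos _
  have hpow : ∀ x ∈ N, ∃ k < orderOf (π g0), π x = π g0 ^ k := fun x hx => by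
    obtain ⟨k, hk⟩ := hg0 ⟨x, hx⟩
    refine ⟨k % orderOf (π g0), Nat.mod_lt _ hn0, ?_⟩
    rw [pow_mod_orderOf, ← map_pow, eq_comm]
    exact QuotientGroup.eq.2 (mem_cz.2 fun a ha =>
      congrArg Subtype.val (hk ⟨a, hAN a ha⟩ ha))
  let J : Finset ℕ := (range (orderOf (π g0))).filter fun k => ∃ h ∈ H, π (h * g0 * h⁻¹) = π g0 ^ k
  have hJ := h0 r W (act g0) J (fun i _ j hj hij => by
      have hj' : j < orderOf (π g0) := mem_range.1 (mem_filter.1 hj).1
      have e : act g0 ^ j - act g0 ^ i = act ((g0 : G) ^ i) * (act ((g0 : G) ^ (j - i)) - 1) := by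
        rw [mul_sub, mul_one, ← map_mul, ← pow_add, Nat.add_sub_cancel' hij.le, map_pow, map_pow]
      rw [e, Module.End.coe_mul]
      refine Function.Injective.comp (Function.LeftInverse.injective
        (g := act ((g0 : G) ^ i)⁻¹) fun w => ?_) (a2 _ fun h => ?_)
      · rw [← Module.End.mul_apply, ← map_mul, inv_mul_cancel, map_one]; rfl
      · have h2 : π g0 ^ (j - i) = 1 := by
          rw [← map_pow]; exact (QuotientGroup.eq_one_iff _).2 h
        exact pow_ne_one_of_lt_orderOf (by omega) (by omega) h2)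
    (fun j hj => by
      obtain ⟨h, -, e⟩ := (mem_filter.1 hj).2
      refine ⟨LinearEquiv.ofLinear (act h) (act h⁻¹) ?_ ?_, fun w => ?_⟩
      · rw [← Module.End.mul_eq_comp, ← map_mul, mul_inv_cancel, map_one]; rfl
      · rw [← Module.End.mul_eq_comp, ← map_mul, inv_mul_cancel, map_one]; rfl
      · change act h (act g0 w) = (act g0 ^ j) (act h w)
        rw [← map_pow] at e
        rw [← map_pow, ← hact _ _ e, ← Module.End.mul_apply, ← Module.End.mul_apply, ← map_mul,
          ← map_mul, inv_mul_cancel_right])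
  have hle : N.relIndex H ≤ #J := by
    have hφ : ∀ h : H, ∃ k : J, π (h * g0 * h⁻¹) = π g0 ^ (k : ℕ) := fun h => by
      obtain ⟨k, hk, e⟩ := hpow _ (hnorm h h.2 g0 g0.2)
      exact ⟨⟨k, mem_filter.2 ⟨mem_range.2 hk, h, h.2, e⟩⟩, e⟩
    choose φ hφ using hφ
    have hinj : Function.Injective fun q : H ⧸ N.subgroupOf H => φ q.out := by
      intro q q' hq
      have e : π (q.out * g0 * (q.out : G)⁻¹) = π (q'.out * g0 * (q'.out : G)⁻¹) := by
        have h2 := hφ q.out
        have h3 := hφ q'.out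
        simp only at hq
        rw [hq] at h2
        exact h2.trans h3.symm
      rw [← q.out_eq, ← q'.out_eq]
      refine QuotientGroup.eq.2 (hself _ (q.out⁻¹ * q'.out).2 fun x hx => ?_)
      obtain ⟨k, -, hk⟩ := hpow x hx
      have hc : Commute (π ((q.out⁻¹ * q'.out : H) : G)) (π g0) := by
        simp only [map_mul, map_inv, Subgroup.coe_mul, Subgroup.coe_inv] at e ⊢
        generalize π (q.out : G) = u at e ⊢
        generalize π (q'.out : G) = u' at e ⊢
        generalize π (g0 : G) = y at e ⊢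
        change u⁻¹ * u' * y = y * (u⁻¹ * u')
        calc u⁻¹ * u' * y = u⁻¹ * (u' * y * u'⁻¹) * u' := by group
          _ = y * (u⁻¹ * u') := by rw [← e]; group
      refine (QuotientGroup.eq_one_iff _).1 ?_
      change π _ = 1
      rw [map_commutatorElement, hk]
      exact (hc.pow_right k).commutator_eq
    have := Nat.card_le_card_of_injective _ hinj
    rwa [Nat.card_eq_fintype_card (α := J), Fintype.card_coe] at this
  calc 2 ^ N.relIndex H ≤ 2 ^ #J := Nat.pow_le_pow_right (by norm_num) hle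
    _ ≤ 2 * Nat.card A := by omega

end Pool.Agent.Work.MP_11a08a_al.Fr
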