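import Pool.Agent.Work.MP_11a08a_al.Fr.Ex

/-!
A second linear relation is rare.
-/

set_option autoImplicit false

open Finset

namespace Pool.Agent.Work.MP_11a08a_al.Fr

variable {R M : Type} [CommRing R] [AddCommGroup M] [Module R M]

/-- The signs of the two halves. -/
def cnt1_eps (R : Type) [CommRing R] (k : ℕ) : Fin k ⊕ Fin k → R :=
  Sum.elim (fun _ => 1) (fun _ => -1)

lemma cnt1_eps_sq (k : ℕ) (i : Fin k ⊕ Fin k) (u : R) :
    cnt1_eps R k i * (cnt1_eps R k i * u) = u := by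
  rcases i with i | i <;> simp [cnt1_eps]

lemma cnt1_eps_sum {k : ℕ} (w : Fin k ⊕ Fin k → R) :
    ∑ i, cnt1_eps R k i * w i = half w - ∑ i, w (Sum.inr i) := by
  simp [cnt1_eps, half, Fintype.sum_sum_type, sub_eq_add_neg]

/-- The character attached to one coordinate. -/
noncomputable def cnt1_psi (s : AddChar R ℂ) (θ : AddChar M ℂ) (e x : R) (m : M) :
    AddChar R ℂ where
  toFun u := s (e * u) * θ ((x * u) • m)
  map_zero_eq_one' := by simp
  map_add_eq_mul' a b := by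
    rw [mul_add, mul_add, add_smul, s.map_add_eq_mul, θ.map_add_eq_mul]
    ring

lemma cnt1_psi_apply (s : AddChar R ℂ) (θ : AddChar M ℂ) (e x : R) (m : M) (u : R) :
    cnt1_psi s θ e x m u = s (e * u) * θ ((x * u) • m) := rfl

lemma cnt1_map_sum {A ι : Type} [AddCommGroup A] (χ : AddChar A ℂ) (s : Finset ι) (f : ι → A) :
    χ (∑ i ∈ s, f i) = ∏ i ∈ s, χ (f i) := by
  classical
  induction s using Finset.induction_on with
  | empty => simp
  | insert a s ha ih => rw [sum_insert ha, prod_insert ha, AddChar.map_add_eq_mul, ih]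

/-- The elements whose multiples are all killed. -/
def cnt1_id0 (R : Type) [CommRing R] [Module R M] (θ : AddChar M ℂ) (m : M) : Ideal R where
  carrier := {x | ∀ w : R, θ ((x * w) • m) = 1}
  add_mem' {a b} ha hb w := by
    rw [add_mul, add_smul, θ.map_add_eq_mul, ha w, hb w, one_mul]
  zero_mem' w := by simp
  smul_mem' a b hb w := by
    rw [smul_eq_mul, mul_comm a, mul_assoc]
    exact hb _

variable [Fintype R]

open Classical in
lemma cnt1_orth (θ : AddChar M ℂ) (m : M) :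
    ∑ x : R, θ (x • m) = if ∀ x : R, θ (x • m) = 1 then (Fintype.card R : ℂ) else 0 := by
  split_ifs with h
  · simp [h]
  · have h1 := AddChar.sum_eq_zero_iff_ne_zero (ψ := cnt1_psi (0 : AddChar R ℂ) θ 0 1 m)
    simp only [cnt1_psi_apply, AddChar.zero_apply, one_mul] at h1
    refine h1.2 fun e => h fun x => ?_
    have h2 := DFunLike.congr_fun e x
    simpa [cnt1_psi_apply] using h2

lemma cnt1_norm_le (U : Finset R) (s : AddChar R ℂ) : ‖∑ u ∈ U, s u‖ ≤ #U := by
  refine (norm_sum_le _ _).trans ?_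
  simp

open Classical in
lemma cnt1_id [DecidableEq R] (θ : AddChar M ℂ) (U : Finset R) (k : ℕ) (c : Fin k ⊕ Fin k → M) :
    (#((sol U k).filter fun w => ∀ x : R, θ (x • ∑ i, w i • c i) = 1) : ℂ) *
      (Fintype.card R : ℂ) ^ 2 = ∑ p : AddChar R ℂ × R, ∏ i, ∑ u ∈ U,
        cnt1_psi p.1 θ (cnt1_eps R k i) p.2 (c i) u := by
  have h1 : ∀ p : AddChar R ℂ × R, ∏ i, ∑ u ∈ U, cnt1_psi p.1 θ (cnt1_eps R k i) p.2 (c i) u =
      ∑ w ∈ Fintype.piFinset fun _ : Fin k ⊕ Fin k => U,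
        p.1 (∑ i, cnt1_eps R k i * w i) * θ (p.2 • ∑ i, w i • c i) := fun p => by
    rw [Finset.prod_univ_sum]
    refine sum_congr rfl fun w _ => ?_
    rw [smul_sum, cnt1_map_sum, cnt1_map_sum, ← prod_mul_distrib]
    exact prod_congr rfl fun i _ => by rw [cnt1_psi_apply, mul_smul]
  simp only [h1]
  rw [sum_comm, sol, filter_filter, card_filter]
  push_cast
  rw [sum_mul]
  refine sum_congr rfl fun w _ => ?_
  rw [Fintype.sum_prod_type]
  dsimp only
  rw [← sum_mul_sum, AddChar.sum_apply_eq_ite, cnt1_orth, cnt1_eps_sum]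
  simp only [sub_eq_zero]
  by_cases a1 : half w = ∑ i, w (Sum.inr i) <;>
    by_cases a2 : ∀ x : R, θ (x • ∑ i, w i • c i) = 1 <;> simp [a1, a2, sq]

open Classical in
lemma cnt1_card (θ : AddChar M ℂ) (k : ℕ) (c : Fin k ⊕ Fin k → M) :
    #(univ.filter fun p : AddChar R ℂ × R =>
      ∃ i, ∀ u, cnt1_psi p.1 θ (cnt1_eps R k i) p.2 (c i) u = 1) ≤ 2 * k * Fintype.card R := by
  have h1 : (univ.filter fun p : AddChar R ℂ × R =>
      ∃ i, ∀ u, cnt1_psi p.1 θ (cnt1_eps R k i) p.2 (c i) u = 1) ⊆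
      (univ : Finset (Fin k ⊕ Fin k)).biUnion fun i => univ.filter fun p : AddChar R ℂ × R =>
        ∀ u, cnt1_psi p.1 θ (cnt1_eps R k i) p.2 (c i) u = 1 := by
    intro p hp
    obtain ⟨i, hi⟩ := (mem_filter.1 hp).2
    exact mem_biUnion.2 ⟨i, mem_univ _, mem_filter.2 ⟨mem_univ _, hi⟩⟩
  refine (card_le_card h1).trans ((card_biUnion_le_card_mul _ _ (Fintype.card R)
    fun i _ => ?_).trans (by simp [two_mul]))
  refine card_le_card_of_injOn Prod.snd (fun _ _ => mem_univ _) fun p hp p' hp' e => ?_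
  refine Prod.ext (DFunLike.ext _ _ fun u => ?_) e
  have a1 := (mem_filter.1 hp).2 (cnt1_eps R k i * u)
  have a2 := (mem_filter.1 hp').2 (cnt1_eps R k i * u)
  rw [cnt1_psi_apply, cnt1_eps_sq] at a1 a2
  rw [← e] at a2
  exact mul_right_cancel₀ (addChar_ne _ _) (a1.trans a2.symm)

theorem cnt1 (h : StmtIdx) : StmtCnt1 := by
  intro R M _ _ _ _ _ _ _ U k τ hU hτ hr hφ c i₀ hc0 hc
  classical
  obtain ⟨i₁, hi₁⟩ := Function.ne_iff.1 hc
  obtain ⟨θ, hθ⟩ := (AddChar.exists_apply_ne_zero (a := c i₁)).2 hi₁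
  have hI : cnt1_id0 R θ (c i₁) ≠ ⊤ := fun e => hθ (by
    simpa using (e ▸ Submodule.mem_top : (1 : R) ∈ cnt1_id0 R θ (c i₁)) 1)
  have hX := (h R).1 U _ hU.dif hI
  have hn : (0 : ℝ) < #U := by exact_mod_cast card_pos.2 ⟨1, hU.one⟩
  have hcard : Fintype.card (Fin k ⊕ Fin k) = 2 * k := by simp [two_mul]
  set N : ℝ := (#U : ℝ) ^ (2 * k) with hN
  have hN0 : 0 ≤ N := by positivity
  obtain ⟨ψ, hψ⟩ : ∃ ψ : AddChar R ℂ × R → Fin k ⊕ Fin k → AddChar R ℂ,
      ψ = fun p i => cnt1_psi p.1 θ (cnt1_eps R k i) p.2 (c i) := ⟨_, rfl⟩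
  have hb : ∀ p : AddChar R ℂ × R, ‖∏ i, ∑ u ∈ U, ψ p i u‖ ≤
      (if ∀ i u, ψ p i u = 1 then N else 0) + τ ^ (2 * k) * N +
        (if ∃ i, ∀ u, ψ p i u = 1 then τ * N else 0) := fun p => by
    have h0 : 0 ≤ τ ^ (2 * k) * N := by positivity
    have h1 : 0 ≤ τ * N := by positivity
    rw [norm_prod]
    by_cases hp : ∀ i u, ψ p i u = 1
    · have : ∏ i, ‖∑ u ∈ U, ψ p i u‖ ≤ N := by
        refine (prod_le_prod (fun i _ => norm_nonneg _) fun i _ => cnt1_norm_le U _).trans ?_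
        rw [prod_const, card_univ, hcard]
      rw [if_pos hp]
      split_ifs <;> linarith
    rw [if_neg hp]
    by_cases hz : ∃ i, ∀ u, ψ p i u = 1
    · rw [if_pos hz]
      push Not at hp
      obtain ⟨j, hj⟩ := hp
      have h2 : ∏ i, ‖∑ u ∈ U, ψ p i u‖ ≤
          ∏ i : Fin k ⊕ Fin k, ((if i = j then τ else 1) * (#U : ℝ)) := by
        refine prod_le_prod (fun i _ => norm_nonneg _) fun i _ => ?_
        split_ifs with e
        · rw [e]; exact hφ _ hj
        · rw [one_mul]; exact cnt1_norm_le U _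
      rw [prod_mul_distrib, prod_ite_eq', if_pos (mem_univ _), prod_const, card_univ, hcard] at h2
      linarith
    · rw [if_neg hz]
      push Not at hz
      have h2 : ∏ i, ‖∑ u ∈ U, ψ p i u‖ ≤ ∏ _i : Fin k ⊕ Fin k, (τ * (#U : ℝ)) :=
        prod_le_prod (fun i _ => norm_nonneg _) fun i _ => hφ _ (hz i)
      rw [prod_const, card_univ, hcard, mul_pow] at h2
      linarith
  have h3 := congrArg norm (cnt1_id θ U k c)
  rw [norm_mul, norm_pow, Complex.norm_natCast, Complex.norm_natCast] at h3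
  have h9 : (#((sol U k).filter fun w => ∑ i, w i • c i = 0) : ℝ) ≤
      #((sol U k).filter fun w => ∀ x : R, θ (x • ∑ i, w i • c i) = 1) := by
    refine Nat.cast_le.2 (card_le_card fun w hw => ?_)
    rw [mem_filter] at hw ⊢
    exact ⟨hw.1, fun x => by rw [hw.2, smul_zero, AddChar.map_zero_eq_one]⟩
  refine (mul_le_mul_of_nonneg_right h9 (by positivity)).trans (le_trans (le_of_eq ?_)
    (((norm_sum_le _ _).trans (sum_le_sum fun p (_ : p ∈ univ) => hb p)).trans ?_))
  · rw [hψ]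
    convert h3
  rw [sum_add_distrib, sum_add_distrib, sum_const, card_univ, Fintype.card_prod, AddChar.card_eq,
    ← sum_filter, ← sum_filter, sum_const, sum_const, nsmul_eq_mul, nsmul_eq_mul, nsmul_eq_mul]
  have h4 : (#(univ.filter fun p : AddChar R ℂ × R => ∃ i, ∀ u, ψ p i u = 1) : ℝ) ≤
      2 * k * Fintype.card R := by
    rw [hψ]
    have := cnt1_card (R := R) θ k c
    exact_mod_cast (by convert this)
  have h5 : ((Fintype.card R * Fintype.card R : ℕ) : ℝ) * τ ^ (2 * k) ≤ 1 := by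
    have h6 : 0 ≤ (Fintype.card R : ℝ) * τ ^ k := by positivity
    have := mul_le_one₀ hr h6 hr
    push_cast
    rw [two_mul, pow_add]
    linarith
  have h6 : #(univ.filter fun p : AddChar R ℂ × R => ∀ i u, ψ p i u = 1) ≤
      Nat.card (cnt1_id0 R θ (c i₁)) := by
    have a0 : ∀ p : AddChar R ℂ × R, (∀ i u, ψ p i u = 1) → ∀ u, p.1 u = 1 := fun p hp u => by
      have a1 := hp i₀ (cnt1_eps R k i₀ * u)
      rw [hψ] at a1
      simpa [cnt1_psi_apply, cnt1_eps_sq, hc0] using a1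
    rw [Nat.card_eq_fintype_card, Fintype.card_subtype]
    refine card_le_card_of_injOn Prod.snd (fun p hp => ?_) fun p hp p' hp' e => ?_
    · have a1 := (mem_filter.1 hp).2
      refine mem_coe.2 (mem_filter.2 ⟨mem_univ _, fun w => ?_⟩)
      have a2 := a1 i₁ w
      rw [hψ] at a2
      simpa [cnt1_psi_apply, a0 p a1] using a2
    · refine Prod.ext (DFunLike.ext _ _ fun u => ?_) e
      rw [a0 p (mem_filter.1 hp).2, a0 p' (mem_filter.1 hp').2]
  have h10 : (#(univ.filter fun p : AddChar R ℂ × R => ∀ i u, ψ p i u = 1) : ℝ) ≤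
      Fintype.card R / #U := by
    rw [le_div_iff₀ hn, mul_comm]
    exact_mod_cast (Nat.mul_le_mul_left _ h6).trans hX
  have h7 := mul_le_mul_of_nonneg_right h4 (mul_nonneg hτ hN0)
  have h8 := mul_le_mul_of_nonneg_right h5 hN0
  have h11 := mul_le_mul_of_nonneg_right h10 hN0
  nlinarith

end Pool.Agent.Work.MP_11a08a_al.Fr
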