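import Pool.Agent.Work.MP_11a08a_al.Fr.Defs2

set_option autoImplicit false

open Finset

namespace Pool.Agent.Work.MP_11a08a_al.Fr

theorem count_cj {G : Type} [Group G] {A : Subgroup G} (hA : A.Normal) (g : G) (a : A) :
    cj hA (QuotientGroup.mk g : G ⧸ cz A).out a = cj hA g a := by
  obtain ⟨z, hz⟩ := QuotientGroup.mk_out_eq_mul (cz A) g
  apply Subtype.ext
  have h := mem_cz.1 z.2 _ (hA.conj_mem' a a.2 g)
  show ((QuotientGroup.mk g : G ⧸ cz A).out)⁻¹ * a * (QuotientGroup.mk g : G ⧸ cz A).out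
    = g⁻¹ * a * g
  rw [hz]
  calc (g * (z : G))⁻¹ * a * (g * z) = (z : G)⁻¹ * (g⁻¹ * a * g * z) := by group
    _ = (z : G)⁻¹ * (z * (g⁻¹ * a * g)) := by rw [h]
    _ = g⁻¹ * a * g := by group

theorem count (h1 : StmtNT) (h2 : StmtRing) : StmtCount := by
  classical
  intro ε hε q
  obtain ⟨c0, hc0, H⟩ := h1 ε ε hε hε q
  refine ⟨min c0 1, lt_min hc0 one_pos, ?_⟩
  intro L G _ _ _ A N hA hN χ a β ⟨a0, ha0⟩ ⟨x0, hx0⟩
  have hAN : ∀ b ∈ A, b ∈ N := fun b hb => hN.1 (mem_cz.2 (hA.comm b hb))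
  have := hA.normal
  set g0 : G := x0.out with hg0
  let χ2 : A.subgroupOf N →* L :=
    { toFun := fun b => χ (cj hA.normal g0 ⟨((b : N) : G), b.2⟩)
      map_one' := by
        rw [← χ.map_one]; congr 1; apply Subtype.ext; simp [cj]
      map_mul' := fun b b' => by
        rw [← χ.map_mul]; congr 1; apply Subtype.ext
        simp only [cj, Subgroup.coe_mul]
        group }
  have hχ2 : ∃ b, χ2 b ≠ 1 := by
    have hm : g0 * a0 * g0⁻¹ ∈ A := hA.normal.conj_mem a0 a0.2 g0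
    refine ⟨⟨⟨g0 * a0 * g0⁻¹, hAN _ hm⟩, hm⟩, ?_⟩
    have : cj hA.normal g0 ⟨g0 * a0 * g0⁻¹, hm⟩ = a0 := by
      apply Subtype.ext
      simp only [cj]
      group
    show χ (cj hA.normal g0 ⟨g0 * a0 * g0⁻¹, hm⟩) ≠ 1
    rw [this]; exact ha0
  obtain ⟨R, _, _, _, u, Ψ, -, hcard, hdif, hker, -, hΨ⟩ :=
    h2 N (A.subgroupOf N) (hA.res hN) L χ2 hχ2
  have := Fintype.ofFinite N
  set U : Finset R := univ.image u with hU
  have hmem : ∀ n, u n ∈ U := fun n => mem_image_of_mem _ (mem_univ n)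
  have hex : ∀ y ∈ U, ∃ n, u n = y := fun y hy => by
    obtain ⟨n, -, hn⟩ := mem_image.1 hy
    exact ⟨n, hn⟩
  have hF : Frob U := by
    refine ⟨by simpa using hmem 1, fun y hy y' hy' => ?_, fun y hy => ?_,
      fun y hy y' hy' hne => ?_⟩
    · obtain ⟨n, rfl⟩ := hex y hy
      obtain ⟨n', rfl⟩ := hex y' hy'
      rw [← map_mul]; exact hmem _
    · obtain ⟨n, rfl⟩ := hex y hy
      exact ⟨u n⁻¹, hmem _, by rw [← map_mul, mul_inv_cancel, map_one]⟩
    · obtain ⟨n, rfl⟩ := hex y hy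
      obtain ⟨n', rfl⟩ := hex y' hy'
      exact hdif n n' hne
  have hk : ∀ n n' : N, u n = u n' ↔ ((n⁻¹ * n' : N) : G) ∈ cz A := by
    intro n n'
    constructor
    · intro e
      have e1 : u (n⁻¹ * n') = 1 := by
        rw [map_mul, ← e, ← map_mul, inv_mul_cancel, map_one]
      exact mem_cz.2 fun b hb =>
        congrArg Subtype.val ((hker _).1 e1 ⟨b, hAN b hb⟩ hb)
    · intro e
      have e1 : u (n⁻¹ * n') = 1 :=
        (hker _).2 fun b hb => Subtype.ext (mem_cz.1 e b hb)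
      calc u n = u n * u (n⁻¹ * n') := by rw [e1, mul_one]
        _ = u n' := by rw [← map_mul, mul_inv_cancel_left]
  let s : R → N := Function.invFun u
  have hs : ∀ y ∈ U, u (s y) = y := fun y hy => Function.invFun_eq (hex y hy)
  have hidx : (cz A).relIndex N ≤ #U := by
    have hsurj : Function.Surjective
        (fun y : U => (QuotientGroup.mk (s y) : N ⧸ (cz A).subgroupOf N)) := by
      intro x
      obtain ⟨n, rfl⟩ := QuotientGroup.mk_surjective x
      refine ⟨⟨u n, hmem n⟩, QuotientGroup.eq.2 ?_⟩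
      exact (hk _ _).1 (hs _ (hmem n))
    have := Nat.card_le_card_of_surjective _ hsurj
    rw [Nat.card_eq_finsetCard U] at this
    exact this
  let a' : Fin q → A.subgroupOf N := fun l => ⟨⟨a l, hAN _ (a l).2⟩, (a l).2⟩
  have hval : ∀ (n : N) (l : Fin q), Ψ (a' l) (u n) = χ (cj hA.normal (n * g0) (a l)) := by
    intro n l
    have hm : (n : G)⁻¹ * a l * n ∈ A := hA.normal.conj_mem' _ (a l).2 n
    rw [hΨ (a' l) ⟨⟨(n : G)⁻¹ * a l * n, hAN _ hm⟩, hm⟩ n (Subtype.ext rfl)]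
    show χ (cj hA.normal g0 ⟨(n : G)⁻¹ * a l * n, hm⟩) = _
    congr 1
    apply Subtype.ext
    simp only [cj]
    group
  have hRG : (Fintype.card R : ℝ) ^ ε ≤ (Nat.card G : ℝ) ^ ε := by
    apply Real.rpow_le_rpow (Nat.cast_nonneg _) _ hε.le
    exact_mod_cast hcard.trans (Subgroup.card_le_card_group N)
  set T := {x : G ⧸ cz A // ∑ l, β l * χ (cj hA.normal x.out (a l)) ≠ 0} with hT
  have hT1 : (1 : ℝ) ≤ Nat.card T := by
    have : Nonempty T := ⟨⟨x0, hx0⟩⟩
    exact_mod_cast Nat.card_pos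
  have hidx' : (((cz A).relIndex N : ℕ) : ℝ) ≤ #U := by exact_mod_cast hidx
  have hG0 : (0 : ℝ) ≤ (Nat.card G : ℝ) ^ ε := Real.rpow_nonneg (Nat.cast_nonneg _) _
  by_cases hbig : (Fintype.card R : ℝ) ^ ε ≤ #U
  · have hw : ∃ y ∈ U, ∑ l, β l * Ψ (a' l) y ≠ 0 := by
      refine ⟨u 1, hmem 1, ?_⟩
      simp only [hval]
      simpa using hx0
    have h3 := H R L U hF hbig (fun l => Ψ (a' l)) β hw
    set F := U.filter fun y => ∑ l, β l * Ψ (a' l) y ≠ 0 with hFdef
    have hFT : #F ≤ Nat.card T := by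
      have hin : ∀ y : F, ∑ l, β l * χ (cj hA.normal
          (QuotientGroup.mk ((s y : G) * g0) : G ⧸ cz A).out (a l)) ≠ 0 := by
        intro y
        obtain ⟨hy1, hy2⟩ := mem_filter.1 y.2
        simp only [count_cj, ← hval, hs _ hy1]
        exact hy2
      have hinj : Function.Injective (fun y : F => (⟨_, hin y⟩ : T)) := by
        intro y y' e
        have e1 := QuotientGroup.eq.1 (congrArg Subtype.val e)
        have e2 : (((s y)⁻¹ * s y' : N) : G) ∈ cz A := by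
          have := (inferInstance : (cz A).Normal).conj_mem _ e1 g0
          have e3 : g0 * (((s y : G) * g0)⁻¹ * ((s y' : G) * g0)) * g0⁻¹
              = (((s y)⁻¹ * s y' : N) : G) := by
            simp only [Subgroup.coe_mul, Subgroup.coe_inv]
            group
          rwa [e3] at this
        have e4 := (hk _ _).2 e2
        rw [hs _ (mem_filter.1 y.2).1, hs _ (mem_filter.1 y'.2).1] at e4
        exact Subtype.ext e4
      have := Nat.card_le_card_of_injective _ hinj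
      rwa [Nat.card_eq_fintype_card, Fintype.card_coe] at this
    have hFT' : (#F : ℝ) ≤ Nat.card T := by exact_mod_cast hFT
    calc min c0 1 * (((cz A).relIndex N : ℕ) : ℝ) ≤ c0 * #U :=
          mul_le_mul (min_le_left _ _) hidx' (Nat.cast_nonneg _) hc0.le
      _ ≤ (Fintype.card R : ℝ) ^ ε * #F := by convert h3
      _ ≤ (Nat.card G : ℝ) ^ ε * Nat.card T :=
          mul_le_mul hRG hFT' (Nat.cast_nonneg _) hG0
  · calc min c0 1 * (((cz A).relIndex N : ℕ) : ℝ) ≤ 1 * #U :=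
          mul_le_mul (min_le_right _ _) hidx' (Nat.cast_nonneg _) one_pos.le
      _ ≤ (Nat.card G : ℝ) ^ ε * 1 := by
          rw [one_mul, mul_one]; exact (not_le.1 hbig).le.trans hRG
      _ ≤ (Nat.card G : ℝ) ^ ε * Nat.card T := mul_le_mul_of_nonneg_left hT1 hG0

end Pool.Agent.Work.MP_11a08a_al.Fr
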