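import Pool.Agent.Work.MP_11a08a_al.Fr.Ex

/-!
The acting group is cyclic.
-/

set_option autoImplicit false

namespace Pool.Agent.Work.MP_11a08a_al.Fr

theorem cyc_char {G : Type} [Group G] [Finite G] (A : Subgroup G)
    (hc : ∀ a ∈ A, ∀ b ∈ A, a * b = b * a) (a : A) (ha : a ≠ 1) :
    ∃ χ : A →* ℂ, ∃ a, χ a ≠ 1 := by
  let : CommGroup A :=
    { (inferInstance : Group A) with
      mul_comm := fun x y => Subtype.ext (hc _ x.2 _ y.2) }
  obtain ⟨φ, hφ⟩ := CommGroup.exists_apply_ne_one_of_hasEnoughRootsOfUnity A ℂ ha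
  refine ⟨(Units.coeHom ℂ).comp φ, a, fun h => hφ ?_⟩
  exact Units.ext h

theorem cyc_gen {G F : Type} [Group G] [Finite G] [CommRing F] [IsDomain F] (φ : G →* F) :
    ∃ g₀ : G, ∀ g : G, ∃ k : ℕ, φ ((g₀ ^ k)⁻¹ * g) = 1 := by
  let ψ : G →* Fˣ := φ.toHomUnits
  have : Finite ψ.range := Finite.of_surjective _ ψ.rangeRestrict_surjective
  have : IsCyclic ψ.range :=
    isCyclic_of_injective_ringHom ((Units.coeHom F).comp ψ.range.subtype)
      (Units.val_injective.comp Subtype.val_injective)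
  obtain ⟨x, hx⟩ := IsCyclic.exists_monoid_generator (α := ψ.range)
  obtain ⟨g₀, hg₀⟩ := x.2
  refine ⟨g₀, fun g => ?_⟩
  obtain ⟨k, hk⟩ := hx ⟨ψ g, g, rfl⟩
  refine ⟨k, ?_⟩
  have h1 : ψ g₀ ^ k = ψ g := by
    rw [hg₀]
    exact congrArg Subtype.val hk
  have h2 : ψ ((g₀ ^ k)⁻¹ * g) = 1 := by
    rw [map_mul, map_inv, map_pow, h1, inv_mul_cancel]
  exact congrArg Units.val h2

theorem cyc (h : StmtRing) : StmtCyc := by
  intro G _ _ A hA
  by_cases hne : ∃ a : A, a ≠ 1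
  · obtain ⟨a, ha⟩ := hne
    obtain ⟨χ, hχ⟩ := cyc_char A hA.comm a ha
    obtain ⟨R, _, _, _, u, Ψ, hR, -, hu, h1, -⟩ := h G A hA ℂ χ hχ
    obtain ⟨m, hm⟩ := Ideal.exists_maximal R
    have := hm.isPrime
    obtain ⟨g₀, hg₀⟩ := cyc_gen ((Ideal.Quotient.mk m).toMonoidHom.comp u)
    refine ⟨g₀, fun g => ?_⟩
    obtain ⟨k, hk⟩ := hg₀ g
    refine ⟨k, (h1 _).1 ?_⟩
    by_contra hn
    have hun := hu ((g₀ ^ k)⁻¹ * g) 1 (by rw [map_one]; exact hn)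
    rw [map_one] at hun
    have hmem : u ((g₀ ^ k)⁻¹ * g) - 1 ∈ m := by
      rw [← Ideal.Quotient.eq, map_one]
      exact hk
    exact hm.ne_top (Ideal.eq_top_of_isUnit_mem m hmem hun)
  · refine ⟨1, fun g => ⟨0, fun a ha => ?_⟩⟩
    have : (⟨a, ha⟩ : A) = 1 := by
      by_contra hn
      exact hne ⟨_, hn⟩
    have h2 : a = 1 := congrArg Subtype.val this
    rw [h2, mul_one, one_mul]

end Pool.Agent.Work.MP_11a08a_al.Fr
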