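import Pool.Agent.Work.MP_11a08a_al.Cp.Defs

/-!
Definitions and statements for metabelian Frobenius groups over every field
(paper: team store `h73_11a08a_frob.md`, extending `h60_11a08a_core.md`).
-/

set_option autoImplicit false

open Finset Filter
open scoped Pointwise

namespace Pool.Agent.Work.MP_11a08a_al.Fr

open Pool.Agent.Work.MP_11a08a_al.Cp (Most trk)

/-- `U` is a group of units whose differences are units. -/
structure Frob {R : Type} [CommRing R] (U : Finset R) : Prop where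
  one : (1 : R) ∈ U
  mul : ∀ u ∈ U, ∀ v ∈ U, u * v ∈ U
  inv : ∀ u ∈ U, ∃ v ∈ U, u * v = 1
  dif : ∀ u ∈ U, ∀ v ∈ U, u ≠ v → IsUnit (u - v)

/-- The kernel of the character contains no nonzero submodule. -/
def Faith (R : Type) {M K : Type} [CommRing R] [AddCommGroup M] [Module R M] [Field K]
    (θ : AddChar M K) : Prop := ∀ t : M, t ≠ 0 → ∃ x : R, θ (x • t) ≠ 1

/-- The exponential sum over `U`. -/
noncomputable def phi {R M : Type} [CommRing R] [AddCommGroup M] [Module R M] (θ : AddChar M ℂ)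
    (U : Finset R) (t : M) : ℂ := ∑ u ∈ U, θ (u • t)

open Classical in
/-- The large spectrum. -/
noncomputable def spec {R M : Type} [CommRing R] [AddCommGroup M] [Module R M] [Fintype M]
    (θ : AddChar M ℂ) (U : Finset R) (α : ℝ) : Finset M :=
  univ.filter fun t => α * #U ≤ ‖phi θ U t‖

/-- Fourier decay. -/
def Dec {R : Type} [CommRing R] (U : Finset R) (τ : ℝ) : Prop :=
  ∀ s : AddChar R ℂ, (∃ x, s x ≠ 1) → ‖∑ u ∈ U, s u‖ ≤ τ * #U

open Classical in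
/-- `U` does not concentrate on a proper subring. -/
def Spread {R : Type} [CommRing R] (U : Finset R) (τ : ℝ) : Prop :=
  ∀ Q : Subring R, Q ≠ ⊤ → (#(U.filter fun u => u ∈ Q) : ℝ) ≤ τ * #U

/-- The half sum. -/
def half {R : Type} [CommRing R] {k : ℕ} (w : Fin k ⊕ Fin k → R) : R := ∑ i, w (Sum.inl i)

/-- Tuples from `U` whose two halves have the same sum. -/
def sol {R : Type} [CommRing R] [DecidableEq R] (U : Finset R) (k : ℕ) :
    Finset (Fin k ⊕ Fin k → R) :=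
  (Fintype.piFinset fun _ => U).filter fun w => half w = ∑ i, w (Sum.inr i)

/-- One step of ring operations. -/
def op {R : Type} [CommRing R] [DecidableEq R] (S : Finset R) : Finset R := S * S - S * S

/-- Local Parseval, invariance, and statistical closure of the spectrum under differences. -/
def StmtSpec : Prop :=
  ∀ (R M : Type) [CommRing R] [Fintype R] [DecidableEq R] [AddCommGroup M] [Module R M] [Fintype M]
    [DecidableEq M] (θ : AddChar M ℂ) (U : Finset R), Frob U → Faith R θ →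
    (∀ α : ℝ, 0 < α → ∀ t m : M, m ≠ 0 →
      (#(univ.filter fun x : R => t + x • m ∈ spec θ U α) : ℝ) * (α ^ 2 * #U) ≤ Fintype.card R) ∧
    (∀ t, ∀ u ∈ U, phi θ U (u • t) = phi θ U t) ∧
    ∀ α : ℝ, 0 < α → α ^ 2 / 2 * (#(spec θ U α) : ℝ) ^ 2 ≤
      #((spec θ U α ×ˢ spec θ U α).filter fun p => p.1 - p.2 ∈ spec θ U (α ^ 2 / 2))

/-- A dense part of an invariant set has a small sum set with many of its dilates. -/
def StmtInv : Prop :=
  ∀ (R M : Type) [CommRing R] [DecidableEq R] [AddCommGroup M] [Module R M] [DecidableEq M]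
    (U : Finset R) (A A' : Finset M) (ρ D : ℝ), Frob U →
    (∀ u ∈ U, ∀ a ∈ A, u • a ∈ A) → A' ⊆ A → A'.Nonempty → 0 < ρ → ρ * #A ≤ #A' → 1 ≤ D →
    (#(A' - A') : ℝ) ≤ D * #A' →
    ∃ B ⊆ U, ρ / 2 * #U ≤ #B ∧ ∀ u ∈ B, (#(A' + u • A') : ℝ) ≤ 2 * D ^ 4 / ρ * #A'

/-- The dilates with a small sum set are closed under products and differences. -/
def StmtSP3 : Prop :=
  ∀ (R M : Type) [CommRing R] [AddCommGroup M] [Module R M] [DecidableEq M] (A : Finset M)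
    (D X Y : ℝ) (x y : R), A.Nonempty → 1 ≤ D → 1 ≤ X → 1 ≤ Y →
    (#(A - A) : ℝ) ≤ D * #A → (#(A + x • A) : ℝ) ≤ X * #A → (#(A + y • A) : ℝ) ≤ Y * #A →
    (#(A + (x * y) • A) : ℝ) ≤ D ^ 8 * X ^ 2 * Y ^ 2 * #A ∧
      (#(A + (x - y) • A) : ℝ) ≤ D ^ 8 * X ^ 2 * Y ^ 2 * #A

/-- A set that does not grow fills a subring. -/
def StmtGrow : Prop :=
  ∀ (R : Type) [CommRing R] [Fintype R] [DecidableEq R] (B S : Finset R) (W : ℝ), B ⊆ S →
    (0 : R) ∈ S → (1 : R) ∈ S → (∀ b ∈ B, ∀ b' ∈ B, b ≠ b' → IsUnit (b - b')) → 2 * W < #B →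
    (#(op (op (op S))) : ℝ) ≤ W * #S →
    ∃ Q : Subring R, (∀ b ∈ B, b ∈ Q) ∧ (Nat.card Q : ℝ) ≤ 2 * W * #S

/-- Averaging the additive energy over dilates. -/
def StmtEn : Prop :=
  ∀ (R M : Type) [CommRing R] [Fintype R] [DecidableEq R] [AddCommGroup M] [Module R M]
    [DecidableEq M] (A : Finset M) (S : Finset R) (ρ : ℝ), A.Nonempty → S.Nonempty → 0 ≤ ρ →
    (∀ a m : M, m ≠ 0 → (#(univ.filter fun x : R => a + x • m ∈ A) : ℝ) ≤ ρ * Fintype.card R) →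
    ∃ x ∈ S, (#A : ℝ) ^ 2 * #S ≤ Fintype.card R * (1 + ρ * #A) * #(A + x • A)

/-- The sum-product estimate. -/
def StmtSP : Prop :=
  ∀ J : ℕ, ∃ c : ℕ, ∀ (R M : Type) [CommRing R] [Fintype R] [DecidableEq R] [AddCommGroup M]
    [Module R M] [DecidableEq M] (A : Finset M) (B : Finset R) (W μ ρ : ℝ), A.Nonempty → 1 ≤ W →
    1 ≤ μ → 0 ≤ ρ → (#(A - A) : ℝ) ≤ W * #A → (∀ u ∈ B, (#(A + u • A) : ℝ) ≤ W * #A) →
    (∀ b ∈ B, ∀ b' ∈ B, b ≠ b' → IsUnit (b - b')) →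
    (∀ Q : Subring R, (∀ b ∈ B, b ∈ Q) → Q = ⊤) → 2 * μ < #B → (Fintype.card R : ℝ) ≤ μ ^ J →
    (∀ a m : M, m ≠ 0 → (#(univ.filter fun x : R => a + x • m ∈ A) : ℝ) ≤ ρ * Fintype.card R) →
    (#A : ℝ) ≤ 2 * μ * W ^ c * (1 + ρ * #A)

/-- The exponential sum bound at a scale where the spectrum does not grow. -/
def StmtBGK0 : Prop :=
  ∀ J : ℕ, ∃ c : ℕ, ∀ (R M : Type) [CommRing R] [Fintype R] [DecidableEq R] [AddCommGroup M]
    [Module R M] [Fintype M] [DecidableEq M] (θ : AddChar M ℂ) (U : Finset R) (lam α μ : ℝ),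
    Frob U → Faith R θ → 2 ^ 13 ≤ lam → 0 < α → 1 / lam ≤ α ^ 2 / 2 →
    (∃ t ∈ spec θ U α, t ≠ 0) → (#(spec θ U (α ^ 2 / 2)) : ℝ) ≤ lam * #(spec θ U α) → 1 ≤ μ →
    (Fintype.card R : ℝ) ≤ μ ^ J → 2 * μ * lam ^ 2 ≤ #U → Spread U (1 / lam ^ 2) →
    (#U : ℝ) ≤ μ * lam ^ c

/-- The exponential sum bound, module form. -/
def StmtBGK1 : Prop :=
  ∀ η : ℝ, 0 < η → ∃ δ : ℝ, 0 < δ ∧ ∃ N₀ : ℕ, ∀ (R M : Type) [CommRing R] [Fintype R]
    [DecidableEq R] [AddCommGroup M] [Module R M] [Fintype M] [DecidableEq M] (θ : AddChar M ℂ)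
    (U : Finset R), N₀ ≤ Fintype.card R → Fintype.card M ≤ Fintype.card R → Frob U → Faith R θ →
    (Fintype.card R : ℝ) ^ η ≤ #U → Spread U ((Fintype.card R : ℝ) ^ (-η)) →
    ∀ t, t ≠ 0 → ‖phi θ U t‖ ≤ (Fintype.card R : ℝ) ^ (-δ) * #U

/-- The exponential sum bound. -/
def StmtBGK : Prop :=
  ∀ η : ℝ, 0 < η → ∃ δ : ℝ, 0 < δ ∧ ∃ N₀ : ℕ, ∀ (R : Type) [CommRing R] [Fintype R]
    [DecidableEq R] (U : Finset R), N₀ ≤ Fintype.card R → Frob U →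
    (Fintype.card R : ℝ) ^ η ≤ #U → Spread U ((Fintype.card R : ℝ) ^ (-η)) →
    Dec U ((Fintype.card R : ℝ) ^ (-δ))

/-- Indices of proper ideals and subrings; units of subrings. -/
def StmtIdx : Prop :=
  ∀ (R : Type) [CommRing R] [Fintype R],
    (∀ (B : Finset R) (I : Ideal R), (∀ b ∈ B, ∀ b' ∈ B, b ≠ b' → IsUnit (b - b')) → I ≠ ⊤ →
      #B * Nat.card I ≤ Fintype.card R) ∧
    (∀ (B : Finset R) (Q : Subring R), (∀ b ∈ B, ∀ b' ∈ B, b ≠ b' → IsUnit (b - b')) → Q ≠ ⊤ →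
      (∀ b ∈ B, b ∈ Q) → #B * Nat.card Q ≤ Fintype.card R) ∧
    ∀ (Q : Subring R) (x : Q), IsUnit (x : R) → IsUnit x

/-- The number of solutions, and the law of the half sum. -/
def StmtCnt2 : Prop :=
  ∀ (R : Type) [CommRing R] [Fintype R] [DecidableEq R] (U : Finset R) (k : ℕ) (τ : ℝ), 0 ≤ τ →
    (Fintype.card R : ℝ) * τ ^ k ≤ 1 → Dec U τ →
    (#U : ℝ) ^ (2 * k) ≤ Fintype.card R * #(sol U k) ∧
    ∀ Z : Finset R,
      (#((sol U k).filter fun w => half w ∈ Z) : ℝ) * Fintype.card R ≤ 4 * #Z * #(sol U k)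

/-- A second linear relation is rare. -/
def StmtCnt1 : Prop :=
  ∀ (R M : Type) [CommRing R] [Fintype R] [DecidableEq R] [AddCommGroup M] [Module R M] [Finite M]
    [DecidableEq M] (U : Finset R) (k : ℕ) (τ : ℝ), Frob U → 0 ≤ τ →
    (Fintype.card R : ℝ) * τ ^ k ≤ 1 → Dec U τ →
    ∀ (c : Fin k ⊕ Fin k → M) (i₀ : Fin k ⊕ Fin k), c i₀ = 0 → c ≠ 0 →
      (#((sol U k).filter fun w => ∑ i, w i • c i = 0) : ℝ) * (Fintype.card R : ℝ) ^ 2 ≤
        (Fintype.card R / #U + 2 * k * Fintype.card R * τ + 1) * (#U : ℝ) ^ (2 * k)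

open Classical in
/-- A sparse sum of characters with ratios of large order has few zeros. -/
def StmtSR : Prop :=
  ∀ (N : ℕ) (ε : ℝ), 0 < ε → ∃ L : ℕ, ∀ (R : Type) [AddCommGroup R] [Fintype R] (K : Type)
    [Field K] (ι : Type) (T : Finset ι) (e : ι → AddChar R K) (c : ι → K), #T ≤ N →
    (∀ i ∈ T, ∀ j ∈ T, i ≠ j → ∀ m : ℕ, 1 ≤ m → m ≤ L → ∃ z, e i z ^ m ≠ e j z ^ m) →
    (∃ i ∈ T, c i ≠ 0) →
    (#(univ.filter fun z : R => ∑ i ∈ T, c i * e i z = 0) : ℝ) ≤ ε * Fintype.card R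

open Classical in
/-- Every pattern of values at torsion elements has positive density. -/
def StmtPat : Prop :=
  ∀ (R M K : Type) [CommRing R] [Fintype R] [DecidableEq R] [AddCommGroup M] [Module R M] [Field K]
    (χ : AddChar M K) (U : Finset R) (τ : ℝ) (q m : ℕ) (t : Fin q → M) (z : R), 0 < m → 0 ≤ τ →
    Dec U τ → (∀ l, m • t l = 0) →
    (1 / (m : ℝ) ^ q - τ) * #U ≤ #(U.filter fun u => ∀ l, χ (u • t l) = χ (z • t l))

/-- No integer relation holds almost everywhere. -/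
def Ind (𝒰 : Ultrafilter ℕ) {M : ℕ → Type} [∀ n, AddCommGroup (M n)] {I : Type} [Fintype I]
    (v : I → ∀ n, M n) : Prop :=
  ∀ l : I → ℤ, l ≠ 0 → ∀ᶠ n in (𝒰 : Filter ℕ), ∑ x, l x • v x n ≠ 0

/-- Integer bases modulo torsion. -/
def StmtBasis : Prop :=
  ∀ (𝒰 : Ultrafilter ℕ) (M : ℕ → Type) [∀ n, AddCommGroup (M n)] (q : ℕ) (a : Fin q → ∀ n, M n),
    ∃ (g : ℕ) (b : Fin g → ∀ n, M n) (d : Fin q → Fin g → ℤ) (m : ℕ) (t : Fin q → ∀ n, M n),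
      g ≤ q ∧ 0 < m ∧ Ind 𝒰 b ∧
      ∀ l, ∀ᶠ n in (𝒰 : Filter ℕ), a l n = ∑ j, d l j • b j n + t l n ∧ m • t l n = 0

/-- Independent shifts. -/
def StmtShift : Prop :=
  ∀ (R M : Type) [CommRing R] [DecidableEq R] [AddCommGroup M] [Module R M] [DecidableEq M]
    (U : Finset R) (s : ℕ), Frob U →
    (∀ c : Fin s → M, c ≠ 0 →
      #((Fintype.piFinset fun _ : Fin s => U).filter fun w => ∑ i, w i • c i = 0) * #U ≤ #U ^ s) ∧
    ∀ (S : Finset R) (σ : ℝ), S ⊆ U → σ * #U ≤ #S →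
      #((Fintype.piFinset fun _ : Fin s => U).filter fun w =>
        2 * (1 - σ) ^ s * #U < (#(U.filter fun u => ∀ i, w i * u ∉ S) : ℝ)) * 2 ≤ #U ^ s

section Ultra

variable (𝒰 : Ultrafilter ℕ) {R M K : ℕ → Type} [∀ n, CommRing (R n)] [∀ n, Fintype (R n)]
  [∀ n, DecidableEq (R n)] [∀ n, AddCommGroup (M n)] [∀ n, Module (R n) (M n)]
  [∀ n, DecidableEq (M n)] [∀ n, Field (K n)] (χ : ∀ n, AddChar (M n) (K n))
  (U : ∀ n, Finset (R n)) {L : Type} [Field L] (π : (∀ n, K n) →+* L)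

/-- The data of a sequence of counterexamples. -/
structure Dat (k : ℕ) : Prop where
  le : (𝒰 : Filter ℕ) ≤ atTop
  fai : ∀ n, Faith (R n) (χ n)
  grp : ∀ n, Frob (U n)
  surj : Function.Surjective π
  ker : ∀ x, π x = 0 ↔ ∀ᶠ n in (𝒰 : Filter ℕ), x n = 0
  hk : 1 ≤ k
  ne : ∀ n, (sol (U n) k).Nonempty
  c2 : ∀ n, ∀ Z : Finset (R n), (#((sol (U n) k).filter fun w => half w ∈ Z) : ℝ) *
    Fintype.card (R n) ≤ 4 * #Z * #(sol (U n) k)
  c1 : ∀ ε : ℝ, 0 < ε → ∀ᶠ n in (𝒰 : Filter ℕ), ∀ (c : Fin k ⊕ Fin k → M n) i₀,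
    c i₀ = 0 → c ≠ 0 →
      (#((sol (U n) k).filter fun w => ∑ i, w i • c i = 0) : ℝ) ≤ ε * #(sol (U n) k)
  big : Tendsto (fun n => #(U n)) 𝒰 atTop
  dec : ∀ ε : ℝ, 0 < ε → ∀ᶠ n in (𝒰 : Filter ℕ), Dec (U n) ε

/-- The exponential map. -/
noncomputable def ex (x : ∀ n, M n) : L := π fun n => χ n (x n)

/-- The statement of the recursion. -/
def Claim (K₀ : Subfield L) (g m : ℕ) (c : ℝ) : Prop :=
  ∃ (I : Type) (_ : Fintype I) (v : I → ∀ n, M n), Ind 𝒰 v ∧ Fintype.card I ≤ g ∧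
    Most 𝒰 U c fun u =>
      trk K₀ (Set.range fun x => ex χ π fun n => u n • v x n) + m ≤ Fintype.card I

end Ultra

/-- Genericity of the half sum. -/
def StmtGen : Prop :=
  ∀ (𝒰 : Ultrafilter ℕ) (R M K : ℕ → Type) [∀ n, CommRing (R n)] [∀ n, Fintype (R n)]
    [∀ n, DecidableEq (R n)] [∀ n, AddCommGroup (M n)] [∀ n, Module (R n) (M n)]
    [∀ n, DecidableEq (M n)] [∀ n, Field (K n)] (χ : ∀ n, AddChar (M n) (K n))
    (U : ∀ n, Finset (R n)) (L : Type) [Field L] (π : (∀ n, K n) →+* L) (k : ℕ),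
    Dat 𝒰 χ U π k → ∀ (K₀ : Subfield L) (I : Type) [Fintype I] (v : I → ∀ n, M n), Ind 𝒰 v →
    ∀ (Q : MvPolynomial I K₀) (m : ℕ) (ε : ℝ), 0 < ε →
    Most 𝒰 (fun n => sol (U n) k) ε fun w => Most 𝒰 U (1 / (m + 1)) fun u =>
      MvPolynomial.aeval (fun x => ex χ π fun n => (half (w n) * u n) • v x n) Q = 0 → Q = 0

/-- The step of the recursion. -/
def StmtStep : Prop :=
  ∀ (𝒰 : Ultrafilter ℕ) (R M K : ℕ → Type) [∀ n, CommRing (R n)] [∀ n, Fintype (R n)]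
    [∀ n, DecidableEq (R n)] [∀ n, AddCommGroup (M n)] [∀ n, Module (R n) (M n)]
    [∀ n, DecidableEq (M n)] [∀ n, Field (K n)] (χ : ∀ n, AddChar (M n) (K n))
    (U : ∀ n, Finset (R n)) (L : Type) [Field L] (π : (∀ n, K n) →+* L) (k : ℕ),
    Dat 𝒰 χ U π k → ∀ (K₀ : Subfield L), Countable K₀ → ∀ (g m : ℕ) (c : ℝ), 0 < c →
    Claim 𝒰 χ U π K₀ g m c → Claim 𝒰 χ U π K₀ ((2 * k - 1) * g) (2 * k * m) ((2 * k + 1) * c)

open Classical in
/-- The base of the recursion. -/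
def StmtBase : Prop :=
  ∀ (𝒰 : Ultrafilter ℕ) (R M K : ℕ → Type) [∀ n, CommRing (R n)] [∀ n, Fintype (R n)]
    [∀ n, DecidableEq (R n)] [∀ n, AddCommGroup (M n)] [∀ n, Module (R n) (M n)]
    [∀ n, DecidableEq (M n)] [∀ n, Field (K n)] (χ : ∀ n, AddChar (M n) (K n))
    (U : ∀ n, Finset (R n)) (L : Type) [Field L] (π : (∀ n, K n) →+* L) (k : ℕ),
    Dat 𝒰 χ U π k → ∀ (q : ℕ) (a : Fin q → ∀ n, M n) (β : Fin q → ∀ n, K n) (z : ∀ n, R n),
    (∀ n, ∑ l, β l n * χ n (z n • a l n) ≠ 0) →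
    (∀ ε : ℝ, 0 < ε → ∀ᶠ n in (𝒰 : Filter ℕ),
      (#((U n).filter fun u => ∑ l, β l n * χ n (u • a l n) ≠ 0) : ℝ) ≤ ε * #(U n)) →
    ∃ K₀ : Subfield L, Countable K₀ ∧ ∃ σ : ℝ, 0 < σ ∧ σ < 1 ∧
      ∀ s : ℕ, Claim 𝒰 χ U π K₀ (q * s) 1 (3 * (1 - σ) ^ s)

/-- The numerical end of the recursion. -/
def StmtNum : Prop :=
  ∀ (q k : ℕ) (σ : ℝ), 1 ≤ k → 0 < σ → σ < 1 → ∃ s D : ℕ,
    q * s * (2 * k - 1) ^ D < (2 * k) ^ D ∧ ((2 * k + 1 : ℝ)) ^ D * (3 * (1 - σ) ^ s) < 1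

open Classical in
/-- The core, module form. -/
def StmtNT0 : Prop :=
  ∀ δ : ℝ, 0 < δ → ∀ q : ℕ, ∃ c : ℝ, 0 < c ∧ ∃ N₀ : ℕ, ∀ (R M K : Type) [CommRing R] [Fintype R]
    [DecidableEq R] [AddCommGroup M] [Module R M] [Finite M] [Field K] (χ : AddChar M K)
    (U : Finset R), N₀ ≤ Fintype.card R → Frob U → Faith R χ → (Fintype.card R : ℝ) ^ δ ≤ #U →
    Dec U ((Fintype.card R : ℝ) ^ (-δ)) → ∀ (a : Fin q → M) (β : Fin q → K),
      (∃ z : R, ∑ l, β l * χ (z • a l) ≠ 0) →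
      c * #U ≤ #(U.filter fun u => ∑ l, β l * χ (u • a l) ≠ 0)

open Classical in
/-- The core for a group that is spread out. -/
def StmtNT1 : Prop :=
  ∀ η : ℝ, 0 < η → ∀ q : ℕ, ∃ c : ℝ, 0 < c ∧ ∃ N₀ : ℕ, ∀ (R K : Type) [CommRing R] [Fintype R]
    [DecidableEq R] [Field K] (U : Finset R), N₀ ≤ Fintype.card R → Frob U →
    (Fintype.card R : ℝ) ^ η ≤ #U → Spread U ((Fintype.card R : ℝ) ^ (-η)) →
    ∀ (ψ : Fin q → AddChar R K) (β : Fin q → K), (∃ z, ∑ l, β l * ψ l z ≠ 0) →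
      c * #U ≤ #(U.filter fun u => ∑ l, β l * ψ l u ≠ 0)

open Classical in
/-- A subring in which the group is spread out. -/
def StmtSub : Prop :=
  ∀ (R : Type) [CommRing R] [Fintype R] [DecidableEq R] (U : Finset R) (η ε : ℝ), 0 < ε →
    2 * ε ≤ η → ε ≤ 1 → Frob U → (Fintype.card R : ℝ) ^ η ≤ #U →
    ∃ (R' : Type) (_ : CommRing R') (_ : Fintype R') (_ : DecidableEq R') (f : R' →+* R)
      (U' : Finset R'), Function.Injective f ∧ Frob U' ∧ (∀ u ∈ U', f u ∈ U) ∧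
      (#U : ℝ) ≤ (Fintype.card R : ℝ) ^ ε * #U' ∧ (Fintype.card R' : ℝ) ^ (ε * η / 4) ≤ #U' ∧
      Spread U' ((Fintype.card R' : ℝ) ^ (-(ε * η / 4)))

open Classical in
/-- A sparse sum of characters that does not vanish on `U` is nonzero on a large part of it. -/
def StmtNT : Prop :=
  ∀ η ε : ℝ, 0 < η → 0 < ε → ∀ q : ℕ, ∃ c : ℝ, 0 < c ∧ ∀ (R K : Type) [CommRing R] [Fintype R]
    [DecidableEq R] [Field K] (U : Finset R), Frob U → (Fintype.card R : ℝ) ^ η ≤ #U →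
    ∀ (ψ : Fin q → AddChar R K) (β : Fin q → K), (∃ u ∈ U, ∑ l, β l * ψ l u ≠ 0) →
      c * #U ≤ (Fintype.card R : ℝ) ^ ε * #(U.filter fun u => ∑ l, β l * ψ l u ≠ 0)

/-- `A` is an abelian normal subgroup with centraliser `A Z(G)` on which `G` acts through an
abelian group without fixed points. -/
structure FrobG {G : Type} [Group G] (A : Subgroup G) : Prop where
  normal : A.Normal
  comm : ∀ a ∈ A, ∀ b ∈ A, a * b = b * a
  cen : ∀ g : G, (∀ a ∈ A, g * a = a * g) → g ∈ A ⊔ Subgroup.center G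
  met : ∀ g g' : G, ∀ a ∈ A, g * g' * g⁻¹ * g'⁻¹ * a = a * (g * g' * g⁻¹ * g'⁻¹)
  fpf : ∀ g : G, ∀ a ∈ A, a ≠ 1 → g * a = a * g → ∀ b ∈ A, g * b = b * g

/-- The ring attached to a nontrivial character. -/
def StmtRing : Prop :=
  ∀ (G : Type) [Group G] [Finite G] (A : Subgroup G), FrobG A →
    ∀ (L : Type) [Field L] (χ : A →* L), (∃ a, χ a ≠ 1) →
    ∃ (R : Type) (_ : CommRing R) (_ : Fintype R) (_ : DecidableEq R) (u : G →* R)
      (Ψ : A → AddChar R L), Nontrivial R ∧ Fintype.card R ≤ Nat.card G ∧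
      (∀ g g', u g ≠ u g' → IsUnit (u g - u g')) ∧ (∀ g, u g = 1 ↔ ∀ a ∈ A, g * a = a * g) ∧
      (∀ y, (∀ a, Ψ a y = 1) → y = 0) ∧
      ∀ (a b : A) (g : G), (b : G) = g⁻¹ * a * g → Ψ a (u g) = χ b

/-- The acting group is cyclic. -/
def StmtCyc : Prop :=
  ∀ (G : Type) [Group G] [Finite G] (A : Subgroup G), FrobG A →
    ∃ g₀ : G, ∀ g : G, ∃ k : ℕ, ∀ a ∈ A, (g₀ ^ k)⁻¹ * g * a = a * ((g₀ ^ k)⁻¹ * g)

/-- A common eigenvector, and the case of the trivial character. -/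
def StmtEig : Prop :=
  ∀ (L G V : Type) [Field L] [IsAlgClosed L] [Group G] [Finite G] [AddCommGroup V] [Module L V]
    [FiniteDimensional L V] (σ : Representation L G V) (A : Subgroup G), FrobG A →
    (∀ W : Submodule L V, (∀ g, ∀ v ∈ W, σ g v ∈ W) → W = ⊥ ∨ W = ⊤) →
    (∀ z ∈ Subgroup.center G, ∃ ω : L, ∀ v, σ z v = ω • v) ∧
    (Module.finrank L V ≤ 1 ∨
      ∃ (χ : A →* L) (v : V), (∃ a, χ a ≠ 1) ∧ v ≠ 0 ∧ ∀ a : A, σ a v = χ a • v)

/-- The irreducible representations are monomial. -/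
def StmtStruct : Prop :=
  ∀ (L G V : Type) [Field L] [IsAlgClosed L] [Group G] [Finite G] [AddCommGroup V] [Module L V]
    [FiniteDimensional L V] (σ : Representation L G V) (A : Subgroup G), FrobG A →
    (∀ W : Submodule L V, (∀ g, ∀ v ∈ W, σ g v ∈ W) → W = ⊥ ∨ W = ⊤) →
    Module.finrank L V ≤ 1 ∨
    ∃ (R : Type) (_ : CommRing R) (_ : Fintype R) (_ : DecidableEq R) (U : Finset R)
      (b : Module.Basis U L V) (u : G → R) (π : G → U → U) (κ : G → U → L),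
      Fintype.card R ≤ Nat.card G ∧ Frob U ∧ (∀ g, u g ∈ U) ∧
      (∀ g x, (π g x : R) = u g * x) ∧ (∀ g x, σ g (b x) = κ g x • b (π g x)) ∧
      (∀ g x, κ g x ≠ 0) ∧
      ∀ g g', u g = u g' → ∃ (ψ : AddChar R L) (ω : L), ∀ x : U, κ g' x = ω * ψ x * κ g x

/-- The rank bound over algebraically closed fields. -/
def StmtRep : Prop :=
  ∀ (δ : ℝ), 0 < δ → ∀ q : ℕ, ∃ c : ℝ, 0 < c ∧
    ∀ (L G V : Type) [Field L] [IsAlgClosed L] [Group G] [Finite G] [AddCommGroup V] [Module L V]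
      [FiniteDimensional L V] (σ : Representation L G V) (A : Subgroup G), FrobG A →
      (∀ W : Submodule L V, (∀ g, ∀ v ∈ W, σ g v ∈ W) → W = ⊥ ∨ W = ⊤) →
      ∀ (h : Fin q → G) (β : Fin q → L), ∑ l, β l • σ (h l) ≠ 0 →
        (Module.finrank L V : ℝ) ≤
          c * (Nat.card G : ℝ) ^ δ * Module.finrank L (LinearMap.range (∑ l, β l • σ (h l)))

/-- The case of prime order. -/
def StmtPrime : Prop :=
  ∀ (G : Type) [Group G] [Finite G] (A : Subgroup G), A.Normal → (Nat.card A).Prime →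
    (∀ g : G, (∀ a ∈ A, g * a = a * g) → g ∈ A ⊔ Subgroup.center G) → FrobG A

end Pool.Agent.Work.MP_11a08a_al.Fr
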