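import Pool.Agent.Work.MP_11a08a_al.Fr.Ex

/-!
Statements for Frobenius groups with abelian kernel whose complement has a metabelian subgroup of
bounded index.
-/

set_option autoImplicit false

open Finset
open scoped commutatorElement

namespace Pool.Agent.Work.MP_11a08a_al.Fr

/-- `A` is an abelian normal subgroup with centraliser `A Z(G)` on which `G` acts without fixed
points modulo the centraliser. -/
structure FrobK {G : Type} [Group G] (A : Subgroup G) : Prop where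
  normal : A.Normal
  comm : ∀ a ∈ A, ∀ b ∈ A, a * b = b * a
  cen : ∀ g : G, (∀ a ∈ A, g * a = a * g) → g ∈ A ⊔ Subgroup.center G
  fpf : ∀ g : G, ∀ a ∈ A, a ≠ 1 → g * a = a * g → ∀ b ∈ A, g * b = b * g

/-- The centraliser. -/
abbrev cz {G : Type} [Group G] (A : Subgroup G) : Subgroup G := Subgroup.centralizer (A : Set G)

/-- The conjugate `g⁻¹ a g`. -/
def cj {G : Type} [Group G] {A : Subgroup G} (hA : A.Normal) (g : G) (a : A) : A :=
  ⟨g⁻¹ * a * g, hA.conj_mem' a a.2 g⟩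

/-- `N` contains the centraliser and is abelian modulo it. -/
def AbMod {G : Type} [Group G] (A N : Subgroup G) : Prop :=
  cz A ≤ N ∧ ∀ x ∈ N, ∀ y ∈ N, ⁅x, y⁆ ∈ cz A

theorem mem_cz {G : Type} [Group G] {A : Subgroup G} {g : G} :
    g ∈ cz A ↔ ∀ a ∈ A, g * a = a * g :=
  ⟨fun h a ha => (Subgroup.mem_centralizer_iff.1 h a ha).symm,
    fun h => Subgroup.mem_centralizer_iff.2 fun a ha => (h a ha).symm⟩

theorem FrobK.res {G : Type} [Group G] {A N : Subgroup G} (h : FrobK A) (hN : AbMod A N) :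
    FrobG (A.subgroupOf N) := by
  have hA : ∀ a ∈ A, a ∈ N := fun a ha => hN.1 (mem_cz.2 (h.comm a ha))
  have := h.normal
  refine ⟨inferInstance, fun a ha b hb => Subtype.ext (h.comm _ ha _ hb), fun g hg => ?_,
    fun g g' a ha => Subtype.ext (mem_cz.1 (hN.2 _ g.2 _ g'.2) _ ha),
    fun g a ha h1 h2 b hb => Subtype.ext (h.fpf g a ha (fun e => h1 (Subtype.ext e))
      (congrArg Subtype.val h2) b hb)⟩
  have h1 := h.cen g fun a ha => congrArg Subtype.val (hg ⟨a, hA a ha⟩ ha)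
  rw [← SetLike.mem_coe, Subgroup.normal_mul] at h1
  obtain ⟨a, ha, z, hz, e⟩ := h1
  have hz' : z ∈ N := hN.1 (mem_cz.2 fun b _ => (Subgroup.mem_center_iff.1 hz b).symm)
  have e' : g = ⟨a, hA a ha⟩ * ⟨z, hz'⟩ := Subtype.ext e.symm
  rw [e']
  exact mul_mem (Subgroup.mem_sup_left ha) (Subgroup.mem_sup_right
    (Subgroup.mem_center_iff.2 fun b => Subtype.ext (Subgroup.mem_center_iff.1 hz b)))

/-- A maximal abelian subgroup above the derived subgroup, modulo `C`. -/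
def StmtAb1 : Prop :=
  ∀ (G : Type) [Group G] [Finite G] (C H : Subgroup G), C.Normal →
    (∀ x ∈ ⁅H, H⁆, ∀ y ∈ ⁅H, H⁆, ⁅x, y⁆ ∈ C) →
    ∃ H' N : Subgroup G, H ≤ H' ∧ C ≤ N ∧ N ≤ H' ∧ (∀ h ∈ H', ∀ x ∈ N, h * x * h⁻¹ ∈ N) ∧
      (∀ x ∈ N, ∀ y ∈ N, ⁅x, y⁆ ∈ C) ∧ ∀ h ∈ H', (∀ x ∈ N, ⁅h, x⁆ ∈ C) → h ∈ N

/-- Eigenvalues of a fixed point free operator of order `n` that is conjugate to its powers. -/
def StmtAb0 : Prop :=
  ∀ (r : ℕ) [Fact r.Prime] (W : Type) [AddCommGroup W] [Module (ZMod r) W] [Finite W] [Nontrivial W]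
    (T : Module.End (ZMod r) W) (J : Finset ℕ),
    (∀ i ∈ J, ∀ j ∈ J, i < j → Function.Injective ⇑(T ^ j - T ^ i)) →
    (∀ j ∈ J, ∃ S : W ≃ₗ[ZMod r] W, ∀ w, S (T w) = (T ^ j) (S w)) → 2 ^ #J ≤ Nat.card W

/-- A self-centralising abelian normal subgroup has logarithmic index. -/
def StmtAb2 : Prop :=
  ∀ (G : Type) [Group G] [Finite G] (A H N : Subgroup G), FrobK A → AbMod A N → N ≤ H →
    (∀ h ∈ H, ∀ x ∈ N, h * x * h⁻¹ ∈ N) → (∀ h ∈ H, (∀ x ∈ N, ⁅h, x⁆ ∈ cz A) → h ∈ N) →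
    2 ^ N.relIndex H ≤ 2 * Nat.card A

/-- A common eigenvector, and the case of the trivial character. -/
def StmtEig2 : Prop :=
  ∀ (L G V : Type) [Field L] [IsAlgClosed L] [Group G] [Finite G] [AddCommGroup V] [Module L V]
    [FiniteDimensional L V] (σ : Representation L G V) (A N : Subgroup G), FrobK A → AbMod A N →
    (∀ W : Submodule L V, (∀ g, ∀ v ∈ W, σ g v ∈ W) → W = ⊥ ∨ W = ⊤) →
    (∀ z ∈ Subgroup.center G, ∃ ω : L, ∀ v, σ z v = ω • v) ∧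
    (Module.finrank L V ≤ N.index ∨
      ∃ (χ : A →* L) (v : V), (∃ a, χ a ≠ 1) ∧ v ≠ 0 ∧ ∀ a : A, σ a v = χ a • v)

/-- The representation is monomial on the cosets of the centraliser. -/
def StmtStruct2 : Prop :=
  ∀ (L G V : Type) [Field L] [Group G] [Finite G] [AddCommGroup V] [Module L V]
    (σ : Representation L G V) (A : Subgroup G) (hA : FrobK A),
    (∀ W : Submodule L V, (∀ g, ∀ v ∈ W, σ g v ∈ W) → W = ⊥ ∨ W = ⊤) →
    (∀ z ∈ Subgroup.center G, ∃ ω : L, ∀ v, σ z v = ω • v) →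
    ∀ (χ : A →* L) (v : V), (∃ a, χ a ≠ 1) → v ≠ 0 → (∀ a : A, σ a v = χ a • v) →
    ∃ (b : Module.Basis (G ⧸ cz A) L V) (κ : G → G ⧸ cz A → L),
      (∀ g x, σ g (b x) = κ g x • b (g • x)) ∧ (∀ g x, κ g x ≠ 0) ∧
      ∀ g g', g⁻¹ * g' ∈ cz A → ∃ (a : A) (ω : L), ∀ x : G ⧸ cz A,
        κ g' x = ω * χ (cj hA.normal x.out a) * κ g x

/-- The number of cosets on which a sparse sum of conjugate character values is nonzero. -/
def StmtCount : Prop :=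
  ∀ ε : ℝ, 0 < ε → ∀ q : ℕ, ∃ c : ℝ, 0 < c ∧
    ∀ (L G : Type) [Field L] [Group G] [Finite G] (A N : Subgroup G) (hA : FrobK A), AbMod A N →
    ∀ (χ : A →* L) (a : Fin q → A) (β : Fin q → L), (∃ a, χ a ≠ 1) →
    (∃ x : G ⧸ cz A, ∑ l, β l * χ (cj hA.normal x.out (a l)) ≠ 0) →
    c * (cz A).relIndex N ≤ (Nat.card G : ℝ) ^ ε *
      Nat.card {x : G ⧸ cz A // ∑ l, β l * χ (cj hA.normal x.out (a l)) ≠ 0}

/-- The rank bound over algebraically closed fields. -/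
def StmtRep2 : Prop :=
  ∀ (δ : ℝ), 0 < δ → ∀ q d : ℕ, ∃ c : ℝ, 0 < c ∧
    ∀ (L G V : Type) [Field L] [IsAlgClosed L] [Group G] [Finite G] [AddCommGroup V] [Module L V]
      [FiniteDimensional L V] (σ : Representation L G V) (A H : Subgroup G), FrobK A →
      H.index ≤ d → (∀ x ∈ ⁅H, H⁆, ∀ y ∈ ⁅H, H⁆, ⁅x, y⁆ ∈ cz A) →
      (∀ W : Submodule L V, (∀ g, ∀ v ∈ W, σ g v ∈ W) → W = ⊥ ∨ W = ⊤) →
      ∀ (h : Fin q → G) (β : Fin q → L), ∑ l, β l • σ (h l) ≠ 0 →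
        (Module.finrank L V : ℝ) ≤
          c * (Nat.card G : ℝ) ^ δ * Module.finrank L (LinearMap.range (∑ l, β l • σ (h l)))

end Pool.Agent.Work.MP_11a08a_al.Fr
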