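import Pool.Agent.Work.MP_11a08a_al.Fr.Defs2

/-!
A common eigenvector for the abelian normal subgroup.
-/

set_option autoImplicit false

namespace Pool.Agent.Work.MP_11a08a_al.Fr

theorem eig2_common {L V ι : Type} [Field L] [IsAlgClosed L] [AddCommGroup V] [Module L V]
    [FiniteDimensional L V] [Nontrivial V] (T : ι → Module.End L V)
    (hT : ∀ i j v, T i (T j v) = T j (T i v)) :
    ∃ v : V, v ≠ 0 ∧ ∀ i, ∃ c : L, T i v = c • v := by
  classical
  have hex : ∃ n : ℕ, ∃ W : Submodule L V, W ≠ ⊥ ∧ (∀ i, ∀ v ∈ W, T i v ∈ W) ∧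
      Module.finrank L W = n :=
    ⟨_, ⊤, top_ne_bot, fun _ _ _ => Submodule.mem_top, rfl⟩
  obtain ⟨W, hW0, hW, hWn⟩ := Nat.find_spec hex
  have hmin : ∀ W' : Submodule L V, W' ≠ ⊥ → (∀ i, ∀ v ∈ W', T i v ∈ W') → W' ≤ W → W' = W := by
    intro W' h0 h1 hle
    refine Submodule.eq_of_le_of_finrank_le hle ?_
    rw [hWn]
    exact Nat.find_min' hex ⟨W', h0, h1, rfl⟩
  obtain ⟨v, hvW, hv0⟩ := (Submodule.ne_bot_iff W).1 hW0
  refine ⟨v, hv0, fun i => ?_⟩
  have : Nontrivial W := Submodule.nontrivial_iff_ne_bot.2 hW0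
  obtain ⟨c, hc⟩ := Module.End.exists_eigenvalue ((T i).restrict (hW i))
  obtain ⟨w, hw⟩ := hc.exists_hasEigenvector
  have hw1 : T i w = c • (w : V) := by
    have := congrArg (fun y : W => (y : V)) hw.apply_eq_smul
    simpa using this
  have hw0 : (w : V) ≠ 0 := fun h => hw.2 (Subtype.ext h)
  have := hmin (W ⊓ Module.End.eigenspace (T i) c)
    ((Submodule.ne_bot_iff _).2 ⟨w, ⟨w.2, Module.End.mem_eigenspace_iff.2 hw1⟩, hw0⟩)
    (fun j x hx => ⟨hW j x hx.1, by
      have h2 := Module.End.mem_eigenspace_iff.1 hx.2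
      refine Module.End.mem_eigenspace_iff.2 ?_
      rw [hT, h2, map_smul]⟩) inf_le_left
  rw [← this] at hvW
  exact ⟨c, Module.End.mem_eigenspace_iff.1 hvW.2⟩

theorem eig2 (h : StmtCyc) : StmtEig2 := by
  intro L G V _ _ _ _ _ _ _ σ A N hA hAN hirr
  classical
  rcases subsingleton_or_nontrivial V with hV | hV
  · refine ⟨fun z _ => ⟨0, fun v => Subsingleton.elim _ _⟩, Or.inl ?_⟩
    rw [Module.finrank_zero_of_subsingleton]; exact Nat.zero_le _
  have hN := hA.normal
  have hσ : ∀ g h w, σ (g * h) w = σ g (σ h w) := fun g h w => by rw [map_mul]; rfl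
  have hcen : ∀ z ∈ Subgroup.center G, ∃ ω : L, ∀ w, σ z w = ω • w := by
    intro z hz
    obtain ⟨ω, hω⟩ := Module.End.exists_eigenvalue (σ z)
    refine ⟨ω, fun w => ?_⟩
    rcases hirr (Module.End.eigenspace (σ z) ω) (fun g v hv => by
      rw [Module.End.mem_eigenspace_iff] at hv ⊢
      rw [← hσ, ← (Subgroup.mem_center_iff.1 hz g), hσ, hv, map_smul]) with h | h
    · exact absurd h hω
    · exact Module.End.mem_eigenspace_iff.1 (h ▸ Submodule.mem_top)
  refine ⟨hcen, ?_⟩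
  obtain ⟨v, hv0, hv⟩ := eig2_common (fun a : A => σ a) (fun a b w => by
    show σ a (σ b w) = σ b (σ a w)
    rw [← hσ, ← hσ, hA.comm a a.2 b b.2])
  choose c hc using hv
  have hinj : ∀ s t : L, s • v = t • v → s = t := fun s t e => smul_left_injective L hv0 e
  let χ : A →* L :=
    { toFun := c
      map_one' := hinj _ _ (by rw [← hc]; simp)
      map_mul' := fun a b => hinj _ _ (by
        rw [← hc, Subgroup.coe_mul, hσ, hc b, map_smul, hc a, smul_smul, mul_comm]) }
  by_cases hχ : ∃ a, χ a ≠ 1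
  · exact Or.inr ⟨χ, v, hχ, hv0, hc⟩
  left
  push Not at hχ
  have hva : ∀ a ∈ A, σ a v = v := fun a ha => by
    have h1 : c ⟨a, ha⟩ = 1 := hχ ⟨a, ha⟩
    have := hc ⟨a, ha⟩
    rwa [h1, one_smul] at this
  let F : Submodule L V :=
    { carrier := {w | ∀ a ∈ A, σ a w = w}
      add_mem' := fun {x y} hx hy a ha => by rw [map_add, hx a ha, hy a ha]
      zero_mem' := fun a _ => map_zero _
      smul_mem' := fun t x hx a ha => by rw [map_smul, hx a ha] }
  have hF : ∀ w, ∀ a ∈ A, σ a w = w := by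
    rcases hirr F (fun g w hw a ha => by
      have h1 : g⁻¹ * a * g ∈ A := by simpa using hN.conj_mem _ ha g⁻¹
      have h2 : a * g = g * (g⁻¹ * a * g) := by group
      rw [← hσ, h2, hσ, hw _ h1]) with h1 | h1
    · exact absurd ((Submodule.eq_bot_iff _).1 h1 v hva) hv0
    · intro w
      have : w ∈ F := h1 ▸ Submodule.mem_top
      exact this
  have hker : ∀ g : G, (∀ a ∈ A, g * a = a * g) → ∃ ω : L, ∀ w, σ g w = ω • w := by
    intro g hg
    have hmem' : g ∈ ((A ⊔ Subgroup.center G : Subgroup G) : Set G) := hA.cen g hg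
    rw [Subgroup.mul_normal] at hmem'
    obtain ⟨x, hx, z, hz, rfl⟩ := hmem'
    obtain ⟨ω, hω⟩ := hcen z hz
    refine ⟨ω, fun w => ?_⟩
    show σ (x * z) w = _
    rw [hσ, hF _ x hx, hω]
  obtain ⟨g0, hg0⟩ := h N (A.subgroupOf N) (hA.res hAN)
  obtain ⟨μ, hμ⟩ := Module.End.exists_eigenvalue (σ g0)
  obtain ⟨v', hv'⟩ := hμ.exists_hasEigenvector
  have hp : ∀ n : ℕ, σ ((g0 : G) ^ n) v' = μ ^ n • v' := by
    intro n
    induction n with
    | zero => simp
    | succ n ih =>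
      rw [pow_succ, hσ, hv'.apply_eq_smul, map_smul, ih, smul_smul, pow_succ, mul_comm]
  have hsc : ∀ g ∈ N, ∃ t : L, σ g v' = t • v' := by
    intro g hg
    obtain ⟨n, hn⟩ := hg0 ⟨g, hg⟩
    obtain ⟨ω, he⟩ := hker (((g0 : G) ^ n)⁻¹ * g) fun a ha =>
      congrArg Subtype.val (hn ⟨a, hAN.1 (mem_cz.2 (hA.comm a ha))⟩ ha)
    have : σ g v' = σ ((g0 : G) ^ n) (σ (((g0 : G) ^ n)⁻¹ * g) v') := by
      rw [← hσ]; congr 1; group
    exact ⟨ω * μ ^ n, by rw [this, he v', map_smul, hp, smul_smul]⟩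
  have hmem : ∀ g : G, σ g v' ∈ Submodule.span L (Set.range fun x : G ⧸ N => σ x.out v') := by
    intro g
    obtain ⟨n, hn⟩ := QuotientGroup.mk_out_eq_mul N g
    obtain ⟨t, ht⟩ := hsc _ (N.inv_mem n.2)
    have e : g = (g : G ⧸ N).out * (n : G)⁻¹ := by rw [hn]; group
    have e' : σ g v' = t • σ (g : G ⧸ N).out v' := by
      conv_lhs => rw [e, hσ, ht, map_smul]
    rw [e']
    exact Submodule.smul_mem _ _ (Submodule.subset_span ⟨(g : G ⧸ N), rfl⟩)
  rcases hirr (Submodule.span L (Set.range fun x : G ⧸ N => σ x.out v')) (fun g w hw => by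
    induction hw using Submodule.span_induction with
    | mem x hx =>
      obtain ⟨y, rfl⟩ := hx
      dsimp only
      rw [← hσ]
      exact hmem _
    | zero => rw [map_zero]; exact Submodule.zero_mem _
    | add x y _ _ hx hy => rw [map_add]; exact Submodule.add_mem _ hx hy
    | smul t x _ hx => rw [map_smul]; exact Submodule.smul_mem _ _ hx) with h1 | h1
  · have := hmem 1
    rw [h1, map_one, Submodule.mem_bot] at this
    exact absurd this hv'.2
  · have := Fintype.ofFinite (G ⧸ N)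
    rw [← finrank_top, ← h1, Subgroup.index, Nat.card_eq_fintype_card]
    exact finrank_range_le_card _

end Pool.Agent.Work.MP_11a08a_al.Fr
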