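import Pool.Agent.Work.MP_11a08a_al.Fr.Defs

/-!
The exponential map.
-/

set_option autoImplicit false

open Finset Filter

namespace Pool.Agent.Work.MP_11a08a_al.Fr

theorem addChar_ne {A K : Type} [AddCommGroup A] [Field K] (χ : AddChar A K) (x : A) :
    χ x ≠ 0 := fun h => by
  have := χ.map_add_eq_mul x (-x)
  rw [add_neg_cancel, χ.map_zero_eq_one, h, zero_mul] at this
  exact one_ne_zero this

section

variable {M K : ℕ → Type} [∀ n, AddCommGroup (M n)] [∀ n, Field (K n)]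
  {χ : ∀ n, AddChar (M n) (K n)} {L : Type} [Field L] {π : (∀ n, K n) →+* L}

theorem ex_add (x y : ∀ n, M n) : ex χ π (fun n => x n + y n) = ex χ π x * ex χ π y := by
  unfold ex
  rw [← map_mul]
  congr 1
  funext n
  rw [Pi.mul_apply, AddChar.map_add_eq_mul]

theorem ex_zero : ex χ π (fun _ => 0) = 1 := by
  unfold ex
  rw [← map_one π]
  congr 1
  funext n
  rw [AddChar.map_zero_eq_one, Pi.one_apply]

theorem ex_sum {ι : Type} (T : Finset ι) (x : ι → ∀ n, M n) :
    ex χ π (fun n => ∑ i ∈ T, x i n) = ∏ i ∈ T, ex χ π (x i) := by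
  classical
  induction T using Finset.induction_on with
  | empty => simp only [sum_empty, prod_empty, ex_zero]
  | insert a s ha ih => simp only [sum_insert ha, prod_insert ha, ex_add, ih]

theorem ex_nsmul (m : ℕ) (x : ∀ n, M n) : ex χ π (fun n => m • x n) = ex χ π x ^ m := by
  unfold ex
  rw [← map_pow]
  congr 1
  funext n
  rw [Pi.pow_apply, AddChar.map_nsmul_eq_pow]

theorem ex_mono {ι : Type} [Fintype ι] (m : ι → ℕ) (x : ι → ∀ n, M n) :
    ∏ i, ex χ π (x i) ^ m i = ex χ π fun n => ∑ i, m i • x i n := by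
  rw [ex_sum]
  exact prod_congr rfl fun i _ => (ex_nsmul _ _).symm

variable {𝒰 : Ultrafilter ℕ} {R : ℕ → Type} [∀ n, CommRing (R n)] [∀ n, Fintype (R n)]
  [∀ n, DecidableEq (R n)] [∀ n, Module (R n) (M n)] [∀ n, DecidableEq (M n)]
  {U : ∀ n, Finset (R n)} {k : ℕ}

theorem Dat.congr (H : Dat 𝒰 χ U π k) {x y : ∀ n, K n}
    (h : ∀ᶠ n in (𝒰 : Filter ℕ), x n = y n) : π x = π y := by
  rw [← sub_eq_zero, ← map_sub, H.ker]
  filter_upwards [h] with n hn
  exact sub_eq_zero.2 hn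

theorem Dat.ex_ne (H : Dat 𝒰 χ U π k) (x : ∀ n, M n) : ex χ π x ≠ 0 := by
  intro h
  obtain ⟨n, hn⟩ := ((H.ker _).1 h).exists
  exact addChar_ne _ _ hn

end

theorem Frob.unit {R : Type} [CommRing R] {U : Finset R} (h : Frob U) {u : R} (hu : u ∈ U) :
    IsUnit u := by
  obtain ⟨v, -, e⟩ := h.inv u hu
  exact IsUnit.of_mul_eq_one v e

end Pool.Agent.Work.MP_11a08a_al.Fr
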