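import Pool.Agent.Work.MP_11a08a_al.Fr.Ex

/-!
A set that does not grow fills a subring.
-/

set_option autoImplicit false

open Finset
open scoped Pointwise

namespace Pool.Agent.Work.MP_11a08a_al.Fr

theorem grow_cs {P Z : Type} [DecidableEq Z] (S : Finset P) (f : P → Z) :
    #S ^ 2 ≤ #(S.image f) * #((S ×ˢ S).filter fun q => f q.1 = f q.2) := by
  have h1 : #S = ∑ z ∈ S.image f, #(S.filter fun p => f p = z) :=
    card_eq_sum_card_image f S
  have h2 : #((S ×ˢ S).filter fun q => f q.1 = f q.2) =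
      ∑ z ∈ S.image f, #(S.filter fun p => f p = z) ^ 2 := by
    rw [card_eq_sum_card_fiberwise (f := fun q : P × P => f q.1) (t := S.image f)]
    · refine sum_congr rfl fun z _ => ?_
      rw [sq, ← card_product]
      congr 1
      ext q
      simp only [mem_filter, mem_product]
      constructor
      · rintro ⟨⟨⟨a, b⟩, c⟩, d⟩
        exact ⟨⟨a, d⟩, b, c ▸ d⟩
      · rintro ⟨⟨a, d⟩, b, c⟩
        exact ⟨⟨⟨a, b⟩, d.trans c.symm⟩, d⟩
    · intro q hq
      have hq' := mem_filter.1 (mem_coe.1 hq)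
      exact mem_coe.2 (mem_image_of_mem f (mem_product.1 hq'.1).1)
  rw [h2]
  conv_lhs => rw [h1]
  exact sq_sum_le_card_mul_sum_sq

theorem grow_sum {R : Type} [CommRing R] [DecidableEq R] (S B T : Finset R)
    (hB : ∀ b ∈ B, ∀ b' ∈ B, b ≠ b' → IsUnit (b - b')) :
    ∑ x ∈ T, #(((S ×ˢ B) ×ˢ (S ×ˢ B)).filter
      fun q => q.1.1 + x * q.1.2 = q.2.1 + x * q.2.2) ≤
        #T * #(S ×ˢ B) + #(S ×ˢ B) ^ 2 := by
  have h1 : ∀ x : R, #(((S ×ˢ B) ×ˢ (S ×ˢ B)).filter
      fun q => q.1.1 + x * q.1.2 = q.2.1 + x * q.2.2) ≤ #(S ×ˢ B) +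
        #(((S ×ˢ B) ×ˢ (S ×ˢ B)).filter
          fun q => q.1.2 ≠ q.2.2 ∧ q.1.1 + x * q.1.2 = q.2.1 + x * q.2.2) := by
    intro x
    refine le_trans (card_le_card (t := ((S ×ˢ B).image fun p => (p, p)) ∪
      (((S ×ˢ B) ×ˢ (S ×ˢ B)).filter
        fun q => q.1.2 ≠ q.2.2 ∧ q.1.1 + x * q.1.2 = q.2.1 + x * q.2.2)) ?_) ?_
    · intro q hq
      obtain ⟨hq1, hq2⟩ := mem_filter.1 hq
      by_cases h : q.1.2 = q.2.2
      · refine mem_union_left _ (mem_image.2 ⟨q.1, (mem_product.1 hq1).1, ?_⟩)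
        have h3 : q.1.1 = q.2.1 := by
          rw [h] at hq2
          exact add_right_cancel hq2
        exact Prod.ext rfl (Prod.ext h3 h)
      · exact mem_union_right _ (mem_filter.2 ⟨hq1, h, hq2⟩)
    · exact (card_union_le _ _).trans (Nat.add_le_add_right card_image_le _)
  refine (sum_le_sum fun x _ => h1 x).trans ?_
  rw [sum_add_distrib, sum_const, smul_eq_mul]
  refine Nat.add_le_add_left ?_ _
  rw [← card_biUnion]
  · rw [sq, ← card_product]
    exact card_le_card (biUnion_subset.2 fun x _ => filter_subset _ _)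
  · intro x _ y _ hxy
    refine disjoint_left.2 fun q hx hy => hxy ?_
    obtain ⟨hq, h, hx⟩ := mem_filter.1 hx
    obtain ⟨-, -, hy⟩ := mem_filter.1 hy
    have h4 : (q.1.2 - q.2.2) * x = (q.1.2 - q.2.2) * y := by linear_combination hx - hy
    exact (hB _ (mem_product.1 (mem_product.1 hq).1).2 _ (mem_product.1 (mem_product.1 hq).2).2
      h).mul_left_cancel h4

theorem grow_num (m b s E : ℕ) (hm : 0 < m) (hb : 0 < b) (h1 : m ^ 2 ≤ s * E)
    (h2 : b * E ≤ b * m + m ^ 2) : m ≤ 2 * s ∨ b ≤ 2 * s := by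
  have h3 : m * (b * m) ≤ m * (s * (b + m)) := by
    calc m * (b * m) = b * m ^ 2 := by ring
      _ ≤ b * (s * E) := Nat.mul_le_mul_left _ h1
      _ = s * (b * E) := by ring
      _ ≤ s * (b * m + m ^ 2) := Nat.mul_le_mul_left _ h2
      _ = m * (s * (b + m)) := by ring
  have h4 : b * m ≤ s * (b + m) := Nat.le_of_mul_le_mul_left h3 hm
  rcases le_total m b with h | h
  · refine Or.inl (Nat.le_of_mul_le_mul_left ?_ hb)
    calc b * m ≤ s * (b + m) := h4
      _ ≤ s * (b + b) := Nat.mul_le_mul_left _ (Nat.add_le_add_left h _)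
      _ = b * (2 * s) := by ring
  · refine Or.inr (Nat.le_of_mul_le_mul_left ?_ hm)
    calc m * b = b * m := by ring
      _ ≤ s * (b + m) := h4
      _ ≤ s * (m + m) := Nat.mul_le_mul_left _ (Nat.add_le_add_right h _)
      _ = m * (2 * s) := by ring

section

variable {R : Type} [CommRing R] [DecidableEq R] {S B : Finset R}

theorem grow_mem {a b c d x : R} (ha : a ∈ S) (hb : b ∈ S) (hc : c ∈ S) (hd : d ∈ S)
    (e : x = a * b - c * d) : x ∈ op S :=
  e ▸ sub_mem_sub (mul_mem_mul ha hb) (mul_mem_mul hc hd)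

theorem grow_sub (h0 : (0 : R) ∈ S) (h1 : (1 : R) ∈ S) {a : R} (ha : a ∈ S) : a ∈ op S :=
  grow_mem ha h1 h0 h0 (by ring)

/-- Fractions with numerator and unit denominator in `S`. -/
def grow_Fr (S : Finset R) (x : R) : Prop := ∃ c ∈ S, IsUnit c ∧ x * c ∈ S

theorem grow_img (hBS : B ⊆ S) (h0 : (0 : R) ∈ S) (h1 : (1 : R) ∈ S) {x : R}
    (hx : grow_Fr (op (op S)) x) :
    #((S ×ˢ B).image fun p : R × R => p.1 + x * p.2) ≤ #(op (op (op S))) := by
  obtain ⟨c, hc, hu, hm⟩ := hx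
  have k0 := grow_sub h0 h1 h0
  have k1 := grow_sub h0 h1 h1
  refine card_le_card_of_injOn (fun y => c * y) (fun y hy => ?_)
    (fun y _ z _ e => hu.mul_left_cancel e)
  obtain ⟨p, hp, rfl⟩ := mem_image.1 (mem_coe.1 hy)
  obtain ⟨p1, p2⟩ := mem_product.1 hp
  have k2 : -p.2 ∈ op S := grow_mem h0 h0 (hBS p2) h1 (by ring)
  exact mem_coe.2 (grow_mem hc (grow_sub k0 k1 (grow_sub h0 h1 p1)) hm (grow_sub k0 k1 k2)
    (by ring))

theorem grow_back (hBS : B ⊆ S) (h0 : (0 : R) ∈ S) (h1 : (1 : R) ∈ S)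
    (hB : ∀ b ∈ B, ∀ b' ∈ B, b ≠ b' → IsUnit (b - b'))
    (hlt : #(op (op (op S))) < #(S ×ˢ B)) {x : R} (hx : grow_Fr (op (op S)) x) :
    grow_Fr (op S) x := by
  have h2 := (grow_img hBS h0 h1 hx).trans_lt hlt
  obtain ⟨p, hp, q, hq, hne, e⟩ := exists_ne_map_eq_of_card_image_lt h2
  obtain ⟨p1, p2⟩ := mem_product.1 hp
  obtain ⟨q1, q2⟩ := mem_product.1 hq
  have h3 : p.2 ≠ q.2 := fun e' => by
    rw [e'] at e
    exact hne (Prod.ext (add_right_cancel e) e')
  exact ⟨p.2 - q.2, grow_mem (hBS p2) h1 (hBS q2) h1 (by ring), hB _ p2 _ q2 h3,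
    grow_mem q1 h1 p1 h1 (by linear_combination e)⟩

theorem grow_dif {x y : R} (h0 : (0 : R) ∈ S) (hx : grow_Fr S x) (hy : grow_Fr S y) :
    grow_Fr (op S) (x - y) := by
  obtain ⟨c, hc, hu, hm⟩ := hx
  obtain ⟨d, hd, hv, hn⟩ := hy
  exact ⟨c * d, grow_mem hc hd h0 h0 (by ring), hu.mul hv, grow_mem hm hd hn hc (by ring)⟩

theorem grow_mul {x y : R} (h0 : (0 : R) ∈ S) (hx : grow_Fr S x) (hy : grow_Fr S y) :
    grow_Fr (op S) (x * y) := by
  obtain ⟨c, hc, hu, hm⟩ := hx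
  obtain ⟨d, hd, hv, hn⟩ := hy
  exact ⟨c * d, grow_mem hc hd h0 h0 (by ring), hu.mul hv, grow_mem hm hn h0 h0 (by ring)⟩

end

theorem grow : StmtGrow := by
  classical
  intro R _ _ _ B S W hBS h0 h1 hB hW hop
  have k0 := grow_sub h0 h1 h0
  have k1 := grow_sub h0 h1 h1
  have hs : (0 : ℝ) < #S := by exact_mod_cast card_pos.2 ⟨0, h0⟩
  have h2N : 2 * #(op (op (op S))) < #(S ×ˢ B) := by
    have : (2 * #(op (op (op S))) : ℝ) < #S * #B := by nlinarith
    rw [card_product]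
    exact_mod_cast this
  have hlt : #(op (op (op S))) < #(S ×ˢ B) := by omega
  have hin : ∀ a ∈ S, grow_Fr (op S) a := fun a ha =>
    ⟨1, k1, isUnit_one, by rw [mul_one]; exact grow_sub h0 h1 ha⟩
  have hd : ∀ x y, grow_Fr (op S) x → grow_Fr (op S) y → grow_Fr (op S) (x - y) :=
    fun x y hx hy => grow_back hBS h0 h1 hB hlt (grow_dif k0 hx hy)
  let Q : Subring R :=
    { carrier := {x | grow_Fr (op S) x}
      mul_mem' := fun hx hy => grow_back hBS h0 h1 hB hlt (grow_mul k0 hx hy)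
      one_mem' := hin 1 h1
      add_mem' := fun {x y} hx hy => by
        have := hd x (0 - y) hx (hd 0 y (hin 0 h0) hy)
        rwa [zero_sub, sub_neg_eq_add] at this
      zero_mem' := hin 0 h0
      neg_mem' := fun {x} hx => by
        have := hd 0 x (hin 0 h0) hx
        rwa [zero_sub] at this }
  refine ⟨Q, fun b hb => hin b (hBS hb), ?_⟩
  have hT : Nat.card Q = #(univ.filter fun x : R => x ∈ Q) := by
    rw [Nat.card_eq_fintype_card, Fintype.card_subtype]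
  have hne : (univ.filter fun x : R => x ∈ Q).Nonempty :=
    ⟨0, mem_filter.2 ⟨mem_univ _, Q.zero_mem⟩⟩
  obtain ⟨x, hx, h2⟩ := exists_le_of_sum_le (s := univ.filter fun x : R => x ∈ Q)
    (f := fun x => #(univ.filter fun x : R => x ∈ Q) * #(((S ×ˢ B) ×ˢ (S ×ˢ B)).filter
      fun q => q.1.1 + x * q.1.2 = q.2.1 + x * q.2.2))
    (g := fun _ => #(univ.filter fun x : R => x ∈ Q) * #(S ×ˢ B) + #(S ×ˢ B) ^ 2) hne (by
      rw [← mul_sum, sum_const, smul_eq_mul]
      exact Nat.mul_le_mul_left _ (grow_sum S B _ hB))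
  have hx' : grow_Fr (op S) x := (mem_filter.1 hx).2
  have hx2 : grow_Fr (op (op S)) x := by
    have := grow_dif k0 hx' (hin 0 h0)
    rwa [sub_zero] at this
  have h3 := grow_cs (S ×ˢ B) (fun p : R × R => p.1 + x * p.2)
  have h5 := grow_num _ _ _ _ (by omega) (card_pos.2 hne)
    (h3.trans (Nat.mul_le_mul_right _ (grow_img hBS h0 h1 hx2))) h2
  have h6 : Nat.card Q ≤ 2 * #(op (op (op S))) := by
    rw [hT]
    exact h5.resolve_left (by omega)
  have h7 : (Nat.card Q : ℝ) ≤ 2 * #(op (op (op S))) := by exact_mod_cast h6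
  linarith

end Pool.Agent.Work.MP_11a08a_al.Fr
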