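import Pool.Agent.Work.MP_11a08a_al.Fr.Ex

/-!
Reduction to a subring in which the group is spread out.
-/

set_option autoImplicit false

open Finset Filter

namespace Pool.Agent.Work.MP_11a08a_al.Fr

theorem nt (h1 : StmtNT1) (hS : StmtSub) : StmtNT := by
  classical
  intro η ε hη hε q
  set ε₂ : ℝ := min ε (min (η / 2) 1) with hε₂
  have e0 : 0 < ε₂ := lt_min hε (lt_min (by linarith) one_pos)
  have e1 : ε₂ ≤ ε := min_le_left _ _
  have e2 : 2 * ε₂ ≤ η := by
    have : ε₂ ≤ η / 2 := (min_le_right _ _).trans (min_le_left _ _)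
    linarith
  have e3 : ε₂ ≤ 1 := (min_le_right _ _).trans (min_le_right _ _)
  obtain ⟨c₁, hc₁, N₀, H⟩ := h1 (ε₂ * η / 4) (by positivity) q
  refine ⟨min c₁ (1 / (N₀ + 1)), lt_min hc₁ (by positivity), ?_⟩
  intro R K _ _ _ _ U hU hbig ψ β ⟨u₀, hu₀, hne⟩
  obtain ⟨R', i1, i2, i3, f, U', finj, hU', hfU, hc, hbig', hsp⟩ :=
    hS R U η ε₂ e0 e2 e3 hU hbig
  have hR1 : (1 : ℝ) ≤ Fintype.card R := by
    have : 0 < Fintype.card R := Fintype.card_pos_iff.2 ⟨0⟩
    exact_mod_cast this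
  have hpow : (Fintype.card R : ℝ) ^ ε₂ ≤ (Fintype.card R : ℝ) ^ ε :=
    Real.rpow_le_rpow_of_exponent_le hR1 e1
  have hp0 : (0 : ℝ) ≤ (Fintype.card R : ℝ) ^ ε := by positivity
  have hc' : (#U : ℝ) ≤ (Fintype.card R : ℝ) ^ ε * #U' :=
    hc.trans (mul_le_mul_of_nonneg_right hpow (by positivity))
  have hcm0 : (0 : ℝ) ≤ min c₁ (1 / (N₀ + 1)) := le_min hc₁.le (by positivity)
  by_cases hN : N₀ ≤ Fintype.card R'
  · let g : R' →+ R := (AddMonoidHom.mulLeft u₀).comp f.toAddMonoidHom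
    have hg : ∀ x, g x = u₀ * f x := fun _ => rfl
    have key := H R' K U' hN hU' hbig' hsp (fun l => (ψ l).compAddMonoidHom g) β
      ⟨1, by simpa only [AddChar.compAddMonoidHom_apply, hg, map_one, mul_one] using hne⟩
    have hle : #(U'.filter fun u => ∑ l, β l * ((ψ l).compAddMonoidHom g) u ≠ 0) ≤
        #(U.filter fun u => ∑ l, β l * ψ l u ≠ 0) := by
      refine card_le_card_of_injOn g ?_ ?_
      · intro u hu
        rw [mem_coe, mem_filter] at hu ⊢
        exact ⟨hU.mul _ hu₀ _ (hfU u hu.1), hu.2⟩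
      · intro u _ v _ huv
        rw [hg, hg] at huv
        exact finj ((hU.unit hu₀).mul_left_cancel huv)
    have hle' : c₁ * #U' ≤ #(U.filter fun u => ∑ l, β l * ψ l u ≠ 0) :=
      key.trans (by exact_mod_cast hle)
    calc min c₁ (1 / (N₀ + 1)) * #U ≤ c₁ * ((Fintype.card R : ℝ) ^ ε * #U') :=
          mul_le_mul (min_le_left _ _) hc' (by positivity) hc₁.le
      _ = (Fintype.card R : ℝ) ^ ε * (c₁ * #U') := by ring
      _ ≤ _ := mul_le_mul_of_nonneg_left hle' hp0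
  · have hU'N : (#U' : ℝ) ≤ N₀ + 1 := by
      have : #U' ≤ N₀ + 1 := (card_le_univ U').trans (by omega)
      exact_mod_cast this
    have h1' : (1 : ℝ) ≤ #(U.filter fun u => ∑ l, β l * ψ l u ≠ 0) := by
      have : 0 < #(U.filter fun u => ∑ l, β l * ψ l u ≠ 0) :=
        card_pos.2 ⟨u₀, mem_filter.2 ⟨hu₀, hne⟩⟩
      exact_mod_cast this
    calc min c₁ (1 / (N₀ + 1)) * #U
        ≤ 1 / (N₀ + 1) * ((Fintype.card R : ℝ) ^ ε * (N₀ + 1)) :=
          mul_le_mul (min_le_right _ _) (hc'.trans (mul_le_mul_of_nonneg_left hU'N hp0))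
            (by positivity) (by positivity)
      _ = (Fintype.card R : ℝ) ^ ε * 1 := by field_simp
      _ ≤ _ := mul_le_mul_of_nonneg_left h1' hp0

end Pool.Agent.Work.MP_11a08a_al.Fr
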