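import Pool.Agent.Work.MP_11a08a_al.Fr.Ex

/-!
A subring in which the group is spread out.
-/

set_option autoImplicit false

open Finset

namespace Pool.Agent.Work.MP_11a08a_al.Fr

theorem sub_num {n m b q η ε : ℝ} (hn : 1 ≤ n) (hq : 0 ≤ q) (hb : 0 < b) (hm0 : 0 < m)
    (hε : 0 < ε) (hη : 2 * ε ≤ η) (hε1 : ε ≤ 1) (hm : n ^ (η / 2) ≤ m) (hbq : b * q ≤ n)
    (hmin : n ^ ε / m ≤ q ^ ε / b) : b ≤ n ^ (-(ε * η / 4)) * m := by
  have hn0 : 0 < n := by linarith
  have hη0 : 0 < η := by linarith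
  rcases le_total b (n ^ (η / 4)) with h | h
  · calc b ≤ n ^ (η / 4) := h
      _ ≤ n ^ (-(ε * η / 4) + η / 2) :=
        Real.rpow_le_rpow_of_exponent_le hn (by nlinarith)
      _ = n ^ (-(ε * η / 4)) * n ^ (η / 2) := Real.rpow_add hn0 _ _
      _ ≤ n ^ (-(ε * η / 4)) * m := mul_le_mul_of_nonneg_left hm (Real.rpow_nonneg hn0.le _)
  · have h1 : q ≤ n ^ (1 - η / 4) := by
      rw [Real.rpow_sub hn0, Real.rpow_one, le_div_iff₀ (Real.rpow_pos_of_pos hn0 _), mul_comm]
      exact (mul_le_mul_of_nonneg_right h hq).trans hbq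
    have h2 : q ^ ε ≤ n ^ (-(ε * η / 4)) * n ^ ε := by
      refine (Real.rpow_le_rpow hq h1 hε.le).trans_eq ?_
      rw [← Real.rpow_mul hn0.le, ← Real.rpow_add hn0]
      congr 1
      ring
    rw [div_le_div_iff₀ hm0 hb] at hmin
    have h3 := hmin.trans (mul_le_mul_of_nonneg_right h2 hm0.le)
    refine le_of_mul_le_mul_left (h3.trans_eq ?_) (Real.rpow_pos_of_pos hn0 ε)
    ring

theorem sub (h : StmtIdx) : StmtSub := by
  classical
  intro R _ _ _ U η ε hε hη hε1 hU hc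
  have : Finite (Subring R) := Finite.of_injective _ (SetLike.coe_injective (A := Subring R))
  obtain ⟨S, hS⟩ := Finite.exists_min fun Q : Subring R =>
    (Nat.card Q : ℝ) ^ ε / #(U.filter fun u => u ∈ Q)
  let _ : Fintype S := Fintype.ofFinite S
  let U' : Finset S := U.subtype fun u => u ∈ S
  have hU' : ∀ x : S, x ∈ U' ↔ (x : R) ∈ U := fun x => Finset.mem_subtype
  have hcard : #U' = #(U.filter fun u => u ∈ S) := Finset.card_subtype _ _
  have hF : Frob U' := by
    refine ⟨(hU' _).2 hU.one, fun u hu v hv => (hU' _).2 (hU.mul _ ((hU' _).1 hu) _ ((hU' _).1 hv)),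
      fun u hu => ?_, fun u hu v hv huv => (h R).2.2 S _
        (hU.dif _ ((hU' _).1 hu) _ ((hU' _).1 hv) fun e => huv (Subtype.ext e))⟩
    obtain ⟨v, hv, e⟩ := hU.inv _ ((hU' _).1 hu)
    obtain ⟨w, hw⟩ := ((h R).2.2 S u (IsUnit.of_mul_eq_one v e)).exists_right_inv
    have hw' : (u : R) * w = 1 := congrArg Subtype.val hw
    have hwv : (w : R) = v := by
      calc (w : R) = (u * v) * w := by rw [e, one_mul]
        _ = (u * w) * v := by ring
        _ = v := by rw [hw', one_mul]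
    exact ⟨w, (hU' _).2 (hwv ▸ hv), hw⟩
  have hm0 : (0 : ℝ) < #U' := by exact_mod_cast Finset.card_pos.2 ⟨1, hF.one⟩
  have hu0 : (0 : ℝ) < #U := by exact_mod_cast Finset.card_pos.2 ⟨1, hU.one⟩
  have hn : (1 : ℝ) ≤ Fintype.card S := by exact_mod_cast Fintype.card_pos (α := S)
  have hnR : (Fintype.card S : ℝ) ≤ Fintype.card R := by
    exact_mod_cast Fintype.card_le_of_injective _ (Subtype.val_injective (p := fun u => u ∈ S))
  have hR1 : (1 : ℝ) ≤ Fintype.card R := hn.trans hnR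
  have hR0 : (0 : ℝ) < Fintype.card R := by linarith
  have hS' : ∀ Q : Subring R, (Fintype.card S : ℝ) ^ ε / #U' ≤
      (Nat.card Q : ℝ) ^ ε / #(U.filter fun u => u ∈ Q) := fun Q => by
    rw [hcard, ← Nat.card_eq_fintype_card]
    exact hS Q
  have h1 : (#U : ℝ) ≤ (Fintype.card R : ℝ) ^ ε * #U' := by
    have h2 := hS' ⊤
    rw [Finset.filter_true_of_mem fun u _ => Subring.mem_top u,
      Nat.card_congr (Subring.topEquiv (R := R)).toEquiv, Nat.card_eq_fintype_card,
      div_le_div_iff₀ hm0 hu0] at h2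
    exact (le_mul_of_one_le_left hu0.le (Real.one_le_rpow hn hε.le)).trans h2
  have h3 : (Fintype.card S : ℝ) ^ (η / 2) ≤ #U' := by
    refine (Real.rpow_le_rpow (by linarith) hnR (by linarith)).trans ?_
    refine le_of_mul_le_mul_left (le_trans ?_ (hc.trans h1)) (Real.rpow_pos_of_pos hR0 ε)
    rw [← Real.rpow_add hR0]
    exact Real.rpow_le_rpow_of_exponent_le hR1 (by linarith)
  refine ⟨S, inferInstance, inferInstance, inferInstance, S.subtype, U', Subtype.val_injective, hF,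
    fun u hu => (hU' u).1 hu, h1,
    (Real.rpow_le_rpow_of_exponent_le hn (by nlinarith)).trans h3, fun Q hQ => ?_⟩
  have hb0 : (0 : ℝ) < #(U'.filter fun u => u ∈ Q) := by
    exact_mod_cast Finset.card_pos.2 ⟨1, Finset.mem_filter.2 ⟨hF.one, Q.one_mem⟩⟩
  have h4 := (h S).2.1 (U'.filter fun u => u ∈ Q) Q
    (fun b hb b' hb' => hF.dif b (Finset.mem_filter.1 hb).1 b' (Finset.mem_filter.1 hb').1) hQ
    fun b hb => (Finset.mem_filter.1 hb).2
  have h5 := hS' (Q.map S.subtype)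
  have h6 : Nat.card (Q.map S.subtype) = Nat.card Q :=
    (Nat.card_congr (Q.equivMapOfInjective S.subtype Subtype.val_injective).toEquiv).symm
  have h7 : #(U.filter fun u => u ∈ Q.map S.subtype) = #(U'.filter fun u => u ∈ Q) := by
    refine (Finset.card_bij (fun (x : S) _ => (x : R)) (fun x hx => ?_)
      (fun x _ y _ e => Subtype.ext e) fun y hy => ?_).symm
    · exact Finset.mem_filter.2 ⟨(hU' x).1 (Finset.mem_filter.1 hx).1,
        Subring.mem_map.2 ⟨x, (Finset.mem_filter.1 hx).2, rfl⟩⟩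
    · obtain ⟨x, hx, rfl⟩ := Subring.mem_map.1 (Finset.mem_filter.1 hy).2
      exact ⟨x, Finset.mem_filter.2 ⟨(hU' x).2 (Finset.mem_filter.1 hy).1, hx⟩, rfl⟩
  rw [h6, h7] at h5
  have h8 := sub_num hn (Nat.cast_nonneg (Nat.card Q)) hb0 hm0 hε hη hε1 h3
    (by exact_mod_cast h4) h5
  convert h8

end Pool.Agent.Work.MP_11a08a_al.Fr
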