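import Pool.Agent.Work.MP_11a08a_al.Cp.Alg
import Pool.Agent.Work.MP_11a08a_al.Cp.BSG
import Pool.Agent.Work.MP_11a08a_al.Cp.Most
import Pool.Agent.Work.MP_11a08a_al.Fr.BGK
import Pool.Agent.Work.MP_11a08a_al.Fr.BGK0
import Pool.Agent.Work.MP_11a08a_al.Fr.BGK1
import Pool.Agent.Work.MP_11a08a_al.Fr.Base
import Pool.Agent.Work.MP_11a08a_al.Fr.Basis
import Pool.Agent.Work.MP_11a08a_al.Fr.Cnt1
import Pool.Agent.Work.MP_11a08a_al.Fr.Cnt2
import Pool.Agent.Work.MP_11a08a_al.Fr.En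
import Pool.Agent.Work.MP_11a08a_al.Fr.Gen
import Pool.Agent.Work.MP_11a08a_al.Fr.Grow
import Pool.Agent.Work.MP_11a08a_al.Fr.Idx
import Pool.Agent.Work.MP_11a08a_al.Fr.Inv
import Pool.Agent.Work.MP_11a08a_al.Fr.NT
import Pool.Agent.Work.MP_11a08a_al.Fr.NT0
import Pool.Agent.Work.MP_11a08a_al.Fr.NT1
import Pool.Agent.Work.MP_11a08a_al.Fr.Num
import Pool.Agent.Work.MP_11a08a_al.Fr.Pat
import Pool.Agent.Work.MP_11a08a_al.Fr.SP
import Pool.Agent.Work.MP_11a08a_al.Fr.SP3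
import Pool.Agent.Work.MP_11a08a_al.Fr.SR
import Pool.Agent.Work.MP_11a08a_al.Fr.Shift
import Pool.Agent.Work.MP_11a08a_al.Fr.Spec
import Pool.Agent.Work.MP_11a08a_al.Fr.Step
import Pool.Agent.Work.MP_11a08a_al.Fr.Sub

/-!
Assembly of the exponential sum bound and of the theorem on sparse sums of characters.
-/

set_option autoImplicit false

namespace Pool.Agent.Work.MP_11a08a_al.Fr

theorem bgk_all : StmtBGK := bgk (bgk1 (bgk0 Cp.bsg (sp sp3 grow en) spec_facts inv_facts))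

theorem nt0_all : StmtNT0 :=
  nt0 cnt2 (cnt1 idx) (base basis pat shift Cp.most Cp.alg) (step (gen sr) Cp.most Cp.alg) num
    Cp.most

theorem nt_all : StmtNT := nt (nt1 bgk_all nt0_all) (sub idx)

end Pool.Agent.Work.MP_11a08a_al.Fr
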