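import Pool.Agent.Work.MP_11a08a_al.Fr.Defs2

/-!
The rank bound over algebraically closed fields, second version.
-/

set_option autoImplicit false

open Finset

namespace Pool.Agent.Work.MP_11a08a_al.Fr

theorem rep2_repr {L V ι : Type} [Field L] [AddCommGroup V] [Module L V] [DecidableEq ι]
    (b : Module.Basis ι L V) {q : ℕ} (f : Fin q → V →ₗ[L] V) (β κ : Fin q → L) (p : Fin q → ι)
    (x y : ι) (hf : ∀ l, f l (b x) = κ l • b (p l)) :
    b.repr ((∑ l, β l • f l) (b x)) y = ∑ l, if p l = y then β l * κ l else 0 := by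
  rw [LinearMap.sum_apply, map_sum, Finsupp.finsetSum_apply]
  refine Finset.sum_congr rfl fun l _ => ?_
  rw [LinearMap.smul_apply, hf, smul_smul, map_smul, b.repr_self, Finsupp.smul_apply,
    Finsupp.single_apply]
  split_ifs <;> simp

theorem rep2_smul {G : Type} [Group G] (C : Subgroup G) [hC : C.Normal] (g g' : G) (x : G ⧸ C) :
    g' • x = g • x ↔ g⁻¹ * g' ∈ C := by
  induction x using QuotientGroup.induction_on with
  | H z =>
    rw [MulAction.Quotient.smul_mk, MulAction.Quotient.smul_mk, eq_comm, QuotientGroup.eq,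
      smul_eq_mul, smul_eq_mul]
    have e : (g * z)⁻¹ * (g' * z) = z⁻¹ * (g⁻¹ * g') * z⁻¹⁻¹ := by group
    rw [e]
    exact ⟨fun h => by simpa [mul_assoc] using hC.conj_mem _ h z, fun h => hC.conj_mem _ h z⁻¹⟩

theorem rep2_main (h6 : Cp.StmtMono) {L G V : Type} [Field L] [Group G] [Finite G]
    [AddCommGroup V] [Module L V] (σ : G → V →ₗ[L] V) {A : Subgroup G} (hA : FrobK A)
    (χ : A →* L) {q : ℕ} (h : Fin q → G) (β : Fin q → L) (hM : ∑ l, β l • σ (h l) ≠ 0)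
    (b : Module.Basis (G ⧸ cz A) L V) (κ : G → G ⧸ cz A → L)
    (hσ : ∀ g x, σ g (b x) = κ g x • b (g • x)) (hκ : ∀ g x, κ g x ≠ 0)
    (he : ∀ g g', g⁻¹ * g' ∈ cz A → ∃ (a : A) (ω : L), ∀ x : G ⧸ cz A,
      κ g' x = ω * χ (cj hA.normal x.out a) * κ g x) :
    ∃ (a : Fin q → A) (β' : Fin q → L),
      (∃ x : G ⧸ cz A, ∑ l, β' l * χ (cj hA.normal x.out (a l)) ≠ 0) ∧
      Nat.card {x : G ⧸ cz A // ∑ l, β' l * χ (cj hA.normal x.out (a l)) ≠ 0} ≤
        (2 * q + 1) * Module.finrank L (LinearMap.range (∑ l, β l • σ (h l))) := by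
  classical
  have := hA.normal
  have hC : (cz A).Normal := Subgroup.normal_centralizer
  let _ : Fintype (G ⧸ cz A) := Fintype.ofFinite _
  have hrepr : ∀ x y, b.repr ((∑ l, β l • σ (h l)) (b x)) y =
      ∑ l, if h l • x = y then β l * κ (h l) x else 0 := fun x y =>
    rep2_repr b (fun l => σ (h l)) β (fun l => κ (h l) x) (fun l => h l • x) x y
      fun l => hσ (h l) x
  have hsupp : ∀ x y, b.repr ((∑ l, β l • σ (h l)) (b x)) y ≠ 0 → ∃ l, y = h l • x := by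
    intro x y hne
    rw [hrepr] at hne
    obtain ⟨l, -, hl⟩ := Finset.exists_ne_zero_of_sum_ne_zero hne
    exact ⟨l, by by_contra hc; exact hl (if_neg fun e => hc e.symm)⟩
  obtain ⟨x0, hx0⟩ : ∃ x, (∑ l, β l • σ (h l)) (b x) ≠ 0 := by
    by_contra hc
    simp only [not_exists, not_not] at hc
    exact hM (b.ext fun x => by rw [hc x]; rfl)
  obtain ⟨y0, hy0⟩ : ∃ y, b.repr ((∑ l, β l • σ (h l)) (b x0)) y ≠ 0 := by
    by_contra hc
    simp only [not_exists, not_not] at hc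
    exact hx0 (b.repr.injective (by ext y; rw [hc y]; simp))
  obtain ⟨l0, rfl⟩ := hsupp x0 y0 hy0
  have hch : ∀ l, ∃ (a : A) (ω : L), (h l0)⁻¹ * h l ∈ cz A → ∀ x : G ⧸ cz A,
      κ (h l) x = ω * χ (cj hA.normal x.out a) * κ (h l0) x := by
    intro l
    by_cases hl : (h l0)⁻¹ * h l ∈ cz A
    · obtain ⟨e, ω, hh⟩ := he _ _ hl
      exact ⟨e, ω, fun _ => hh⟩
    · exact ⟨1, 0, fun hh => absurd hh hl⟩
  choose e ω heω using hch
  have key : ∀ x : G ⧸ cz A, b.repr ((∑ l, β l • σ (h l)) (b x)) (h l0 • x) =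
      κ (h l0) x * ∑ l, (if (h l0)⁻¹ * h l ∈ cz A then β l * ω l else 0) *
        χ (cj hA.normal x.out (e l)) := by
    intro x
    rw [hrepr, Finset.mul_sum]
    refine Finset.sum_congr rfl fun l _ => ?_
    by_cases hl : (h l0)⁻¹ * h l ∈ cz A
    · rw [if_pos ((rep2_smul _ _ _ x).2 hl), if_pos hl, heω l hl x]
      ring
    · rw [if_neg fun hh => hl ((rep2_smul _ _ _ x).1 hh), if_neg hl]
      ring
  refine ⟨e, fun l => if (h l0)⁻¹ * h l ∈ cz A then β l * ω l else 0, ⟨x0, fun hz => ?_⟩, ?_⟩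
  · rw [key, hz, mul_zero] at hy0
    exact hy0 rfl
  · rw [Nat.card_eq_fintype_card, Fintype.card_subtype]
    refine h6 L V (G ⧸ cz A) b _ q (fun l x => h l • x) l0 _
      (fun l => MulAction.injective (h l)) hsupp fun x hx => ?_
    rw [key]
    exact mul_ne_zero (hκ _ _) (Finset.mem_filter.1 hx).2

theorem rep2_log {ε : ℝ} (hε : 0 < ε) {m g : ℕ} (hg : 1 ≤ g) (h : 2 ^ m ≤ 2 * g) :
    (m : ℝ) ≤ (1 + 1 / (ε * Real.log 2)) * (g : ℝ) ^ ε := by
  have g1 : (1 : ℝ) ≤ g := by exact_mod_cast hg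
  have l2 : 0 < Real.log 2 := Real.log_pos one_lt_two
  have h1 : (2 : ℝ) ^ m ≤ 2 * g := by exact_mod_cast h
  have h2 := Real.log_le_log (by positivity) h1
  rw [Real.log_pow, Real.log_mul two_ne_zero (by positivity)] at h2
  have h3 : Real.log g ≤ (g : ℝ) ^ ε / ε := Real.log_le_rpow_div (by positivity) hε
  have h4 : (1 : ℝ) ≤ (g : ℝ) ^ ε := Real.one_le_rpow g1 hε.le
  have h5 : (1 + 1 / (ε * Real.log 2)) * (g : ℝ) ^ ε * Real.log 2 =
      (g : ℝ) ^ ε * Real.log 2 + (g : ℝ) ^ ε / ε := by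
    field_simp
  refine le_of_mul_le_mul_right ?_ l2
  rw [h5]
  nlinarith

theorem rep2 (h1 : StmtAb1) (h2 : StmtAb2) (h3 : StmtEig2) (h4 : StmtStruct2) (h5 : StmtCount)
    (h6 : Cp.StmtMono) : StmtRep2 := by
  intro δ hδ q d
  have hε : 0 < δ / 2 := half_pos hδ
  obtain ⟨c0, hc0, hC⟩ := h5 (δ / 2) hε q
  have l2 : 0 < Real.log 2 := Real.log_pos one_lt_two
  obtain ⟨c1, e1⟩ : ∃ c1 : ℝ, c1 = 1 + 1 / (δ / 2 * Real.log 2) := ⟨_, rfl⟩
  have hc1 : 0 < c1 := by rw [e1]; positivity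
  refine ⟨1 + c1 * d * (1 + (2 * q + 1) / c0), by positivity, ?_⟩
  intro L G V _ _ _ _ _ _ _ σ A H hA hH hcm hirr h β hM
  have := hA.normal
  obtain ⟨H', N, a1, a2, a3, a4, a5, a6⟩ := h1 G (cz A) H Subgroup.normal_centralizer hcm
  have hN : AbMod A N := ⟨a2, a5⟩
  have b1 : 2 ^ N.relIndex H' ≤ 2 * Nat.card G :=
    (h2 G A H' N hA hN a3 a4 a6).trans (Nat.mul_le_mul_left _ A.card_le_card_group)
  have b2 := rep2_log hε Nat.card_pos b1
  rw [← e1] at b2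
  have b3 : H'.index ≤ d :=
    (Nat.le_of_dvd (Nat.pos_of_ne_zero H.index_ne_zero_of_finite) (Subgroup.index_dvd_of_le a1)).trans hH
  have hN1 : (1 : ℝ) ≤ (Nat.card G : ℝ) := by exact_mod_cast Nat.card_pos
  have hE : (1 : ℝ) ≤ (Nat.card G : ℝ) ^ (δ / 2) := Real.one_le_rpow hN1 hε.le
  have hEE : (Nat.card G : ℝ) ^ δ = (Nat.card G : ℝ) ^ (δ / 2) * (Nat.card G : ℝ) ^ (δ / 2) := by
    rw [← Real.rpow_add (by linarith), add_halves]
  have b4 : (N.index : ℝ) ≤ c1 * (Nat.card G : ℝ) ^ (δ / 2) * d := by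
    rw [← Subgroup.relIndex_mul_index a3, Nat.cast_mul]
    exact mul_le_mul b2 (by exact_mod_cast b3) (Nat.cast_nonneg _) (by positivity)
  have hS : (1 : ℝ) ≤ Module.finrank L (LinearMap.range (∑ l, β l • σ (h l))) := by
    have : Module.finrank L (LinearMap.range (∑ l, β l • σ (h l))) ≠ 0 := fun h0 =>
      hM (LinearMap.range_eq_bot.1 (Submodule.finrank_eq_zero.1 h0))
    exact_mod_cast Nat.one_le_iff_ne_zero.2 this
  obtain ⟨S, hSe⟩ : ∃ S : ℝ, S = Module.finrank L (LinearMap.range (∑ l, β l • σ (h l))) :=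
    ⟨_, rfl⟩
  obtain ⟨E, hEe⟩ : ∃ E : ℝ, E = (Nat.card G : ℝ) ^ (δ / 2) := ⟨_, rfl⟩
  rw [hEE, ← hSe]
  rw [← hSe] at hS
  rw [← hEe] at hE b4 ⊢
  have hES : 1 ≤ E * S := one_le_mul_of_one_le_of_one_le hE hS
  have hq : (0 : ℝ) ≤ (2 * q + 1) / c0 := by positivity
  have hT : 0 ≤ c1 * E * d := by positivity
  have fin : ∀ r : ℝ, r ≤ (1 + (2 * q + 1) / c0) * (E * S) → 0 ≤ r →
      r * N.index ≤ (1 + c1 * d * (1 + (2 * q + 1) / c0)) * (E * E) * S := fun r hr h0 => by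
    have k1 : r * N.index ≤ (1 + (2 * q + 1) / c0) * (E * S) * (c1 * E * d) :=
      mul_le_mul hr b4 (Nat.cast_nonneg _) (by positivity)
    have k2 : 0 ≤ E * E * S := by positivity
    nlinarith
  obtain ⟨hz, hd | ⟨χ, v, v1, v2, v3⟩⟩ := h3 L G V σ A N hA hN hirr
  · have k1 : (Module.finrank L V : ℝ) ≤ N.index := by exact_mod_cast hd
    have k2 := fin 1 (by nlinarith) zero_le_one
    linarith
  obtain ⟨b, κ, hσ, hκ, he⟩ := h4 L G V σ A hA hirr hz χ v v1 v2 v3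
  obtain ⟨a, β', hx, hX⟩ := rep2_main h6 (fun g => σ g) hA χ h β hM b κ hσ hκ he
  have g1 := hC L G A N hA hN χ a β' v1 hx
  have hdim : (Module.finrank L V : ℝ) = (cz A).relIndex N * N.index := by
    rw [Module.finrank_eq_nat_card_basis b, ← Nat.cast_mul, Subgroup.relIndex_mul_index a2]
    rfl
  have g3 : c0 * (cz A).relIndex N ≤ E * ((2 * q + 1) * S) := by
    rw [← hEe] at g1
    refine g1.trans (mul_le_mul_of_nonneg_left ?_ (by linarith))
    rw [hSe]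
    exact_mod_cast hX
  have g4 : ((cz A).relIndex N : ℝ) ≤ (2 * q + 1) / c0 * (E * S) := by
    rw [div_mul_eq_mul_div, le_div_iff₀ hc0]
    linarith
  rw [hdim]
  exact fin _ (by nlinarith) (Nat.cast_nonneg _)

end Pool.Agent.Work.MP_11a08a_al.Fr
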