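import Pool.Agent.Work.MP_11a08a_al.Fr.Ex

/-!
The ring attached to a nontrivial character.
-/

set_option autoImplicit false

namespace Pool.Agent.Work.MP_11a08a_al.Fr

theorem ring_mod (S M L : Type) [CommRing S] [AddCommGroup M] [Module S M] [Finite M] [Field L]
    (θ : AddChar M L) (h : ∃ m, θ m ≠ 1) :
    ∃ (R : Type) (_ : CommRing R) (_ : Fintype R) (_ : DecidableEq R) (p : S →+* R)
      (Ψ : M → AddChar R L), Nontrivial R ∧ Fintype.card R ≤ Nat.card M ∧
      (∀ s : S, (∀ m : M, s • m = 0 → m = 0) → IsUnit (p s)) ∧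
      (∀ y, (∀ a, Ψ a y = 1) → y = 0) ∧ ∀ (a : M) (s : S), Ψ a (p s) = θ (s • a) := by
  classical
  let I : Ideal S :=
    { carrier := {x | ∀ m : M, θ (x • m) = 1}
      add_mem' := by
        intro a b ha hb m
        rw [add_smul, θ.map_add_eq_mul, ha m, hb m, one_mul]
      zero_mem' := by
        intro m
        rw [zero_smul, θ.map_zero_eq_one]
      smul_mem' := by
        intro c x hx m
        rw [smul_eq_mul, mul_comm, mul_smul]
        exact hx _ }
  have hI : ∀ x : S, x ∈ I ↔ ∀ m : M, θ (x • m) = 1 := fun x => Iff.rfl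
  have hsur : Function.Surjective (Ideal.Quotient.mk I) := Ideal.Quotient.mk_surjective
  choose r hr using hsur
  have key : ∀ (s : S) (m : M), θ (r (Ideal.Quotient.mk I s) • m) = θ (s • m) := by
    intro s m
    have h1 : r (Ideal.Quotient.mk I s) - s ∈ I := Ideal.Quotient.eq.1 (hr _)
    have h2 := (hI _).1 h1 m
    have h3 : r (Ideal.Quotient.mk I s) • m = (r (Ideal.Quotient.mk I s) - s) • m + s • m := by
      rw [← add_smul, sub_add_cancel]
    rw [h3, θ.map_add_eq_mul, h2, one_mul]
  let Ψ : M → AddChar (S ⧸ I) L := fun m =>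
    { toFun := fun y => θ (r y • m)
      map_zero_eq_one' := by
        rw [← map_zero (Ideal.Quotient.mk I), key, zero_smul, θ.map_zero_eq_one]
      map_add_eq_mul' := by
        intro a b
        have : a + b = Ideal.Quotient.mk I (r a + r b) := by rw [map_add, hr, hr]
        rw [this, key, add_smul, θ.map_add_eq_mul] }
  have hΨ : ∀ m y, Ψ m y = θ (r y • m) := fun _ _ => rfl
  have hfa : ∀ y, (∀ a, Ψ a y = 1) → y = 0 := by
    intro y hy
    rw [← hr y]
    exact Ideal.Quotient.eq_zero_iff_mem.2 ((hI _).2 hy)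
  let F : S ⧸ I → (Multiplicative M →* L) := fun y =>
    { toFun := fun m => θ (r y • m.toAdd)
      map_one' := by rw [toAdd_one, smul_zero, θ.map_zero_eq_one]
      map_mul' := by
        intro a b
        rw [toAdd_mul, smul_add, θ.map_add_eq_mul] }
  have hF : Function.Injective F := by
    intro x y hxy
    rw [← sub_eq_zero]
    apply hfa
    intro a
    have h1 : Ψ a x = Ψ a y := DFunLike.congr_fun hxy (Multiplicative.ofAdd a)
    have h2 : Ψ a x = Ψ a (x - y) * Ψ a y := by
      rw [← AddChar.map_add_eq_mul, sub_add_cancel]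
    have h3 := addChar_ne (Ψ a) y
    rw [h1] at h2
    exact mul_right_cancel₀ h3 (by rw [one_mul]; exact h2.symm)
  have hli := (linearIndependent_monoidHom (Multiplicative M) L).comp F hF
  haveI : Finite (S ⧸ I) := hli.finite
  letI : Fintype (S ⧸ I) := Fintype.ofFinite _
  letI : Fintype M := Fintype.ofFinite _
  refine ⟨S ⧸ I, inferInstance, inferInstance, inferInstance, Ideal.Quotient.mk I, Ψ, ?_, ?_, ?_,
    hfa, fun a s => key s a⟩
  · obtain ⟨m, hm⟩ := h
    refine ⟨⟨1, 0, fun e => hm ?_⟩⟩
    have h1 := key 1 m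
    rw [one_smul, map_one, e, ← map_zero (Ideal.Quotient.mk I), key, zero_smul,
      θ.map_zero_eq_one] at h1
    exact h1.symm
  · have := hli.fintype_card_le_finrank
    rw [Module.finrank_fintype_fun_eq_card, Fintype.card_multiplicative] at this
    rw [Nat.card_eq_fintype_card]
    exact this
  · intro s hs
    have h1 : Function.Injective fun m : M => s • m := by
      intro a b hab
      rw [← sub_eq_zero]
      apply hs
      rw [smul_sub]
      exact sub_eq_zero.2 hab
    have h2 := Finite.injective_iff_surjective.1 h1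
    have h3 : Function.Injective fun y : S ⧸ I => Ideal.Quotient.mk I s * y := by
      intro a b hab
      rw [← sub_eq_zero]
      apply hfa
      intro m
      obtain ⟨m', rfl⟩ := h2 m
      have h4 : Ideal.Quotient.mk I (r (a - b) * s) = Ideal.Quotient.mk I 0 := by
        rw [map_mul, hr, map_zero, mul_comm, mul_sub]
        exact sub_eq_zero.2 hab
      rw [hΨ, ← mul_smul, ← key, h4, key, zero_smul, θ.map_zero_eq_one]
    obtain ⟨y, hy⟩ := Finite.injective_iff_surjective.1 h3 1
    exact IsUnit.of_mul_eq_one y hy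

theorem ring_end (G M L : Type) [Group G] [AddCommGroup M] [Finite M] [Field L]
    (act : G →* AddMonoid.End M) (hc : ∀ g g', act g * act g' = act g' * act g)
    (θ : AddChar M L) (h : ∃ m, θ m ≠ 1)
    (hf : ∀ g, act g ≠ 1 → ∀ m, act g m = m → m = 0) :
    ∃ (R : Type) (_ : CommRing R) (_ : Fintype R) (_ : DecidableEq R) (u : G →* R)
      (Ψ : M → AddChar R L), Nontrivial R ∧ Fintype.card R ≤ Nat.card M ∧
      (∀ g g', u g ≠ u g' → IsUnit (u g - u g')) ∧ (∀ g, u g = 1 ↔ act g = 1) ∧
      (∀ y, (∀ a, Ψ a y = 1) → y = 0) ∧ ∀ (a : M) (g : G), Ψ a (u g) = θ (act g a) := by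
  let T : Subring (AddMonoid.End M) := Subring.centralizer (Set.range act)
  have hT : ∀ g, act g ∈ T := by
    intro g
    rw [Subring.mem_centralizer_iff]
    rintro _ ⟨g', rfl⟩
    exact hc _ _
  let u1 : G →* T := act.codRestrict T hT
  have hS : ∀ g, u1 g ∈ Subring.center T := by
    intro g
    rw [Subring.mem_center_iff]
    intro t
    apply Subtype.ext
    exact (Subring.mem_centralizer_iff.1 t.2 (act g) ⟨g, rfl⟩).symm
  let u2 : G →* Subring.center T := u1.codRestrict (Subring.center T) hS
  let ρ : Subring.center T →+* AddMonoid.End M := T.subtype.comp (Subring.center T).subtype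
  letI : Module (Subring.center T) M := Module.compHom M ρ
  have hsm : ∀ (g : G) (m : M), u2 g • m = act g m := fun _ _ => rfl
  obtain ⟨R, i1, i2, i3, p, Ψ, hn, hcard, hu, hfa, hΨ⟩ := ring_mod (Subring.center T) M L θ h
  have h1 : ∀ g, act g = 1 → p (u2 g) = 1 := by
    intro g hg
    have : u2 g = 1 := Subtype.ext (Subtype.ext hg)
    rw [this, map_one]
  have h2 : ∀ g, act g ≠ 1 → IsUnit (p (u2 g) - 1) := by
    intro g hg
    have := hu (u2 g - 1) fun m hm => hf g hg m (by
      rw [sub_smul, one_smul, hsm] at hm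
      exact sub_eq_zero.1 hm)
    rwa [map_sub, map_one] at this
  let u : G →* R := (p : Subring.center T →* R).comp u2
  have hu' : ∀ g, u g = p (u2 g) := fun _ => rfl
  refine ⟨R, i1, i2, i3, u, Ψ, hn, hcard, ?_, ?_, hfa, fun a g => hΨ a (u2 g)⟩
  · intro g g' hg
    have e : u g = u g' * u (g'⁻¹ * g) := by rw [← map_mul, mul_inv_cancel_left]
    have h3 : act (g'⁻¹ * g) ≠ 1 := by
      intro h4
      apply hg
      rw [e, hu' (g'⁻¹ * g), h1 _ h4, mul_one]
    have h5 : u g - u g' = u g' * (u (g'⁻¹ * g) - 1) := by rw [mul_sub, ← e, mul_one]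
    rw [h5]
    exact ((Group.isUnit g').map u).mul (h2 _ h3)
  · intro g
    refine ⟨fun hg => ?_, h1 g⟩
    by_contra h3
    have := h2 g h3
    rw [← hu', hg, sub_self] at this
    exact not_isUnit_zero this

theorem ring_ex : StmtRing := by
  intro G _ _ A H L _ χ hχ
  letI : CommGroup A :=
    { (inferInstance : Group A) with mul_comm := fun a b => Subtype.ext (H.comm _ a.2 _ b.2) }
  have key : ∀ g g2 : G, ∀ a ∈ A, (g * g2)⁻¹ * a * (g * g2) = (g2 * g)⁻¹ * a * (g2 * g) := by
    intro g g2 a ha
    calc (g * g2)⁻¹ * a * (g * g2) = (g2 * g)⁻¹ * (g2 * g * g2⁻¹ * g⁻¹ * a) * (g * g2) := by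
          group
      _ = (g2 * g)⁻¹ * a * (g2 * g) := by
          rw [H.met g2 g a ha]
          group
  let cj : G → A → A := fun g a => ⟨g⁻¹ * a * g, H.normal.conj_mem' _ a.2 g⟩
  have hcj : ∀ g a, ((cj g a : A) : G) = g⁻¹ * a * g := fun _ _ => rfl
  let ac : G → AddMonoid.End (Additive A) := fun g =>
    { toFun := fun m => Additive.ofMul (cj g m.toMul)
      map_zero' := by
        apply Additive.toMul.injective
        apply Subtype.ext
        change g⁻¹ * 1 * g = 1
        group
      map_add' := by
        intro a b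
        apply Additive.toMul.injective
        apply Subtype.ext
        change g⁻¹ * ((a.toMul : A) * (b.toMul : A) : G) * g =
          g⁻¹ * (a.toMul : A) * g * (g⁻¹ * (b.toMul : A) * g)
        group }
  have hext : ∀ x y : AddMonoid.End (Additive A),
      (∀ a : A, (((x (Additive.ofMul a)).toMul : A) : G) = ((y (Additive.ofMul a)).toMul : A)) →
      x = y := by
    intro x y hxy
    apply AddMonoidHom.ext
    intro m
    apply Additive.toMul.injective
    exact Subtype.ext (hxy m.toMul)
  let act : G →* AddMonoid.End (Additive A) :=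
    { toFun := ac
      map_one' := by
        apply hext
        intro a
        change (1 : G)⁻¹ * a * 1 = a
        group
      map_mul' := by
        intro g g2
        apply hext
        intro a
        change (g * g2)⁻¹ * a * (g * g2) = g⁻¹ * (g2⁻¹ * a * g2) * g
        rw [key g g2 a a.2]
        group }
  have hone : ∀ g, act g = 1 ↔ ∀ a ∈ A, g * a = a * g := by
    intro g
    constructor
    · intro hg a ha
      have h1 : g⁻¹ * a * g = a :=
        congrArg (fun x : AddMonoid.End (Additive A) =>
          (((x (Additive.ofMul ⟨a, ha⟩)).toMul : A) : G)) hg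
      calc g * a = g * (g⁻¹ * a * g) := by rw [h1]
        _ = a * g := by group
    · intro hg
      apply hext
      intro a
      change g⁻¹ * a * g = a
      rw [mul_assoc, ← hg a a.2]
      group
  let θ : AddChar (Additive A) L :=
    { toFun := fun m => χ m.toMul
      map_zero_eq_one' := map_one χ
      map_add_eq_mul' := fun a b => map_mul χ _ _ }
  obtain ⟨R, i1, i2, i3, u, Ψ, hn, hcard, hu, h1, hfa, hΨ⟩ :=
    ring_end G (Additive A) L act (by
      intro g g2
      apply hext
      intro a
      change g⁻¹ * (g2⁻¹ * a * g2) * g = g2⁻¹ * (g⁻¹ * a * g) * g2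
      have := key g g2 a a.2
      calc g⁻¹ * (g2⁻¹ * a * g2) * g = (g2 * g)⁻¹ * a * (g2 * g) := by group
        _ = (g * g2)⁻¹ * a * (g * g2) := this.symm
        _ = g2⁻¹ * (g⁻¹ * a * g) * g2 := by group) θ
      (by
        obtain ⟨a, ha⟩ := hχ
        exact ⟨Additive.ofMul a, ha⟩)
      (by
        intro g hg m hm
        by_contra h0
        apply hg
        rw [hone]
        have h1 : g⁻¹ * (m.toMul : A) * g = (m.toMul : A) :=
          congrArg (fun x : Additive A => ((x.toMul : A) : G)) hm
        refine H.fpf g (m.toMul : A) (m.toMul : A).2 (fun e => h0 ?_) ?_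
        · apply Additive.toMul.injective
          exact Subtype.ext e
        · calc g * (m.toMul : A) = g * (g⁻¹ * (m.toMul : A) * g) := by rw [h1]
            _ = (m.toMul : A) * g := by group)
  refine ⟨R, i1, i2, i3, u, fun a => Ψ (Additive.ofMul a), hn, ?_, hu,
    fun g => (h1 g).trans (hone g), fun y hy => hfa y fun a => hy a.toMul, ?_⟩
  · exact hcard.trans (Subgroup.card_le_card_group A)
  · intro a b g hb
    rw [hΨ]
    have : b = cj g a := Subtype.ext hb
    rw [this]
    rfl

end Pool.Agent.Work.MP_11a08a_al.Fr
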