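import Pool.Agent.Work.MP_11a08a_al.Cp.Mono
import Pool.Agent.Work.MP_11a08a_al.Fr.Ab0
import Pool.Agent.Work.MP_11a08a_al.Fr.Ab1
import Pool.Agent.Work.MP_11a08a_al.Fr.Ab2
import Pool.Agent.Work.MP_11a08a_al.Fr.Count
import Pool.Agent.Work.MP_11a08a_al.Fr.Cyc
import Pool.Agent.Work.MP_11a08a_al.Fr.Eig2
import Pool.Agent.Work.MP_11a08a_al.Fr.Main
import Pool.Agent.Work.MP_11a08a_al.Fr.Rep2
import Pool.Agent.Work.MP_11a08a_al.Fr.Ring
import Pool.Agent.Work.MP_11a08a_al.Fr.Struct2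
import Pool.Agent.Work.MP_11a08a_al.Sol.Main

/-!
The rank bound over every field.
-/

set_option autoImplicit false

open Finset Module
open scoped commutatorElement

namespace Pool.Agent.Work.MP_11a08a_al.Fr

theorem rep2_all : StmtRep2 :=
  rep2 ab1 (ab2 ab0 (cyc ring_ex)) (eig2 (cyc ring_ex)) struct2 (count nt_all ring_ex) Cp.mono

theorem final (ε : ℝ) (hε : 0 < ε) (q d : ℕ) : ∃ N : ℕ, ∀ n > N,
    ∀ (F : Type) [Field F] (G : Type) [Group G] [Finite G] (A H : Subgroup G), FrobK A →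
      H.index ≤ d → (∀ x ∈ ⁅H, H⁆, ∀ y ∈ ⁅H, H⁆, ⁅x, y⁆ ∈ cz A) →
      ∀ ρ : Representation F G (Fin n → F), ρ.IsIrreducible → (Nat.card G : ℝ) ^ ε ≤ n →
      ∀ (h : Fin q → G) (α : Fin q → F), ∑ l, α l • ρ (h l) ≠ 0 →
        (n : ℝ) ^ (1 - ε) ≤ finrank F (LinearMap.range (∑ l, α l • ρ (h l))) := by
  obtain ⟨c, hc, K⟩ := rep2_all (ε ^ 2 / 2) (by positivity) q d
  obtain ⟨N, hN⟩ := Sol.fin_num ε hε c hc
  refine ⟨N, fun n hn F _ G _ _ A H hA hd hH ρ hirr hg h α hne => ?_⟩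
  have := Fintype.ofFinite G
  refine hN n hn (Nat.card G) _ hg ?_
  exact Sol.fin_step Sol.ideal Sol.change ρ α h hirr hne (AlgebraicClosure F)
    (Or.inl ⟨algebraMap _ _⟩) (by positivity)
    fun β V _ _ _ σ a b => K _ G V σ A H hA hd hH a h β b

end Pool.Agent.Work.MP_11a08a_al.Fr
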