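import Pool.Agent.Work.MP_11a08a_al.Fr.Ex

/-!
The case of prime order.
-/

set_option autoImplicit false

namespace Pool.Agent.Work.MP_11a08a_al.Fr

theorem prime_gen {G : Type} [Group G] [Finite G] {A : Subgroup G} (hp : (Nat.card A).Prime)
    {a b : G} (ha : a ∈ A) (h1 : a ≠ 1) (hb : b ∈ A) : ∃ i : ℤ, a ^ i = b := by
  have : Fact (Nat.card A).Prime := ⟨hp⟩
  obtain ⟨i, hi⟩ := Subgroup.mem_zpowers_iff.1
    (mem_zpowers_of_prime_card (G := A) (p := Nat.card A) rfl (g := ⟨a, ha⟩) (g' := ⟨b, hb⟩)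
      fun h => h1 (congrArg Subtype.val h))
  exact ⟨i, by simpa using congrArg Subtype.val hi⟩

theorem prime_case : StmtPrime := by
  intro G _ _ A hA hp hc
  have fpf : ∀ g : G, ∀ a ∈ A, a ≠ 1 → g * a = a * g → ∀ b ∈ A, g * b = b * g := by
    intro g a ha h1 h b hb
    obtain ⟨i, rfl⟩ := prime_gen hp ha h1 hb
    exact (Commute.zpow_right (a := g) (b := a) h i).eq
  refine ⟨hA, fun a ha b hb => ?_, hc, fun g g' a ha => ?_, fpf⟩
  · by_cases h1 : a = 1
    · rw [h1, one_mul, mul_one]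
    · exact fpf a a ha h1 rfl b hb
  · by_cases h1 : a = 1
    · rw [h1, one_mul, mul_one]
    · obtain ⟨i, hi⟩ := prime_gen hp ha h1 (hA.conj_mem' a ha g)
      obtain ⟨j, hj⟩ := prime_gen hp ha h1 (hA.conj_mem' a ha g')
      have key : ∀ (x y : G) (k l : ℤ), a ^ k = x⁻¹ * a * x → a ^ l = y⁻¹ * a * y →
          y⁻¹ * (x⁻¹ * a * x) * y = a ^ (l * k) := by
        intro x y k l hk hl
        have e := conj_zpow (a := y⁻¹) (b := a) (i := k)
        rw [inv_inv] at e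
        rw [← hk, zpow_mul, hl, e]
      have e1 := key g g' i j hi hj
      have e2 := key g' g j i hj hi
      rw [mul_comm i j, ← e1] at e2
      have e3 : a = g' * g * (g'⁻¹ * (g⁻¹ * a * g) * g') * g⁻¹ * g'⁻¹ := by
        rw [← e2]
        group
      have e4 : g * g' * g⁻¹ * g'⁻¹ * (g' * g * (g'⁻¹ * (g⁻¹ * a * g) * g') * g⁻¹ * g'⁻¹) =
          a * (g * g' * g⁻¹ * g'⁻¹) := by group
      rw [← e3] at e4
      exact e4

end Pool.Agent.Work.MP_11a08a_al.Fr
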