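import Pool.Agent.Work.MP_11a08a_al.Fr.Ex

/-! The irreducible representations are monomial. -/

set_option autoImplicit false

open Finset

namespace Pool.Agent.Work.MP_11a08a_al.Fr

theorem struct_li {L V A ι : Type} [Field L] [AddCommGroup V] [Module L V] [Monoid A] [Fintype ι]
    (T : A → V →ₗ[L] V) (b : ι → V) (c : ι → A →* L) (hc : Function.Injective c)
    (hb : ∀ x, b x ≠ 0) (h : ∀ a x, T a (b x) = c x a • b x) : LinearIndependent L b := by
  rw [Fintype.linearIndependent_iff]
  intro t ht x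
  have hli := (linearIndependent_monoidHom A L).comp c hc
  rw [Fintype.linearIndependent_iff] at hli
  have key : ∀ lam : Module.Dual L V, lam (t x • b x) = 0 := by
    intro lam
    have := hli (fun y => t y * lam (b y)) (by
      funext a
      have h1 := congrArg (fun w => lam (T a w)) ht
      simp only [map_sum, map_smul, h, map_zero, smul_eq_mul] at h1
      simp only [Finset.sum_apply, Pi.smul_apply, Function.comp_apply, smul_eq_mul, Pi.zero_apply]
      rw [← h1]
      exact sum_congr rfl fun y _ => by ring) x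
    simpa using this
  exact (smul_eq_zero.1 ((Module.forall_dual_apply_eq_zero_iff L _).1 key)).resolve_right (hb x)

theorem struct (h1 : StmtRing) (h2 : StmtEig) : StmtStruct := by
  intro L G V _ _ _ _ _ _ _ σ A hF hirr
  classical
  obtain ⟨hcen, hE⟩ := h2 L G V σ A hF hirr
  rcases hE with hE | ⟨χ, v, hχ, hv0, hva⟩
  · exact Or.inl hE
  right
  obtain ⟨R, iR, fR, dR, u, Ψ, -, hcard, hdif, hone, hfai, hΨ⟩ := h1 G A hF L χ hχ
  have hN := hF.normal
  have hσ : ∀ g h w, σ (g * h) w = σ g (σ h w) := fun g h w => by rw [map_mul]; rfl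
  have hσ0 : ∀ g w, σ g w = 0 → w = 0 := by
    intro g w h
    have := hσ g⁻¹ g w
    rw [h] at this
    simpa using this
  have hmove : ∀ (a : A) (g : G), σ a (σ g v) = Ψ a (u g) • σ g v := by
    intro a g
    have hm : g⁻¹ * a * g ∈ A := by simpa using hN.conj_mem _ a.2 g⁻¹
    have e : (a : G) * g = g * (g⁻¹ * a * g) := by group
    rw [hΨ a ⟨_, hm⟩ g rfl, ← hσ, e, hσ, hva ⟨_, hm⟩, map_smul]
  have hker : ∀ c, u c = 1 → ∃ (a : A) (ω : L), ∀ g : G,
      σ c (σ g v) = (ω * Ψ a (u g)) • σ g v := by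
    intro c hc
    have hmem : c ∈ A ⊔ Subgroup.center G := hF.cen c ((hone c).1 hc)
    have hmem' : c ∈ ((A ⊔ Subgroup.center G : Subgroup G) : Set G) := hmem
    rw [Subgroup.mul_normal] at hmem'
    obtain ⟨x, hx, z, hz, rfl⟩ := hmem'
    obtain ⟨ω, hω⟩ := hcen z hz
    refine ⟨⟨x, hx⟩, ω, fun g => ?_⟩
    show σ (x * z) (σ g v) = _
    rw [hσ, hω, map_smul, hmove ⟨x, hx⟩ g, smul_smul]
  have := Fintype.ofFinite G
  set U : Finset R := univ.image u with hU
  have hUm : ∀ g, u g ∈ U := fun g => mem_image_of_mem _ (mem_univ g)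
  have hex : ∀ x : U, ∃ g, u g = x := fun x => by
    obtain ⟨g, -, hg⟩ := mem_image.1 x.2
    exact ⟨g, hg⟩
  choose s hs using hex
  let b : U → V := fun x => σ (s x) v
  have hb0 : ∀ x, b x ≠ 0 := fun x h => hv0 (hσ0 _ _ h)
  have hba : ∀ (a : A) x, σ a (b x) = Ψ a (x : R) • b x := fun a x => by
    have := hmove a (s x)
    rwa [hs] at this
  let π : G → U → U := fun g x => ⟨u g * x, by rw [← hs x, ← map_mul]; exact hUm _⟩
  have hκ : ∀ g x, ∃ k : L, σ g (b x) = k • b (π g x) := by
    intro g x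
    have hc : u ((s (π g x))⁻¹ * (g * s x)) = 1 := by
      have : u (g * s x) = u (s (π g x)) := by rw [hs, map_mul, hs]
      rw [map_mul, this, ← map_mul, inv_mul_cancel, map_one]
    obtain ⟨a, ω, he⟩ := hker _ hc
    have he1 := he 1
    simp only [map_one, Module.End.one_apply] at he1
    refine ⟨ω * Ψ a 1, ?_⟩
    have : σ g (b x) = σ (s (π g x)) (σ ((s (π g x))⁻¹ * (g * s x)) v) := by
      show σ g (σ (s x) v) = _
      rw [← hσ, ← hσ]; congr 1; group
    rw [this, he1, map_smul]
  choose κ hκ using hκ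
  let ch : U → A →* L := fun x =>
    { toFun := fun a => Ψ a (x : R)
      map_one' := by
        apply smul_left_injective L (hb0 x)
        show Ψ 1 (x : R) • b x = (1 : L) • b x
        rw [← hba]
        simp
      map_mul' := fun a a' => by
        apply smul_left_injective L (hb0 x)
        show Ψ (a * a') (x : R) • b x = (Ψ a (x : R) * Ψ a' (x : R)) • b x
        rw [← hba, Subgroup.coe_mul, hσ, hba, map_smul, hba, smul_smul, mul_comm] }
  have hch : Function.Injective ch := by
    intro x y h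
    apply Subtype.ext
    rw [← sub_eq_zero]
    refine hfai _ fun a => ?_
    have e : Ψ a (x : R) = Ψ a (y : R) := DFunLike.congr_fun h a
    have e2 := (Ψ a).map_add_eq_mul ((x : R) - y) y
    rw [sub_add_cancel, e] at e2
    exact (mul_eq_right₀ (addChar_ne _ _)).1 e2.symm
  have hli : LinearIndependent L b := struct_li (fun a : A => σ a) b ch hch hb0 fun a x => hba a x
  have hspan : ⊤ ≤ Submodule.span L (Set.range b) := by
    rcases hirr (Submodule.span L (Set.range b)) (fun g w hw => by
      induction hw using Submodule.span_induction with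
      | mem w hw =>
        obtain ⟨x, rfl⟩ := hw
        rw [hκ]; exact Submodule.smul_mem _ _ (Submodule.subset_span ⟨_, rfl⟩)
      | zero => simp
      | add x y _ _ hx hy => rw [map_add]; exact Submodule.add_mem _ hx hy
      | smul c x _ hx => rw [map_smul]; exact Submodule.smul_mem _ _ hx) with h | h
    · exfalso
      have : b ⟨u 1, hUm 1⟩ ∈ Submodule.span L (Set.range b) := Submodule.subset_span ⟨_, rfl⟩
      rw [h] at this
      exact hb0 _ (by simpa using this)
    · exact h.ge
  refine ⟨R, iR, fR, dR, U, Module.Basis.mk hli hspan, u, π, κ, hcard, ⟨?_, ?_, ?_, ?_⟩, hUm,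
    fun _ _ => rfl, ?_, ?_, ?_⟩
  · rw [← map_one u]; exact hUm 1
  · intro x hx y hy
    obtain ⟨g, -, rfl⟩ := mem_image.1 hx
    obtain ⟨g', -, rfl⟩ := mem_image.1 hy
    rw [← map_mul]; exact hUm _
  · intro x hx
    obtain ⟨g, -, rfl⟩ := mem_image.1 hx
    exact ⟨u g⁻¹, hUm _, by rw [← map_mul, mul_inv_cancel, map_one]⟩
  · intro x hx y hy hxy
    obtain ⟨g, -, rfl⟩ := mem_image.1 hx
    obtain ⟨g', -, rfl⟩ := mem_image.1 hy
    exact hdif g g' hxy
  · intro g x; simpa using hκ g x
  · intro g x h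
    have := hκ g x
    rw [h, zero_smul] at this
    exact hb0 x (hσ0 _ _ this)
  · intro g g' hgg
    have hc : u (g⁻¹ * g') = 1 := by rw [map_mul, ← hgg, ← map_mul, inv_mul_cancel, map_one]
    obtain ⟨a, ω, he⟩ := hker _ hc
    refine ⟨Ψ a, ω, fun x => ?_⟩
    have hπ : π g' x = π g x := Subtype.ext (by show u g' * _ = u g * _; rw [hgg])
    have h1 : σ g' (b x) = σ g (σ (g⁻¹ * g') (b x)) := by
      rw [← hσ g (g⁻¹ * g') (b x), mul_inv_cancel_left]
    have h3 : σ (g⁻¹ * g') (b x) = (ω * Ψ a (x : R)) • b x := by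
      have := he (s x)
      rwa [hs] at this
    rw [h3, map_smul, hκ, hκ, hπ, smul_smul] at h1
    exact smul_left_injective L (hb0 (π g x)) h1

end Pool.Agent.Work.MP_11a08a_al.Fr
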